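import Pool.Agent.W_MP_13ae32_ag.Lower

/-!
Duality between homogeneous polynomials modulo the powers of the ideal and symmetric polynomials
vanishing on clusters.
-/

open MvPolynomial Finset

set_option linter.unusedSectionVars false

namespace Pool.Agent.W_MP_13ae32_ag

/-- coefficients of a vector valued polynomial function lie in the span of the values. -/
theorem coeff_mem_span_values {V : Type*} [AddCommGroup V] [Module ℂ V] (N : ℕ) (c : ℕ → V)
    (k : ℕ) (hk : k < N) :
    c k ∈ Submodule.span ℂ (Set.range fun u : ℂ => ∑ i ∈ range N, u ^ i • c i) := by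
  by_contra hcon
  obtain ⟨Λ, h1, h2⟩ := Submodule.exists_le_ker_of_notMem hcon
  set P : Polynomial ℂ := ∑ i ∈ range N, Polynomial.C (Λ (c i)) * Polynomial.X ^ i with hP
  have h0 : P = 0 := by
    apply Polynomial.funext
    intro u
    have h3 : Λ (∑ i ∈ range N, u ^ i • c i) = 0 :=
      h2 (Submodule.subset_span ⟨u, rfl⟩)
    rw [map_sum] at h3
    rw [hP, Polynomial.eval_finsetSum, Polynomial.eval_zero, ← h3]
    apply Finset.sum_congr rfl
    intro i _
    rw [Polynomial.eval_mul, Polynomial.eval_C, Polynomial.eval_pow, Polynomial.eval_X, map_smul,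
      smul_eq_mul, mul_comm]
  apply h1
  have h4 := congrArg (fun p => Polynomial.coeff p k) h0
  simp only [hP, Polynomial.finsetSum_coeff, Polynomial.coeff_C_mul, Polynomial.coeff_X_pow,
    mul_ite, mul_one, mul_zero, Polynomial.coeff_zero] at h4
  rw [Finset.sum_ite_eq (range N) k (fun i => Λ (c i)), if_pos (Finset.mem_range.2 hk)] at h4
  exact h4

/-- the linear form `f(u) = ∑ binom(b,i) u^i z_i`. -/
noncomputable def ff (b : ℕ) (u : ℂ) : MvPolynomial (Fin (b + 1)) ℂ :=
  ∑ i : Fin (b + 1), C ((b.choose i : ℂ) * u ^ (i : ℕ)) * X i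

theorem ff_isHomogeneous (b : ℕ) (u : ℂ) : (ff b u).IsHomogeneous 1 :=
  IsHomogeneous.sum _ _ _ fun i _ => isHomogeneous_C_mul_X _ i

theorem choose_ne_zero' {b : ℕ} (i : Fin (b + 1)) : (b.choose i : ℂ) ≠ 0 := by
  have : 0 < b.choose i := Nat.choose_pos (by have := i.2; omega)
  exact_mod_cast this.ne'

theorem span_ff (b : ℕ) :
    Submodule.span ℂ (Set.range (ff b)) = homogeneousSubmodule (Fin (b + 1)) ℂ 1 := by
  apply le_antisymm
  · rw [Submodule.span_le]
    rintro _ ⟨u, rfl⟩
    exact ff_isHomogeneous b u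
  · rw [homogeneousSubmodule_one_eq_span_X, Submodule.span_le]
    rintro _ ⟨i, rfl⟩
    set c : ℕ → MvPolynomial (Fin (b + 1)) ℂ := fun k =>
      if h : k < b + 1 then C (b.choose k : ℂ) * X ⟨k, h⟩ else 0 with hc
    have h1 : (fun u : ℂ => ∑ i ∈ range (b + 1), u ^ i • c i) = ff b := by
      funext u
      rw [ff, ← Fin.sum_univ_eq_sum_range (fun i => u ^ i • c i)]
      apply Finset.sum_congr rfl
      intro i _
      simp only [hc, dif_pos i.2, Fin.eta, smul_eq_C_mul, C_mul]
      ring
    have h2 := coeff_mem_span_values (b + 1) c i i.2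
    rw [h1] at h2
    have h3 : X i = ((b.choose i : ℂ))⁻¹ • c i := by
      simp only [hc, dif_pos i.2, Fin.eta, smul_eq_C_mul]
      rw [← mul_assoc, ← C_mul, inv_mul_cancel₀ (choose_ne_zero' i), C_1, one_mul]
    rw [SetLike.mem_coe, h3]
    exact Submodule.smul_mem _ _ h2

/-- homogeneous polynomials are combinations of products of the `f(u)`. -/
theorem span_prod_ff (b n : ℕ) :
    Submodule.span ℂ (Set.range fun u : Fin n → ℂ => ∏ k, ff b (u k)) =
      homogeneousSubmodule (Fin (b + 1)) ℂ n := by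
  rw [← homogeneousSubmodule_one_pow, ← span_ff, Submodule.span_pow]
  congr 1
  ext x
  rw [Set.mem_pow]
  constructor
  · rintro ⟨u, rfl⟩
    refine ⟨fun k => ⟨ff b (u k), u k, rfl⟩, ?_⟩
    rw [List.prod_ofFn]
  · rintro ⟨f, rfl⟩
    have : ∀ k, ∃ u, ff b u = f k := fun k => (f k).2
    choose u hu using this
    refine ⟨u, ?_⟩
    rw [List.prod_ofFn]
    simp only [hu]

/-- exponent vector -/
noncomputable def expo {b n : ℕ} (ι : Fin n → Fin (b + 1)) : Fin n →₀ ℕ :=
  Finsupp.equivFunOnFinite.symm fun k => (ι k : ℕ)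

theorem expo_apply {b n : ℕ} (ι : Fin n → Fin (b + 1)) (k : Fin n) : expo ι k = ι k := rfl

theorem expo_injective {b n : ℕ} : Function.Injective (expo : (Fin n → Fin (b + 1)) → _) := by
  intro ι ι' h
  funext k
  ext
  have := congrArg (fun d => d k) h
  simpa [expo_apply] using this

theorem prod_ff {b n : ℕ} (u : Fin n → ℂ) :
    ∏ k, ff b (u k) = ∑ ι : Fin n → Fin (b + 1),
      C (∏ k, ((b.choose (ι k) : ℂ) * u k ^ (ι k : ℕ))) * ∏ k, X (ι k) := by
  unfold ff
  rw [Finset.prod_univ_sum, Fintype.piFinset_univ]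
  apply Finset.sum_congr rfl
  intro ι _
  rw [Finset.prod_mul_distrib, map_prod]

/-- the polynomial attached to a functional -/
noncomputable def gOf (b n : ℕ) (Λ : MvPolynomial (Fin (b + 1)) ℂ →ₗ[ℂ] ℂ) :
    MvPolynomial (Fin n) ℂ :=
  ∑ ι : Fin n → Fin (b + 1),
    monomial (expo ι) (Λ (∏ k, X (ι k)) * ∏ k, (b.choose (ι k) : ℂ))

theorem eval_gOf {b n : ℕ} (Λ : MvPolynomial (Fin (b + 1)) ℂ →ₗ[ℂ] ℂ) (u : Fin n → ℂ) :
    eval u (gOf b n Λ) = Λ (∏ k, ff b (u k)) := by
  rw [gOf, prod_ff, map_sum, map_sum]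
  apply Finset.sum_congr rfl
  intro ι _
  rw [eval_monomial, Finsupp.prod_fintype _ _ (by simp), ← smul_eq_C_mul, map_smul,
    Finset.prod_mul_distrib, smul_eq_mul]
  simp only [expo_apply]
  ring

theorem gOf_degB {b n : ℕ} (Λ : MvPolynomial (Fin (b + 1)) ℂ →ₗ[ℂ] ℂ) :
    DegB b (gOf b n Λ) := by
  apply DegB.sum
  intro ι _
  apply DegB.of_coeff
  intro d hd i
  rw [coeff_monomial] at hd
  split_ifs at hd with h
  · rw [← h, expo_apply]
    have := (ι i).2
    omega
  · exact absurd rfl hd

theorem gOf_sym {b n : ℕ} (Λ : MvPolynomial (Fin (b + 1)) ℂ →ₗ[ℂ] ℂ)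
    (σ : Equiv.Perm (Fin n)) : rename σ (gOf b n Λ) = gOf b n Λ := by
  apply MvPolynomial.funext
  intro u
  rw [eval_rename, eval_gOf, eval_gOf]
  congr 1
  exact Equiv.prod_comp σ (fun k => ff b (u k))

theorem prod_comp_fib {n M : ℕ} {R : Type*} [CommMonoid R] (φ : Fin n → Fin M) (F : Fin M → R) :
    ∏ k, F (φ k) = ∏ y, F y ^ fib φ y := by
  rw [← Finset.prod_fiberwise_of_maps_to (fun k (_ : k ∈ univ) => mem_univ (φ k))]
  apply Finset.prod_congr rfl
  intro y _
  rw [fib, ← Finset.prod_const]
  apply Finset.prod_congr rfl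
  intro k hk
  simp only [mem_filter, mem_univ, true_and] at hk
  rw [hk]

/-- The upper bound for ideals. -/
theorem mem_of_deg {a b j n : ℕ} (ha : 1 ≤ a) (hj : 1 ≤ j)
    (hn : (j - 1) * a + (a - 1) * ((b - (j - 1)) / 2 + 1) < n)
    (J : Ideal (MvPolynomial (Fin (b + 1)) ℂ))
    (hJ : ∀ u : Fin j → ℂ, ∏ c, ff b (u c) ^ a ∈ J) {p : MvPolynomial (Fin (b + 1)) ℂ}
    (hp : p.IsHomogeneous n) : p ∈ J := by
  by_contra hcon
  have hcon' : p ∉ J.restrictScalars ℂ := hcon
  obtain ⟨Λ, h1, h2⟩ := Submodule.exists_le_ker_of_notMem hcon'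
  have h2' : ∀ x ∈ J, Λ x = 0 := fun x hx => h2 hx
  have hvan : Van a j (gOf b n Λ) := by
    rintro M φ ⟨C, hC, hC1, -⟩
    apply MvPolynomial.funext
    intro u
    rw [map_zero, eval_rename, eval_gOf]
    apply h2'
    simp only [Function.comp_apply]
    rw [prod_comp_fib φ (fun y => ff b (u y)),
      ← Finset.prod_mul_prod_compl C]
    apply Ideal.mul_mem_right
    rw [Finset.prod_congr rfl (fun y hy => by rw [hC1 y hy])]
    have h3 := hJ (fun c => u (C.orderEmbOfFin hC c))
    have h4 : ∏ c, ff b (u (C.orderEmbOfFin hC c)) ^ a = ∏ y ∈ C, ff b (u y) ^ a := by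
      have h5 : C = univ.map (C.orderEmbOfFin hC).toEmbedding := by
        rw [← Finset.coe_inj, Finset.coe_map]
        simp
      conv_rhs => rw [h5]
      rw [Finset.prod_map]
      rfl
    rwa [h4] at h3
  have h0 := upper ha hj hn (gOf b n Λ) (gOf_sym Λ) (gOf_degB Λ) hvan
  apply h1
  have h3 : p ∈ Submodule.span ℂ (Set.range fun u : Fin n → ℂ => ∏ k, ff b (u k)) := by
    rw [span_prod_ff]; exact hp
  have h4 : Submodule.span ℂ (Set.range fun u : Fin n → ℂ => ∏ k, ff b (u k)) ≤
      LinearMap.ker Λ := by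
    rw [Submodule.span_le]
    rintro _ ⟨u, rfl⟩
    rw [SetLike.mem_coe, LinearMap.mem_ker, ← eval_gOf, h0, map_zero]
  exact h4 h3

/-! ### the lower bound -/

/-- values of the functional attached to a symmetric polynomial on monomials -/
noncomputable def gam {b n : ℕ} (g : MvPolynomial (Fin n) ℂ) (μ : Fin (b + 1) →₀ ℕ) : ℂ := by
  classical
  exact if h : ∃ ι : Fin n → Fin (b + 1), ∏ k, X (ι k) = (monomial μ 1 : MvPolynomial _ ℂ)
    then coeff (expo h.choose) g / ∏ k, (b.choose (h.choose k) : ℂ) else 0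

theorem prod_X_eq {b n : ℕ} (ι : Fin n → Fin (b + 1)) :
    (∏ k, X (ι k) : MvPolynomial (Fin (b + 1)) ℂ) =
      monomial (∑ k, Finsupp.single (ι k) 1) 1 := by
  rw [monomial_sum_one]
  rfl

theorem gam_eq {b n : ℕ} {g : MvPolynomial (Fin n) ℂ}
    (hg : ∀ σ : Equiv.Perm (Fin n), rename σ g = g) (ι : Fin n → Fin (b + 1))
    {μ : Fin (b + 1) →₀ ℕ} (h : ∏ k, X (ι k) = (monomial μ 1 : MvPolynomial _ ℂ)) :
    gam g μ = coeff (expo ι) g / ∏ k, (b.choose (ι k) : ℂ) := by
  have hex : ∃ ι : Fin n → Fin (b + 1), ∏ k, X (ι k) = (monomial μ 1 : MvPolynomial _ ℂ) :=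
    ⟨ι, h⟩
  rw [gam, dif_pos hex]
  set ι' := hex.choose with hι'
  have h' : ∏ k, X (ι' k) = (monomial μ 1 : MvPolynomial _ ℂ) := hex.choose_spec
  have hsum : ∀ ι : Fin n → Fin (b + 1), ∏ k, X (ι k) = (monomial μ 1 : MvPolynomial _ ℂ) →
      ∀ y, fib ι y = μ y := by
    intro ι h y
    rw [prod_X_eq] at h
    have h1 := (monomial_left_injective (one_ne_zero : (1 : ℂ) ≠ 0)) h
    rw [← h1, Finsupp.finsetSum_apply, fib, Finset.card_filter]
    apply Finset.sum_congr rfl
    intro k _
    rw [Finsupp.single_apply]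
  obtain ⟨e, he⟩ := exists_perm_of_fib (φ := ι) (ψ := ι') fun y => by
    rw [hsum ι h y, hsum ι' h' y]
  have h1 : expo ι' = Finsupp.mapDomain e (expo ι) := by
    ext k
    have := Finsupp.mapDomain_apply e.injective (expo ι) (e.symm k)
    rw [Equiv.apply_symm_apply] at this
    rw [this, expo_apply, expo_apply, ← he, Equiv.apply_symm_apply]
  have h2 : coeff (expo ι') g = coeff (expo ι) g := by
    rw [h1]
    have := coeff_rename_mapDomain e e.injective g (expo ι)
    rwa [hg] at this
  rw [h2]
  congr 1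
  rw [← Equiv.prod_comp e (fun k => (b.choose (ι' k) : ℂ))]
  simp only [he]

/-- the functional attached to a symmetric polynomial -/
noncomputable def lam' {b n : ℕ} (g : MvPolynomial (Fin n) ℂ) :
    MvPolynomial (Fin (b + 1)) ℂ →ₗ[ℂ] ℂ :=
  (basisMonomials (Fin (b + 1)) ℂ).constr ℂ (gam g)

theorem lam'_monomial {b n : ℕ} (g : MvPolynomial (Fin n) ℂ) (μ : Fin (b + 1) →₀ ℕ) :
    lam' g (monomial μ (1 : ℂ)) = gam g μ := by
  have := (basisMonomials (Fin (b + 1)) ℂ).constr_basis ℂ (gam g) μ
  rwa [coe_basisMonomials] at this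

theorem lam'_prod_X {b n : ℕ} {g : MvPolynomial (Fin n) ℂ}
    (hg : ∀ σ : Equiv.Perm (Fin n), rename σ g = g) (ι : Fin n → Fin (b + 1)) :
    lam' g (∏ k, X (ι k)) = coeff (expo ι) g / ∏ k, (b.choose (ι k) : ℂ) := by
  rw [prod_X_eq, lam'_monomial, gam_eq hg ι (prod_X_eq ι)]

theorem lam'_of_degree {b n m : ℕ} (g : MvPolynomial (Fin n) ℂ) (hm : m ≠ n)
    {p : MvPolynomial (Fin (b + 1)) ℂ} (hp : p.IsHomogeneous m) : lam' g p = 0 := by
  rw [p.as_sum, map_sum]
  apply Finset.sum_eq_zero
  intro d hd
  have h1 : monomial d (coeff d p) = coeff d p • (monomial d (1 : ℂ)) := by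
    rw [smul_monomial]; simp
  rw [h1, map_smul, lam'_monomial, gam, dif_neg, smul_zero]
  rintro ⟨ι, hι⟩
  rw [prod_X_eq] at hι
  have h2 := (monomial_left_injective (one_ne_zero : (1 : ℂ) ≠ 0)) hι
  have h3 : d.degree = m := by
    by_contra hne
    exact (mem_support_iff.1 hd) (hp.coeff_eq_zero hne)
  apply hm
  rw [← h3, ← h2, map_sum]
  simp

theorem lam'_prod_ff {b n : ℕ} {g : MvPolynomial (Fin n) ℂ}
    (hg : ∀ σ : Equiv.Perm (Fin n), rename σ g = g) (hdeg : DegB b g) (u : Fin n → ℂ) :
    lam' g (∏ k, ff b (u k)) = eval u g := by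
  rw [prod_ff, map_sum, eval_eq']
  have h1 : ∑ d ∈ g.support, coeff d g * ∏ i, u i ^ d i =
      ∑ d ∈ univ.image (expo : (Fin n → Fin (b + 1)) → _), coeff d g * ∏ i, u i ^ d i := by
    apply Finset.sum_subset
    · intro d hd
      rw [Finset.mem_image]
      refine ⟨fun k => ⟨d k, ?_⟩, mem_univ _, ?_⟩
      · have := hdeg.coeff d (mem_support_iff.1 hd) k
        omega
      · ext k; rfl
    · intro d _ hd
      rw [notMem_support_iff.1 hd, zero_mul]
  rw [h1, Finset.sum_image (fun _ _ _ _ h => expo_injective h)]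
  apply Finset.sum_congr rfl
  intro ι _
  rw [← smul_eq_C_mul, map_smul, lam'_prod_X hg, Finset.prod_mul_distrib, smul_eq_mul]
  have : ∏ k, (b.choose (ι k) : ℂ) ≠ 0 := Finset.prod_ne_zero_iff.2 fun k _ => choose_ne_zero' _
  simp only [expo_apply]
  field_simp

/-- The lower bound for ideals. -/
theorem exists_not_mem {a b j p n : ℕ} (ha : 1 ≤ a) (hj : 1 ≤ j) (hb : j + 2 * p ≤ b + 1)
    (hn : n + 1 = j * a + (a - 1) * p) :
    ∃ q : MvPolynomial (Fin (b + 1)) ℂ, q.IsHomogeneous n ∧
      q ∉ Ideal.span (Set.range fun u : Fin j → ℂ => ∏ c, ff b (u c) ^ a) := by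
  obtain ⟨g, hg1, hg2, hg3, hg4⟩ := lower ha hj hb hn
  by_contra hcon
  push Not at hcon
  apply hg4
  apply MvPolynomial.funext
  intro u
  rw [map_zero, ← lam'_prod_ff hg1 hg2]
  have hmem := hcon (∏ k, ff b (u k)) (by
    have h1 : (∏ k, ff b (u k)) ∈ homogeneousSubmodule (Fin (b + 1)) ℂ n := by
      rw [← span_prod_ff]; exact Submodule.subset_span ⟨u, rfl⟩
    exact h1)
  -- vanishing on the ideal
  have key : ∀ x ∈ Ideal.span (Set.range fun u : Fin j → ℂ => ∏ c, ff b (u c) ^ a),
      ∀ s, lam' g (s * x) = 0 := by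
    intro x hx
    induction hx using Submodule.span_induction with
    | mem x hx =>
      obtain ⟨v, rfl⟩ := hx
      intro s
      beta_reduce
      rw [← sum_homogeneousComponent s, Finset.sum_mul, map_sum]
      apply Finset.sum_eq_zero
      intro r _
      have hhom : (∏ c, ff b (v c) ^ a).IsHomogeneous (j * a) := by
        have := IsHomogeneous.prod (univ : Finset (Fin j)) (fun c => ff b (v c) ^ a)
          (fun _ => 1 * a) (fun c _ => (ff_isHomogeneous b (v c)).pow a)
        simpa using this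
      by_cases hr : r + j * a = n
      · have h1 : homogeneousComponent r s ∈
            Submodule.span ℂ (Set.range fun u : Fin r → ℂ => ∏ k, ff b (u k)) := by
          rw [span_prod_ff]; exact homogeneousComponent_isHomogeneous r s
        generalize homogeneousComponent r s = t0 at h1
        induction h1 using Submodule.span_induction with
        | mem t ht =>
          obtain ⟨w, rfl⟩ := ht
          beta_reduce
          -- reindex
          obtain ⟨e⟩ : Nonempty (Fin n ≃ Fin r ⊕ (Fin j × Fin a)) := by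
            rw [← Fintype.card_eq]
            simp [hr]
          set ψ : Fin n → Fin r ⊕ Fin j := fun k => Sum.map id Prod.fst (e k) with hψ
          have h2 : (∏ k, ff b (w k)) * ∏ c, ff b (v c) ^ a =
              ∏ k : Fin n, ff b ((Sum.elim w v) (ψ k)) := by
            rw [← Equiv.prod_comp e.symm (fun k : Fin n => ff b ((Sum.elim w v) (ψ k))),
              Fintype.prod_sum_type, Fintype.prod_prod_type]
            simp [hψ]
          rw [h2, lam'_prod_ff hg1 hg2]
          have h3 : eval (fun k => (Sum.elim w v) (ψ k)) g =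
              eval (Sum.elim w v) (rename ψ g) := by
            rw [eval_rename]; rfl
          rw [h3]
          have h4 : ClusType a j ψ := by
            refine ⟨univ.map ⟨Sum.inr, Sum.inr_injective⟩, by simp, ?_, ?_⟩
            · intro y hy
              rw [Finset.mem_map] at hy
              obtain ⟨c, -, rfl⟩ := hy
              have hinj : Function.Injective (fun t : Fin a => e.symm (Sum.inr (c, t))) := by
                intro t t' h
                have h' := e.symm.injective h
                simpa using h'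
              have h5 : univ.filter (fun k => ψ k = Sum.inr c) =
                  (univ : Finset (Fin a)).image (fun t => e.symm (Sum.inr (c, t))) := by
                ext k
                simp only [mem_filter, mem_univ, true_and, mem_image, hψ]
                constructor
                · intro h
                  rcases hk : e k with x | ⟨c', t⟩
                  · rw [hk] at h; simp at h
                  · rw [hk] at h
                    simp only [Sum.map_inr, Sum.inr.injEq] at h
                    subst h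
                    exact ⟨t, by rw [← hk, Equiv.symm_apply_apply]⟩
                · rintro ⟨t, rfl⟩
                  simp
              simp only [Function.Embedding.coeFn_mk]
              rw [fib, h5, Finset.card_image_of_injective _ hinj, Finset.card_univ,
                Fintype.card_fin]
            · intro y hy
              rcases y with x | c
              · rw [fib, Finset.card_le_one]
                intro k hk k' hk'
                simp only [mem_filter, mem_univ, true_and, hψ] at hk hk'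
                apply e.injective
                rcases h6 : e k with x1 | ⟨c1, t1⟩ <;> rcases h7 : e k' with x2 | ⟨c2, t2⟩ <;>
                  rw [h6] at hk <;> rw [h7] at hk' <;> simp at hk hk'
                rw [hk, hk']
              · exact absurd (Finset.mem_map.2 ⟨c, mem_univ _, rfl⟩) hy
          rw [hg3.rename_eq_zero h4, map_zero]
        | zero => rw [zero_mul, map_zero]
        | add x y _ _ hx hy => rw [add_mul, map_add, hx, hy, add_zero]
        | smul c x _ hx => rw [smul_mul_assoc, map_smul, hx, smul_zero]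
      · exact lam'_of_degree g hr ((homogeneousComponent_isHomogeneous r s).mul hhom)
    | zero => intro s; rw [mul_zero, map_zero]
    | add x y _ _ hx hy => intro s; rw [mul_add, map_add, hx, hy, add_zero]
    | smul c x _ hx => intro s; rw [smul_eq_mul, ← mul_assoc]; exact hx _
  have := key _ hmem 1
  rwa [one_mul] at this

end Pool.Agent.W_MP_13ae32_ag
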