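import Pool.Agent.W_MP_13ae32_ag.Defs
import Pool.Agent.W_MP_13ae32_ag.Bridge

/-!
The copy of `Sym^{ab} U` in `Sym^a (Sym^b U)`.
-/

open MvPolynomial Finset

set_option linter.unusedSectionVars false

namespace Pool.Agent.W_MP_13ae32_ag

/-- monomials in two variables -/
noncomputable def monX (d k : ℕ) : MvPolynomial (Fin 2) ℂ := X 0 ^ (d - k) * X 1 ^ k

theorem monX_eq (d k : ℕ) :
    monX d k = monomial (Finsupp.single 0 (d - k) + Finsupp.single 1 k) 1 := by
  rw [monX, X_pow_eq_monomial, X_pow_eq_monomial, monomial_mul, one_mul]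

theorem monX_isHomogeneous {d k : ℕ} (h : k ≤ d) : (monX d k).IsHomogeneous d := by
  rw [monX_eq]
  apply isHomogeneous_monomial
  rw [map_add, Finsupp.degree_single, Finsupp.degree_single]
  omega

theorem span_monX (d : ℕ) :
    Submodule.span ℂ (Set.range fun k : Fin (d + 1) => monX d k) =
      homogeneousSubmodule (Fin 2) ℂ d := by
  apply le_antisymm
  · rw [Submodule.span_le]
    rintro _ ⟨k, rfl⟩
    exact monX_isHomogeneous (by have := k.2; omega)
  · intro p hp
    rw [p.as_sum]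
    apply Submodule.sum_mem
    intro e he
    have h1 : e.degree = d := by
      by_contra hne
      exact (mem_support_iff.1 he) (IsHomogeneous.coeff_eq_zero hp hne)
    have h2 : e 0 + e 1 = d := by
      rw [← h1, Finsupp.degree_eq_sum, Fin.sum_univ_two]
    have he' : Finsupp.single 0 (d - e 1) + Finsupp.single 1 (e 1) = e := by
      ext i
      fin_cases i
      · simp; omega
      · simp
    have h3 : monomial e (coeff e p) = coeff e p • monX d (e 1) := by
      rw [monX_eq, smul_monomial, smul_eq_mul, mul_one, he']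
    rw [h3]
    apply Submodule.smul_mem
    exact Submodule.subset_span ⟨⟨e 1, by omega⟩, rfl⟩

/-- linear forms in two variables -/
noncomputable def lin2 (α β : ℂ) : MvPolynomial (Fin 2) ℂ := C α * X 0 + C β * X 1

theorem lin2_isHomogeneous (α β : ℂ) : (lin2 α β).IsHomogeneous 1 :=
  (isHomogeneous_C_mul_X _ _).add (isHomogeneous_C_mul_X _ _)

theorem lin2_pow (α β : ℂ) (d : ℕ) : lin2 α β ^ d =
    ∑ k ∈ range (d + 1), ((d.choose k : ℂ) * α ^ (d - k) * β ^ k) • monX d k := by
  rw [lin2, add_comm, add_pow]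
  apply Finset.sum_congr rfl
  intro k _
  rw [monX, smul_eq_C_mul, mul_pow, mul_pow, C_mul, C_mul, C_pow, C_pow]
  simp only [map_natCast]
  ring

theorem span_lin (d : ℕ) :
    Submodule.span ℂ (Set.range fun u : ℂ => lin2 1 u ^ d) =
      homogeneousSubmodule (Fin 2) ℂ d := by
  apply le_antisymm
  · rw [Submodule.span_le]
    rintro _ ⟨u, rfl⟩
    have := (lin2_isHomogeneous 1 u).pow d
    rwa [one_mul] at this
  · rw [← span_monX, Submodule.span_le]
    rintro _ ⟨k, rfl⟩
    set c : ℕ → MvPolynomial (Fin 2) ℂ := fun k => (d.choose k : ℂ) • monX d k with hc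
    have h1 : (fun u : ℂ => ∑ i ∈ range (d + 1), u ^ i • c i) = fun u => lin2 1 u ^ d := by
      funext u
      rw [lin2_pow]
      apply Finset.sum_congr rfl
      intro i _
      rw [hc, smul_smul, one_pow, mul_one, mul_comm]
    have h2 := coeff_mem_span_values (d + 1) c k k.2
    rw [h1] at h2
    have h3 : monX d k = ((d.choose k : ℂ))⁻¹ • c k := by
      rw [hc, smul_smul, inv_mul_cancel₀ (choose_ne_zero' k), one_smul]
    beta_reduce
    rw [SetLike.mem_coe, h3]
    exact Submodule.smul_mem _ _ h2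

theorem actU_X (g : Matrix.SpecialLinearGroup (Fin 2) ℂ) (i : Fin 2) :
    actU g (X i) = C (g.1 0 i) * X 0 + C (g.1 1 i) * X 1 := by
  rw [actU, aeval_X, Fin.sum_univ_two]

theorem actU_lin2 (g : Matrix.SpecialLinearGroup (Fin 2) ℂ) (α β : ℂ) :
    actU g (lin2 α β) =
      lin2 (g.1 0 0 * α + g.1 0 1 * β) (g.1 1 0 * α + g.1 1 1 * β) := by
  rw [lin2, map_add, map_mul, map_mul, actU_X, actU_X, lin2]
  simp only [algHom_C, algebraMap_eq, C_add, C_mul]
  ring

/-! ### the map `toLin` -/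

/-- `toLin` as a linear map -/
noncomputable def toLinL (b : ℕ) :
    MvPolynomial (Fin 2) ℂ →ₗ[ℂ] MvPolynomial (Fin (b + 1)) ℂ where
  toFun := toLin b
  map_add' p q := by
    simp only [toLin, coeff_add, C_add, add_mul, Finset.sum_add_distrib]
  map_smul' c p := by
    simp only [toLin, coeff_C_mul, C_mul, RingHom.id_apply, smul_eq_C_mul,
      Finset.mul_sum, mul_assoc]

theorem toLinL_apply (b : ℕ) (f : MvPolynomial (Fin 2) ℂ) : toLinL b f = toLin b f := rfl

theorem toLin_monX (b : ℕ) (i : Fin (b + 1)) : toLin b (monX b i) = X i := by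
  rw [toLin, Finset.sum_eq_single i]
  · rw [monX_eq, coeff_monomial, if_pos rfl, C_1, one_mul]
  · intro k _ hk
    rw [monX_eq, coeff_monomial, if_neg, C_0, zero_mul]
    intro h
    apply hk
    have := congrArg (fun e => e 1) h
    simp at this
    ext
    exact this.symm
  · intro h; exact absurd (mem_univ _) h

/-- the linear form attached to `(α x₁ + β x₂)^b` -/
noncomputable def ff2 (b : ℕ) (α β : ℂ) : MvPolynomial (Fin (b + 1)) ℂ :=
  ∑ i : Fin (b + 1), C ((b.choose i : ℂ) * α ^ (b - (i : ℕ)) * β ^ (i : ℕ)) * X i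

theorem toLin_lin2_pow (b : ℕ) (α β : ℂ) : toLin b (lin2 α β ^ b) = ff2 b α β := by
  rw [← toLinL_apply, lin2_pow, map_sum, ← Fin.sum_univ_eq_sum_range
    (fun k => toLinL b (((b.choose k : ℂ) * α ^ (b - k) * β ^ k) • monX b k)), ff2]
  apply Finset.sum_congr rfl
  intro i _
  rw [map_smul, toLinL_apply, toLin_monX, smul_eq_C_mul]

theorem ff2_one (b : ℕ) (u : ℂ) : ff2 b 1 u = ff b u := by
  rw [ff2, ff]
  apply Finset.sum_congr rfl
  intro i _
  rw [one_pow, mul_one]

theorem actS_X (b : ℕ) (g : Matrix.SpecialLinearGroup (Fin 2) ℂ) (i : Fin (b + 1)) :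
    actS b g (X i) = toLin b (actU g (monX b i)) := by
  rw [actS, aeval_X]; rfl

theorem actS_toLin (b : ℕ) (g : Matrix.SpecialLinearGroup (Fin 2) ℂ)
    {f : MvPolynomial (Fin 2) ℂ} (hf : f.IsHomogeneous b) :
    actS b g (toLin b f) = toLin b (actU g f) := by
  have h1 : f ∈ Submodule.span ℂ (Set.range fun k : Fin (b + 1) => monX b k) := by
    rw [span_monX]; exact hf
  have h2 : Submodule.span ℂ (Set.range fun k : Fin (b + 1) => monX b k) ≤
      LinearMap.eqLocus ((actS b g).toLinearMap ∘ₗ toLinL b)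
        (toLinL b ∘ₗ (actU g).toLinearMap) := by
    rw [Submodule.span_le]
    rintro _ ⟨k, rfl⟩
    simp only [SetLike.mem_coe, LinearMap.mem_eqLocus, LinearMap.comp_apply,
      AlgHom.toLinearMap_apply, toLinL_apply]
    rw [toLin_monX, actS_X]
  exact h2 h1

theorem actS_ff2 (b : ℕ) (g : Matrix.SpecialLinearGroup (Fin 2) ℂ) (α β : ℂ) :
    actS b g (ff2 b α β) =
      ff2 b (g.1 0 0 * α + g.1 0 1 * β) (g.1 1 0 * α + g.1 1 1 * β) := by
  rw [← toLin_lin2_pow, actS_toLin, map_pow, actU_lin2, toLin_lin2_pow]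
  have := (lin2_isHomogeneous α β).pow b
  rwa [one_mul] at this

/-! ### the coefficients of `f(u)^a` -/

/-- coefficient of `α^(ab-k) β^k` in the `a`-th power of `ff2 b α β` -/
noncomputable def cc (a b k : ℕ) : MvPolynomial (Fin (b + 1)) ℂ :=
  ∑ ι ∈ univ.filter (fun ι : Fin a → Fin (b + 1) => ∑ t, (ι t : ℕ) = k),
    ∏ t, (C (b.choose (ι t) : ℂ) * X (ι t))

theorem cc_isHomogeneous (a b k : ℕ) : (cc a b k).IsHomogeneous a := by
  apply IsHomogeneous.sum
  intro ι _
  have := IsHomogeneous.prod (univ : Finset (Fin a))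
    (fun t => C (b.choose (ι t) : ℂ) * X (ι t)) (fun _ => 1)
    (fun t _ => isHomogeneous_C_mul_X _ _)
  simpa using this

theorem ff2_pow (a b : ℕ) (α β : ℂ) : ff2 b α β ^ a =
    ∑ k ∈ range (a * b + 1), (α ^ (a * b - k) * β ^ k) • cc a b k := by
  have h1 : ff2 b α β ^ a = ∑ ι : Fin a → Fin (b + 1),
      (α ^ (a * b - ∑ t, (ι t : ℕ)) * β ^ (∑ t, (ι t : ℕ))) •
        ∏ t, (C (b.choose (ι t) : ℂ) * X (ι t)) := by
    have : ff2 b α β ^ a = ∏ _t : Fin a, ff2 b α β := by simp
    rw [this, ff2, Finset.prod_univ_sum, Fintype.piFinset_univ]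
    apply Finset.sum_congr rfl
    intro ι _
    have h2 : a * b - ∑ t, (ι t : ℕ) = ∑ t, (b - (ι t : ℕ)) := by
      have h3 : ∑ t : Fin a, (ι t : ℕ) + ∑ t, (b - (ι t : ℕ)) = a * b := by
        rw [← Finset.sum_add_distrib]
        have : ∀ t : Fin a, (ι t : ℕ) + (b - (ι t : ℕ)) = b := fun t => by
          have := (ι t).2; omega
        simp [this]
      omega
    rw [h2, ← Finset.prod_pow_eq_pow_sum, ← Finset.prod_pow_eq_pow_sum,
      ← Finset.prod_mul_distrib, smul_eq_C_mul, map_prod, ← Finset.prod_mul_distrib]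
    apply Finset.prod_congr rfl
    intro t _
    simp only [C_mul]
    ring
  rw [h1, ← Finset.sum_fiberwise_of_maps_to (s := univ) (t := range (a * b + 1))
    (g := fun ι : Fin a → Fin (b + 1) => ∑ t, (ι t : ℕ))]
  · apply Finset.sum_congr rfl
    intro k _
    rw [cc, Finset.smul_sum]
    apply Finset.sum_congr rfl
    intro ι hι
    simp only [mem_filter, mem_univ, true_and] at hι
    rw [hι]
  · intro ι _
    rw [Finset.mem_range]
    have : ∑ t : Fin a, (ι t : ℕ) ≤ ∑ _t : Fin a, b := Finset.sum_le_sum fun t _ => by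
      have := (ι t).2; omega
    simp at this
    omega

/-- the equivariant map -/
noncomputable def th (a b : ℕ) :
    MvPolynomial (Fin 2) ℂ →ₗ[ℂ] MvPolynomial (Fin (b + 1)) ℂ :=
  (basisMonomials (Fin 2) ℂ).constr ℂ fun e => ((((a * b).choose (e 1) : ℕ) : ℂ))⁻¹ • cc a b (e 1)

theorem th_monX (a b k : ℕ) :
    th a b (monX (a * b) k) = ((((a * b).choose k : ℕ) : ℂ))⁻¹ • cc a b k := by
  have := (basisMonomials (Fin 2) ℂ).constr_basis ℂ
    (fun e => ((((a * b).choose (e 1) : ℕ) : ℂ))⁻¹ • cc a b (e 1))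
    (Finsupp.single 0 (a * b - k) + Finsupp.single 1 k)
  rw [coe_basisMonomials] at this
  rw [monX_eq, th, this]
  simp

theorem th_lin2_pow (a b : ℕ) (α β : ℂ) : th a b (lin2 α β ^ (a * b)) = ff2 b α β ^ a := by
  rw [lin2_pow, map_sum, ff2_pow]
  apply Finset.sum_congr rfl
  intro k hk
  rw [map_smul, th_monX, smul_smul]
  congr 1
  have h : (((a * b).choose k : ℕ) : ℂ) ≠ 0 := by
    have : 0 < (a * b).choose k := Nat.choose_pos (by rw [Finset.mem_range] at hk; omega)
    exact_mod_cast this.ne'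
  field_simp

/-- the multiplication map -/
noncomputable def ver (b : ℕ) : MvPolynomial (Fin (b + 1)) ℂ →ₐ[ℂ] MvPolynomial (Fin 2) ℂ :=
  aeval fun i => monX b i

theorem ver_ff2 (b : ℕ) (α β : ℂ) : ver b (ff2 b α β) = lin2 α β ^ b := by
  rw [ff2, map_sum, lin2_pow, ← Fin.sum_univ_eq_sum_range
    (fun k => ((b.choose k : ℂ) * α ^ (b - k) * β ^ k) • monX b k)]
  apply Finset.sum_congr rfl
  intro i _
  rw [map_mul, algHom_C, algebraMap_eq, ver, aeval_X, smul_eq_C_mul]

theorem ver_th (a b : ℕ) {f : MvPolynomial (Fin 2) ℂ} (hf : f.IsHomogeneous (a * b)) :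
    ver b (th a b f) = f := by
  have h1 : f ∈ Submodule.span ℂ (Set.range fun u : ℂ => lin2 1 u ^ (a * b)) := by
    rw [span_lin]; exact hf
  have h2 : Submodule.span ℂ (Set.range fun u : ℂ => lin2 1 u ^ (a * b)) ≤
      LinearMap.eqLocus ((ver b).toLinearMap ∘ₗ th a b) LinearMap.id := by
    rw [Submodule.span_le]
    rintro _ ⟨u, rfl⟩
    simp only [SetLike.mem_coe, LinearMap.mem_eqLocus, LinearMap.comp_apply,
      AlgHom.toLinearMap_apply, LinearMap.id_apply]
    rw [th_lin2_pow, map_pow, ver_ff2, ← pow_mul, mul_comm b a]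
  exact h2 h1

theorem th_actU (a b : ℕ) (g : Matrix.SpecialLinearGroup (Fin 2) ℂ)
    {f : MvPolynomial (Fin 2) ℂ} (hf : f.IsHomogeneous (a * b)) :
    th a b (actU g f) = actS b g (th a b f) := by
  have h1 : f ∈ Submodule.span ℂ (Set.range fun u : ℂ => lin2 1 u ^ (a * b)) := by
    rw [span_lin]; exact hf
  have h2 : Submodule.span ℂ (Set.range fun u : ℂ => lin2 1 u ^ (a * b)) ≤
      LinearMap.eqLocus (th a b ∘ₗ (actU g).toLinearMap)
        ((actS b g).toLinearMap ∘ₗ th a b) := by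
    rw [Submodule.span_le]
    rintro _ ⟨u, rfl⟩
    simp only [SetLike.mem_coe, LinearMap.mem_eqLocus, LinearMap.comp_apply,
      AlgHom.toLinearMap_apply]
    rw [map_pow, actU_lin2, th_lin2_pow, th_lin2_pow, map_pow, actS_ff2]
  exact h2 h1

/-- the span of the powers `f(u)^a` -/
noncomputable def W0 (a b : ℕ) : Submodule ℂ (MvPolynomial (Fin (b + 1)) ℂ) :=
  Submodule.span ℂ (Set.range fun u : ℂ => ff b u ^ a)

theorem map_th (a b : ℕ) :
    (homogeneousSubmodule (Fin 2) ℂ (a * b)).map (th a b) = W0 a b := by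
  rw [← span_lin, Submodule.map_span, W0, ← Set.range_comp]
  congr 2
  funext u
  simp only [Function.comp_apply]
  rw [th_lin2_pow, ff2_one]

theorem isSymCopy_W0 (a b : ℕ) : IsSymCopy a b (W0 a b) := by
  refine ⟨?_, ?_⟩
  · rw [W0, Submodule.span_le]
    rintro _ ⟨u, rfl⟩
    have := (ff_isHomogeneous b u).pow a
    rwa [one_mul] at this
  · have hmem : ∀ f : homogeneousSubmodule (Fin 2) ℂ (a * b),
        (th a b).domRestrict (homogeneousSubmodule (Fin 2) ℂ (a * b)) f ∈ W0 a b := by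
      intro f
      rw [← map_th]
      exact ⟨f, f.2, rfl⟩
    set T : homogeneousSubmodule (Fin 2) ℂ (a * b) →ₗ[ℂ] W0 a b :=
      LinearMap.codRestrict (W0 a b)
        ((th a b).domRestrict (homogeneousSubmodule (Fin 2) ℂ (a * b))) hmem with hT
    have hTval : ∀ f, (T f : MvPolynomial (Fin (b + 1)) ℂ) = th a b f := fun f => rfl
    have hinj : Function.Injective T := by
      intro f f' h
      have h1 := congrArg Subtype.val h
      rw [hTval, hTval] at h1
      have h2 : ver b (th a b f) = f := ver_th a b f.2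
      have h3 : ver b (th a b f') = f' := ver_th a b f'.2
      ext1
      rw [← h2, ← h3, h1]
    have hsurj : Function.Surjective T := by
      rintro ⟨w, hw⟩
      rw [← map_th] at hw
      obtain ⟨f, hf, rfl⟩ := hw
      exact ⟨⟨f, hf⟩, rfl⟩
    have hbij : Function.Bijective T := ⟨hinj, hsurj⟩
    refine ⟨LinearEquiv.ofBijective T hbij, ?_⟩
    intro g f f' h
    rw [LinearEquiv.ofBijective_apply, LinearEquiv.ofBijective_apply, hTval, hTval, h]
    exact th_actU a b g f.2

/-! ### uniqueness -/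

/-- a torus element -/
noncomputable def tor : Matrix.SpecialLinearGroup (Fin 2) ℂ :=
  ⟨!![2, 0; 0, 1 / 2], by simp⟩

/-- a unipotent element -/
noncomputable def uni (u : ℂ) : Matrix.SpecialLinearGroup (Fin 2) ℂ :=
  ⟨!![1, 0; u, 1], by simp⟩

theorem actU_tor_monX (d k : ℕ) (hk : k ≤ d) :
    actU tor (monX d k) = ((2 : ℂ) ^ d * (1 / 4) ^ k) • monX d k := by
  have h0 : actU tor (X 0) = C 2 * X 0 := by
    rw [actU_X]; simp [tor]
  have h1 : actU tor (X 1) = C (1 / 2) * X 1 := by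
    rw [actU_X]; simp [tor]
  rw [monX, map_mul, map_pow, map_pow, h0, h1, mul_pow, mul_pow, smul_eq_C_mul, ← C_pow, ← C_pow]
  have h2 : (2 : ℂ) ^ d * (1 / 4) ^ k = 2 ^ (d - k) * (1 / 2) ^ k := by
    obtain ⟨c, rfl⟩ := Nat.exists_eq_add_of_le hk
    rw [Nat.add_sub_cancel_left, pow_add]
    have : (1 / 4 : ℂ) = (1 / 2) * (1 / 2) := by norm_num
    rw [this, mul_pow]
    have h3 : (2 : ℂ) ^ k * (1 / 2) ^ k = 1 := by rw [← mul_pow]; norm_num
    linear_combination (2 ^ c * (1 / 2) ^ k) * h3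
  rw [h2, C_mul]
  ring

theorem actS_tor_X (b : ℕ) (i : Fin (b + 1)) :
    actS b tor (X i) = C ((2 : ℂ) ^ b * (1 / 4) ^ (i : ℕ)) * X i := by
  rw [actS_X, actU_tor_monX b i (by have := i.2; omega), ← toLinL_apply, map_smul, toLinL_apply,
    toLin_monX, smul_eq_C_mul]

theorem actS_tor_monomial (b : ℕ) (μ : Fin (b + 1) →₀ ℕ) (c : ℂ) :
    actS b tor (monomial μ c) =
      monomial μ (c * ∏ i : Fin (b + 1), ((2 : ℂ) ^ b * (1 / 4) ^ (i : ℕ)) ^ μ i) := by
  rw [monomial_eq, map_mul, algHom_C, algebraMap_eq, Finsupp.prod_fintype _ _ (by simp),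
    map_prod, monomial_eq, Finsupp.prod_fintype _ _ (by simp), C_mul, mul_assoc, map_prod,
    ← Finset.prod_mul_distrib]
  congr 1
  apply Finset.prod_congr rfl
  intro i _
  rw [map_pow, actS_tor_X, mul_pow, C_pow]

theorem coeff_actS_tor (b : ℕ) (μ : Fin (b + 1) →₀ ℕ) (p : MvPolynomial (Fin (b + 1)) ℂ) :
    coeff μ (actS b tor p) =
      coeff μ p * ∏ i : Fin (b + 1), ((2 : ℂ) ^ b * (1 / 4) ^ (i : ℕ)) ^ μ i := by
  classical
  conv_lhs => rw [p.as_sum, map_sum, coeff_sum]
  simp only [actS_tor_monomial, coeff_monomial]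
  rw [Finset.sum_ite_eq' p.support μ]
  split_ifs with h
  · rfl
  · rw [notMem_support_iff.1 h, zero_mul]

/-- a vector of the highest weight is a multiple of `z_0^a`. -/
theorem highest (a b : ℕ) {p : MvPolynomial (Fin (b + 1)) ℂ} (hp : p.IsHomogeneous a)
    (h : actS b tor p = ((2 : ℂ) ^ (a * b)) • p) : ∃ c : ℂ, p = C c * X 0 ^ a := by
  refine ⟨coeff (Finsupp.single 0 a) p, ?_⟩
  ext μ
  rw [coeff_C_mul, X_pow_eq_monomial, coeff_monomial]
  by_cases hμ : Finsupp.single 0 a = μ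
  · rw [if_pos hμ, mul_one, hμ]
  · rw [if_neg hμ, mul_zero]
    by_contra hne
    have hdeg : μ.degree = a := by
      by_contra hd; exact hne (hp.coeff_eq_zero hd)
    have h1 := congrArg (coeff μ) h
    rw [coeff_actS_tor, coeff_smul, smul_eq_mul, mul_comm] at h1
    have h2 := mul_right_cancel₀ hne h1
    have h3 : ∏ i : Fin (b + 1), ((2 : ℂ) ^ b * (1 / 4) ^ (i : ℕ)) ^ μ i =
        2 ^ (a * b) * (1 / 4) ^ (∑ i : Fin (b + 1), (i : ℕ) * μ i) := by
      simp only [mul_pow, Finset.prod_mul_distrib, ← pow_mul]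
      rw [Finset.prod_pow_eq_pow_sum, Finset.prod_pow_eq_pow_sum]
      congr 2
      rw [← Finset.mul_sum, ← Finsupp.degree_eq_sum, hdeg, mul_comm]
    rw [h3] at h2
    have h4 : (1 / 4 : ℂ) ^ (∑ i : Fin (b + 1), (i : ℕ) * μ i) = 1 := by
      have h5 : (2 : ℂ) ^ (a * b) ≠ 0 := pow_ne_zero _ two_ne_zero
      apply mul_left_cancel₀ h5
      rw [h2, mul_one]
    have h6 : ∑ i : Fin (b + 1), (i : ℕ) * μ i = 0 := by
      by_contra h7
      have h8 := congrArg (fun z : ℂ => ‖z‖) h4
      simp only [norm_pow, norm_one] at h8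
      have h9 : ‖(1 / 4 : ℂ)‖ < 1 := by
        rw [norm_div, norm_one]; norm_num
      have h10 := pow_lt_one₀ (norm_nonneg _) h9 h7
      linarith
    apply hμ
    ext i
    by_cases hi : i = 0
    · subst hi
      rw [Finsupp.single_eq_same]
      rw [Finsupp.degree_eq_sum, Fin.sum_univ_succ] at hdeg
      have : ∀ i : Fin b, μ i.succ = 0 := by
        intro i
        have h7 := (Finset.sum_eq_zero_iff.1 h6) i.succ (mem_univ _)
        simpa using h7
      simp only [this, Finset.sum_const_zero, add_zero] at hdeg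
      exact hdeg.symm
    · rw [Finsupp.single_eq_of_ne hi]
      have h7 := (Finset.sum_eq_zero_iff.1 h6) i (mem_univ _)
      have h8 : (i : ℕ) ≠ 0 := fun h => hi (Fin.ext h)
      rcases Nat.mul_eq_zero.1 h7 with h9 | h9
      · exact absurd h9 h8
      · exact h9.symm

theorem isSymCopy_unique (a b : ℕ) (W : Submodule ℂ (MvPolynomial (Fin (b + 1)) ℂ))
    (hW : IsSymCopy a b W) : W = W0 a b := by
  obtain ⟨hWa, θ, hθ⟩ := hW
  have hmon : ∀ k, k ≤ a * b → monX (a * b) k ∈ homogeneousSubmodule (Fin 2) ℂ (a * b) :=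
    fun k hk => monX_isHomogeneous hk
  have hlin : ∀ α β, lin2 α β ^ (a * b) ∈ homogeneousSubmodule (Fin 2) ℂ (a * b) := by
    intro α β
    have := (lin2_isHomogeneous α β).pow (a * b)
    rwa [one_mul] at this
  set w := θ ⟨monX (a * b) 0, hmon 0 (Nat.zero_le _)⟩ with hw
  have h1 := hθ tor ⟨monX (a * b) 0, hmon 0 (Nat.zero_le _)⟩
    ((2 : ℂ) ^ (a * b) • ⟨monX (a * b) 0, hmon 0 (Nat.zero_le _)⟩) (by
      simp only [Submodule.coe_smul]
      rw [actU_tor_monX _ _ (Nat.zero_le _)]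
      simp)
  rw [map_smul, ← hw, Submodule.coe_smul] at h1
  obtain ⟨c, hc⟩ := highest a b (hWa w.2) h1.symm
  have hc0 : c ≠ 0 := by
    rintro rfl
    rw [C_0, zero_mul] at hc
    have h2 : w = 0 := Subtype.ext hc
    rw [hw, LinearEquiv.map_eq_zero_iff] at h2
    have h3 := congrArg (fun f : homogeneousSubmodule (Fin 2) ℂ (a * b) =>
      (f : MvPolynomial (Fin 2) ℂ)) h2
    simp only [ZeroMemClass.coe_zero, monX_eq, monomial_eq_zero, one_ne_zero] at h3
  have hX : ff2 b 1 0 = X 0 := by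
    have := toLin_lin2_pow b 1 0
    rw [← this]
    have h5 : lin2 1 0 ^ b = monX b ((0 : Fin (b + 1)) : ℕ) := by simp [lin2, monX]
    rw [h5, toLin_monX]
  have hval : ∀ u, (θ ⟨lin2 1 u ^ (a * b), hlin 1 u⟩ : MvPolynomial (Fin (b + 1)) ℂ) =
      c • (ff b u ^ a) := by
    intro u
    have h2 := hθ (uni u) ⟨monX (a * b) 0, hmon 0 (Nat.zero_le _)⟩
      ⟨lin2 1 u ^ (a * b), hlin 1 u⟩ (by
        have h5 : monX (a * b) 0 = lin2 1 0 ^ (a * b) := by simp [lin2, monX]
        simp only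
        rw [h5, map_pow, actU_lin2]
        simp [uni])
    rw [h2, ← hw, hc, map_mul, map_pow, ← hX, actS_ff2, algHom_C, algebraMap_eq, smul_eq_C_mul,
      ← ff2_one]
    simp [uni]
  -- the images of the powers span
  have hspan : W = Submodule.map ((W.subtype).comp θ.toLinearMap)
      (Submodule.span ℂ (Set.range fun u : ℂ =>
        (⟨lin2 1 u ^ (a * b), hlin 1 u⟩ : homogeneousSubmodule (Fin 2) ℂ (a * b)))) := by
    have htop : Submodule.span ℂ (Set.range fun u : ℂ =>
        (⟨lin2 1 u ^ (a * b), hlin 1 u⟩ : homogeneousSubmodule (Fin 2) ℂ (a * b))) = ⊤ := by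
      apply Submodule.map_injective_of_injective
        (Submodule.subtype_injective (homogeneousSubmodule (Fin 2) ℂ (a * b)))
      rw [Submodule.map_span, ← Set.range_comp, Submodule.map_subtype_top]
      exact span_lin (a * b)
    rw [htop, Submodule.map_comp, Submodule.map_top, LinearEquiv.range, Submodule.map_subtype_top]
  rw [hspan, Submodule.map_span, ← Set.range_comp, W0]
  apply le_antisymm
  · rw [Submodule.span_le]
    rintro _ ⟨u, rfl⟩
    simp only [Function.comp_apply, LinearMap.comp_apply, Submodule.subtype_apply,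
      LinearEquiv.coe_coe]
    rw [SetLike.mem_coe, hval]
    exact Submodule.smul_mem _ _ (Submodule.subset_span ⟨u, rfl⟩)
  · rw [Submodule.span_le]
    rintro _ ⟨u, rfl⟩
    have h5 : ff b u ^ a = c⁻¹ • (c • (ff b u ^ a)) := by
      rw [smul_smul, inv_mul_cancel₀ hc0, one_smul]
    beta_reduce
    rw [SetLike.mem_coe, h5]
    apply Submodule.smul_mem
    rw [← hval]
    exact Submodule.subset_span ⟨u, rfl⟩

end Pool.Agent.W_MP_13ae32_ag
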