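import Mathlib

/-!
Divided differences and Dunkl-type operators on families of polynomials.
-/

open MvPolynomial Finset

set_option linter.unusedSectionVars false

namespace Pool.Agent.W_MP_13ae32_ag

section dd

variable {ι : Type*} [DecidableEq ι]

theorem sub_swap_dvd (i k : ι) (p : MvPolynomial ι ℂ) :
    (X i - X k) ∣ p - rename (Equiv.swap i k) p := by
  rw [← Ideal.mem_span_singleton, ← Ideal.Quotient.eq]
  set I : Ideal (MvPolynomial ι ℂ) := Ideal.span {X i - X k}
  have hik : Ideal.Quotient.mk I (X i) = Ideal.Quotient.mk I (X k) :=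
    Ideal.Quotient.eq.2 (Ideal.subset_span rfl)
  have h : (Ideal.Quotient.mkₐ ℂ I) = (Ideal.Quotient.mkₐ ℂ I).comp
      (rename (Equiv.swap i k)) := by
    apply MvPolynomial.algHom_ext
    intro j
    simp only [AlgHom.comp_apply, rename_X, Ideal.Quotient.mkₐ_eq_mk]
    by_cases h1 : j = i
    · subst h1; simp [hik]
    · by_cases h2 : j = k
      · subst h2; simp [hik]
      · rw [Equiv.swap_apply_of_ne_of_ne h1 h2]
  exact congrArg (fun f : MvPolynomial ι ℂ →ₐ[ℂ] _ => f p) h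

/-- divided difference -/
noncomputable def dd (i k : ι) (p : MvPolynomial ι ℂ) : MvPolynomial ι ℂ :=
  Classical.choose (sub_swap_dvd i k p)

theorem dd_spec (i k : ι) (p : MvPolynomial ι ℂ) :
    (X i - X k) * dd i k p = p - rename (Equiv.swap i k) p :=
  (Classical.choose_spec (sub_swap_dvd i k p)).symm

theorem X_sub_X_ne_zero {i k : ι} (h : i ≠ k) :
    (X i - X k : MvPolynomial ι ℂ) ≠ 0 := by
  intro h0
  have := sub_eq_zero.1 h0
  exact h (X_injective this)

theorem cancel {i k : ι} (h : i ≠ k) {p q : MvPolynomial ι ℂ}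
    (hpq : (X i - X k) * p = (X i - X k) * q) : p = q :=
  mul_left_cancel₀ (X_sub_X_ne_zero h) hpq

end dd

section fam

variable {ι : Type*} [DecidableEq ι] [Fintype ι]

/-- equivariant families -/
def Equivar (f : ι → MvPolynomial ι ℂ) : Prop :=
  ∀ (σ : Equiv.Perm ι) (i : ι), rename σ (f i) = f (σ i)

/-- Relation: `h'` is obtained from `h` by the Dunkl-type operator with coefficients `κ`, `m`. -/
def IsD (κ m : ι → ℂ) (h h' : ι → MvPolynomial ι ℂ) : Prop :=
  ∃ Q : ι → ι → MvPolynomial ι ℂ,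
    (∀ l l', (X l - X l') * Q l l' = h l - h l') ∧
    ∀ l, h' l = C (κ l) * pderiv l (h l) - ∑ l' ∈ univ.erase l, C (m l') * Q l l'

theorem IsD.unique {κ m : ι → ℂ} {h h₁ h₂ : ι → MvPolynomial ι ℂ}
    (H₁ : IsD κ m h h₁) (H₂ : IsD κ m h h₂) : h₁ = h₂ := by
  obtain ⟨Q, hQ, hh⟩ := H₁
  obtain ⟨R, hR, hr⟩ := H₂
  funext l
  rw [hh l, hr l]
  congr 1
  apply Finset.sum_congr rfl
  intro l' hl'
  have hne : l ≠ l' := (Finset.ne_of_mem_erase hl').symm
  rw [cancel hne ((hQ l l').trans (hR l l').symm)]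

theorem IsD.add {κ m : ι → ℂ} {h₁ h₂ k₁ k₂ : ι → MvPolynomial ι ℂ}
    (H : IsD κ m h₁ h₂) (K : IsD κ m k₁ k₂) : IsD κ m (h₁ + k₁) (h₂ + k₂) := by
  obtain ⟨Q, hQ, hh⟩ := H
  obtain ⟨R, hR, hr⟩ := K
  refine ⟨fun l l' => Q l l' + R l l', ?_, ?_⟩
  · intro l l'
    rw [mul_add, hQ, hR]; simp only [Pi.add_apply]; ring
  · intro l
    simp only [Pi.add_apply, hh l, hr l, map_add, mul_add, Finset.sum_add_distrib]
    ring

theorem IsD.smul {κ m : ι → ℂ} {h₁ h₂ : ι → MvPolynomial ι ℂ} (c : ℂ)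
    (H : IsD κ m h₁ h₂) : IsD κ m (fun l => C c * h₁ l) (fun l => C c * h₂ l) := by
  obtain ⟨Q, hQ, hh⟩ := H
  refine ⟨fun l l' => C c * Q l l', ?_, ?_⟩
  · intro l l'
    have := hQ l l'
    rw [mul_left_comm, this]; ring
  · intro l
    beta_reduce
    rw [hh l, mul_sub, Finset.mul_sum, pderiv_C_mul]
    congr 1
    · ring
    · exact Finset.sum_congr rfl fun _ _ => by ring

theorem IsD.sub {κ m : ι → ℂ} {h₁ h₂ k₁ k₂ : ι → MvPolynomial ι ℂ}
    (H : IsD κ m h₁ h₂) (K : IsD κ m k₁ k₂) : IsD κ m (h₁ - k₁) (h₂ - k₂) := by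
  have := H.add (K.smul (-1))
  convert this using 1
  · funext l; simp [sub_eq_add_neg]
  · funext l; simp [sub_eq_add_neg]

theorem IsD.zero (κ m : ι → ℂ) : IsD κ m (0 : ι → MvPolynomial ι ℂ) 0 :=
  ⟨fun _ _ => 0, by simp, by simp⟩

/-- constant family -/
theorem IsD.const (κ m : ι → ℂ) (g : MvPolynomial ι ℂ) :
    IsD κ m (fun _ => g) (fun l => C (κ l) * pderiv l g) :=
  ⟨fun _ _ => 0, by simp, by simp⟩

theorem pderiv_rename_equiv (σ : Equiv.Perm ι) (i : ι) (p : MvPolynomial ι ℂ) :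
    pderiv (σ i) (rename σ p) = rename σ (pderiv i p) :=
  pderiv_rename σ.injective i p

theorem IsD.rename {κ m : ℂ} {h h' : ι → MvPolynomial ι ℂ} (σ : Equiv.Perm ι)
    (H : IsD (fun _ => κ) (fun _ => m) h h') :
    IsD (fun _ => κ) (fun _ => m) (fun l => MvPolynomial.rename σ (h (σ.symm l)))
      (fun l => MvPolynomial.rename σ (h' (σ.symm l))) := by
  obtain ⟨Q, hQ, hh⟩ := H
  refine ⟨fun l l' => MvPolynomial.rename σ (Q (σ.symm l) (σ.symm l')), ?_, ?_⟩
  · intro l l'
    have := congrArg (MvPolynomial.rename σ) (hQ (σ.symm l) (σ.symm l'))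
    simpa using this
  · intro l
    have := congrArg (MvPolynomial.rename σ) (hh (σ.symm l))
    beta_reduce at this ⊢
    rw [this, map_sub, map_mul, map_sum, ← pderiv_rename_equiv]
    simp only [Equiv.apply_symm_apply, algHom_C, algebraMap_eq, map_mul]
    congr 1
    refine Finset.sum_bij' (fun a _ => σ a) (fun a _ => σ.symm a) ?_ ?_ ?_ ?_ ?_
    · intro a ha
      simp only [mem_erase, mem_univ, and_true] at ha ⊢
      intro h; apply ha; rw [← h]; simp
    · intro a ha
      simp only [mem_erase, mem_univ, and_true] at ha ⊢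
      intro h; apply ha; simpa using congrArg σ h
    · simp
    · simp
    · simp

theorem Equivar.isD {κ m : ℂ} {h h' : ι → MvPolynomial ι ℂ} (hh : Equivar h)
    (H : IsD (fun _ => κ) (fun _ => m) h h') : Equivar h' := by
  intro σ i
  have h1 := H.rename σ
  have h2 : (fun l => MvPolynomial.rename σ (h (σ.symm l))) = h := by
    funext l; rw [hh σ]; simp
  rw [h2] at h1
  have := congrFun (h1.unique H) (σ i)
  simpa using this

/-- The Dunkl-type operator on families. -/
noncomputable def Dun (κ m : ℂ) (f : ι → MvPolynomial ι ℂ) (i : ι) : MvPolynomial ι ℂ :=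
  C κ * pderiv i (f i) - ∑ k ∈ univ.erase i, C m * dd i k (f i)

theorem Equivar.swap {f : ι → MvPolynomial ι ℂ} (hf : Equivar f) (i k : ι) :
    MvPolynomial.rename (Equiv.swap i k) (f i) = f k := by
  rw [hf]; simp

theorem Equivar.dd {f : ι → MvPolynomial ι ℂ} (hf : Equivar f) (i k : ι) :
    (X i - X k) * dd i k (f i) = f i - f k := by
  rw [dd_spec, hf.swap]

theorem Equivar.isD_Dun {f : ι → MvPolynomial ι ℂ} (hf : Equivar f) (κ m : ℂ) :
    IsD (fun _ => κ) (fun _ => m) f (Dun κ m f) :=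
  ⟨fun i k => W_MP_13ae32_ag.dd i k (f i), fun i k => hf.dd i k, fun _ => rfl⟩

theorem Equivar.Dun {f : ι → MvPolynomial ι ℂ} (hf : Equivar f) (κ m : ℂ) :
    Equivar (Dun κ m f) := hf.isD (hf.isD_Dun κ m)

theorem Equivar.mulX {f : ι → MvPolynomial ι ℂ} (hf : Equivar f) :
    Equivar (fun i => X i * f i) := by
  intro σ i
  simp [hf σ i]

/-- commutation relation -/
theorem IsD.mulX {κ m : ℂ} {h h' : ι → MvPolynomial ι ℂ}
    (H : IsD (fun _ => κ) (fun _ => m) h h') :
    IsD (fun _ => κ) (fun _ => m) (fun l => X l * h l)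
      (fun l => X l * h' l + C (κ + m) * h l - C m * ∑ i, h i) := by
  obtain ⟨Q, hQ, hh⟩ := H
  refine ⟨fun l l' => X l * Q l l' + h l', ?_, ?_⟩
  · intro l l'
    have := hQ l l'
    linear_combination (X l) * this
  · intro l
    beta_reduce
    rw [hh l, Derivation.leibniz]
    simp only [smul_eq_mul, pderiv_X_self, mul_one, mul_add, Finset.sum_add_distrib, map_add]
    have h1 : ∑ l' ∈ univ.erase l, C m * (X l * Q l l') =
        X l * ∑ l' ∈ univ.erase l, C m * Q l l' := by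
      rw [Finset.mul_sum]; exact Finset.sum_congr rfl fun _ _ => by ring
    have h2 : ∑ l' ∈ univ.erase l, C m * h l' = C m * ∑ i, h i - C m * h l := by
      rw [← Finset.mul_sum, ← Finset.add_sum_erase univ h (mem_univ l)]; ring
    rw [h1, h2]
    ring

end fam

end Pool.Agent.W_MP_13ae32_ag
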