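import Mathlib

/-!
The counting argument.
-/

open Finset

set_option linter.unusedSectionVars false

namespace Pool.Agent.W_MP_13ae32_ag

theorem comb_step {n M a : ℕ} (ha : 2 ≤ a) (x : Fin n → ℤ) (x' m' : Fin M → ℤ)
    (hm' : ∀ l, m' l = 1 ∨ m' l = a)
    (hid : ∀ z : ℤ, (univ.filter (fun l => x l - 1 = z)).card +
      (univ.filter (fun l => x' l = z)).card =
      (univ.filter (fun l => x l = z)).card + (univ.filter (fun l => x' l - m' l = z)).card)
    (z : ℤ) :
    (univ.filter (fun l => x l = z + 1)).card +
      (univ.filter (fun l => z ≤ x' l ∧ x' l < z + m' l)).card =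
    (univ.filter (fun l => x l = z)).card +
      (univ.filter (fun l => z + 1 ≤ x' l ∧ x' l < z + 1 + m' l)).card := by
  have h1 := hid z
  have h2 : (univ.filter (fun l => x l - 1 = z)) = univ.filter (fun l => x l = z + 1) := by
    ext l; simp only [mem_filter, mem_univ, true_and]; omega
  rw [h2] at h1
  -- both sets are obtained by adding one element at each end
  have h3 : (univ.filter (fun l => z ≤ x' l ∧ x' l < z + m' l)).card +
      (univ.filter (fun l => x' l - m' l = z)).card =
      (univ.filter (fun l => z ≤ x' l ∧ x' l ≤ z + m' l)).card := by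
    rw [← Finset.card_union_of_disjoint]
    · congr 1
      ext l
      have := hm' l
      simp only [mem_union, mem_filter, mem_univ, true_and]
      omega
    · rw [Finset.disjoint_left]
      intro l hl hl'
      simp only [mem_filter, mem_univ, true_and] at hl hl'
      omega
  have h4 : (univ.filter (fun l => z + 1 ≤ x' l ∧ x' l < z + 1 + m' l)).card +
      (univ.filter (fun l => x' l = z)).card =
      (univ.filter (fun l => z ≤ x' l ∧ x' l ≤ z + m' l)).card := by
    rw [← Finset.card_union_of_disjoint]
    · congr 1
      ext l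
      have := hm' l
      simp only [mem_union, mem_filter, mem_univ, true_and]
      omega
    · rw [Finset.disjoint_left]
      intro l hl hl'
      simp only [mem_filter, mem_univ, true_and] at hl hl'
      omega
  omega

theorem comb_eq {n M a : ℕ} (ha : 2 ≤ a) (x : Fin n → ℤ) (x' m' : Fin M → ℤ)
    (hm' : ∀ l, m' l = 1 ∨ m' l = a)
    (hid : ∀ z : ℤ, (univ.filter (fun l => x l - 1 = z)).card +
      (univ.filter (fun l => x' l = z)).card =
      (univ.filter (fun l => x l = z)).card + (univ.filter (fun l => x' l - m' l = z)).card)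
    (z : ℤ) :
    (univ.filter (fun l => x l = z)).card =
      (univ.filter (fun l => z ≤ x' l ∧ x' l < z + m' l)).card := by
  set L : ℤ := ∑ l, |x l| + ∑ l, |x' l| with hL
  have hx : ∀ l, x l ≤ L := by
    intro l
    have h1 : |x l| ≤ ∑ l, |x l| :=
      Finset.single_le_sum (f := fun l => |x l|) (fun i _ => abs_nonneg _) (mem_univ l)
    have h2 : 0 ≤ ∑ l, |x' l| := Finset.sum_nonneg fun i _ => abs_nonneg _
    have h3 := le_abs_self (x l)
    omega
  have hx' : ∀ l, x' l ≤ L := by
    intro l
    have h1 : |x' l| ≤ ∑ l, |x' l| :=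
      Finset.single_le_sum (f := fun l => |x' l|) (fun i _ => abs_nonneg _) (mem_univ l)
    have h2 : 0 ≤ ∑ l, |x l| := Finset.sum_nonneg fun i _ => abs_nonneg _
    have h3 := le_abs_self (x' l)
    omega
  have key : ∀ k : ℕ, ∀ z : ℤ, L + 1 ≤ z + k →
      (univ.filter (fun l => x l = z)).card =
      (univ.filter (fun l => z ≤ x' l ∧ x' l < z + m' l)).card := by
    intro k
    induction k with
    | zero =>
      intro z hz
      rw [Finset.filter_false_of_mem, Finset.filter_false_of_mem]
      · simp
      · intro l _; have := hx' l; omega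
      · intro l _; have := hx l; omega
    | succ k ih =>
      intro z hz
      have h1 := ih (z + 1) (by push_cast at hz; omega)
      have h2 := comb_step ha x x' m' hm' hid z
      omega
  exact key (L + 1 - z).toNat z (by omega)

theorem comb_contra {n M a j : ℕ} (ha : 2 ≤ a) (x : Fin n → ℤ) (x' m' : Fin M → ℤ)
    (hm' : ∀ l, m' l = 1 ∨ m' l = a)
    (hid : ∀ z : ℤ, (univ.filter (fun l => x l - 1 = z)).card +
      (univ.filter (fun l => x' l = z)).card =
      (univ.filter (fun l => x l = z)).card + (univ.filter (fun l => x' l - m' l = z)).card)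
    (hx1 : ∀ l, 1 ≤ x l → x l % (a + 1) ≠ 1 ∧ x l % (a + 1) ≠ 2)
    (hx2 : (univ.filter (fun l => x l ≤ 0)).card < j * a)
    (hC : j ≤ (univ.filter (fun l => m' l = a)).card) : False := by
  have heq := comb_eq ha x x' m' hm' hid
  have hno : ∀ z : ℤ, 1 ≤ z → (z % (a + 1) = 1 ∨ z % (a + 1) = 2) →
      ∀ l, ¬ (z ≤ x' l ∧ x' l < z + m' l) := by
    intro z hz hz' l hl
    have h1 : (univ.filter (fun l => x l = z)).card = 0 := by
      rw [Finset.card_eq_zero, Finset.filter_eq_empty_iff]
      intro l' _ h
      have := hx1 l' (by omega)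
      rw [h] at this
      tauto
    rw [heq z, Finset.card_eq_zero, Finset.filter_eq_empty_iff] at h1
    exact h1 (mem_univ l) hl
  -- cluster labels are nonpositive
  have hneg : ∀ l, m' l = a → x' l ≤ 0 := by
    intro l hl
    by_contra hpos
    push Not at hpos
    by_cases hlt : x' l < a
    · refine hno 1 le_rfl (Or.inl ?_) l ⟨by omega, by omega⟩
      rw [Int.emod_eq_of_lt] <;> omega
    · push Not at hlt
      set r := x' l % (a + 1) with hr
      have hr0 : 0 ≤ r := Int.emod_nonneg _ (by omega)
      have hr1 : r < a + 1 := Int.emod_lt_of_pos _ (by omega)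
      have hdiv := Int.emod_add_mul_ediv (x' l) (a + 1)
      set Q := x' l / (a + 1) with hQ
      -- choose the representative
      have hmod : ∀ c : ℤ, 0 ≤ c → c < a + 1 → ∀ t : ℤ, (c + (a + 1) * t) % (a + 1) = c := by
        intro c hc1 hc2 t
        rw [Int.add_mul_emod_self_left, Int.emod_eq_of_lt hc1 hc2]
      by_cases hr1' : r = 0
      · -- take z ≡ 2
        refine hno (x' l - (a - 1)) (by omega) (Or.inr ?_) l ⟨by omega, by omega⟩
        have : x' l - (a - 1) = 2 + (a + 1) * (Q - 1) := by
          rw [← hdiv, ← hr, hr1']; ring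
        rw [this]
        exact hmod 2 (by norm_num) (by omega) _
      · -- take z ≡ 1, z = x' - (r - 1)
        have hcase : r - 1 < a := by omega
        refine hno (x' l - (r - 1)) (by omega) (Or.inl ?_) l ⟨by omega, by omega⟩
        have : x' l - (r - 1) = 1 + (a + 1) * Q := by
          rw [← hdiv, ← hr]; ring
        rw [this]
        exact hmod 1 (by norm_num) (by omega) _
  -- counting
  set L : ℤ := ∑ l, |x' l| + a with hL
  have hx' : ∀ l, -L ≤ x' l - a + 1 := by
    intro l
    have h1 : |x' l| ≤ ∑ l, |x' l| :=
      Finset.single_le_sum (f := fun l => |x' l|) (fun i _ => abs_nonneg _) (mem_univ l)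
    have h3 := neg_abs_le (x' l)
    omega
  have h1 : ∑ z ∈ Finset.Icc (-L) 0, (univ.filter (fun l => x l = z)).card ≤
      (univ.filter (fun l => x l ≤ 0)).card := by
    rw [← Finset.card_biUnion]
    · apply Finset.card_le_card
      intro l hl
      simp only [mem_biUnion, mem_filter, mem_univ, true_and, mem_Icc] at hl ⊢
      obtain ⟨z, hz, rfl⟩ := hl
      exact hz.2
    · intro z _ z' _ hzz
      rw [Function.onFun, Finset.disjoint_left]
      intro l hl hl'
      simp only [mem_filter, mem_univ, true_and] at hl hl'
      exact hzz (hl.symm.trans hl')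
  have h2 : j * a ≤ ∑ z ∈ Finset.Icc (-L) 0,
      (univ.filter (fun l => z ≤ x' l ∧ x' l < z + m' l)).card := by
    have h3 : ∑ z ∈ Finset.Icc (-L) 0,
        (univ.filter (fun l => z ≤ x' l ∧ x' l < z + m' l)).card =
        ∑ l, ((Finset.Icc (-L) 0).filter (fun z => z ≤ x' l ∧ x' l < z + m' l)).card := by
      simp only [Finset.card_filter]
      rw [Finset.sum_comm]
    rw [h3]
    calc j * a ≤ (univ.filter (fun l => m' l = a)).card * a := Nat.mul_le_mul_right _ hC
      _ = ∑ l ∈ univ.filter (fun l => m' l = a), a := by rw [Finset.sum_const, smul_eq_mul]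
      _ ≤ ∑ l ∈ univ.filter (fun l => m' l = a),
          ((Finset.Icc (-L) 0).filter (fun z => z ≤ x' l ∧ x' l < z + m' l)).card := by
          apply Finset.sum_le_sum
          intro l hl
          simp only [mem_filter, mem_univ, true_and] at hl
          have h4 : (Finset.Icc (x' l - a + 1) (x' l)).card = a := by
            rw [Int.card_Icc]; omega
          calc a = (Finset.Icc (x' l - a + 1) (x' l)).card := h4.symm
            _ ≤ _ := by
              apply Finset.card_le_card
              intro z hz
              have h5 := hx' l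
              have h6 := hneg l hl
              simp only [mem_Icc, mem_filter] at hz ⊢
              omega
      _ ≤ _ := Finset.sum_le_sum_of_subset (Finset.filter_subset _ _)
  have h3 : ∑ z ∈ Finset.Icc (-L) 0, (univ.filter (fun l => x l = z)).card =
      ∑ z ∈ Finset.Icc (-L) 0,
      (univ.filter (fun l => z ≤ x' l ∧ x' l < z + m' l)).card :=
    Finset.sum_congr rfl fun z _ => heq z
  omega

end Pool.Agent.W_MP_13ae32_ag
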