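import Mathlib

/-!
Definitions for the regularity of the powers of the ideal generated by the copy of
`Sym^{ab} U` in `Sym^a (Sym^b U)`.
-/

open MvPolynomial Finset

namespace Pool.Agent.W_MP_13ae32_ag

/-! ### The representations -/

/-- The action of `g ∈ SL₂(ℂ)` on `Sym U = ℂ[x₁, x₂]`, where `x₁ = X 0`, `x₂ = X 1`:
the algebra map with `x_i ↦ ∑ k, g k i x_k` (the natural action on `U = ℂ x₁ ⊕ ℂ x₂`). -/
noncomputable def actU (g : Matrix.SpecialLinearGroup (Fin 2) ℂ) :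
    MvPolynomial (Fin 2) ℂ →ₐ[ℂ] MvPolynomial (Fin 2) ℂ :=
  aeval fun i => ∑ k, C (g.1 k i) * X k

/-- The vector `f = ∑ c_i x₁^(b-i) x₂^i` of `Sym^b U`, written as the linear form `∑ c_i z_i` of
`S = ℂ[z_0, …, z_b] = Sym (Sym^b U)`, where `z_i = X i` stands for `x₁^(b-i) x₂^i`. -/
noncomputable def toLin (b : ℕ) (f : MvPolynomial (Fin 2) ℂ) : MvPolynomial (Fin (b + 1)) ℂ :=
  ∑ i : Fin (b + 1),
    C (coeff (Finsupp.single 0 (b - (i : ℕ)) + Finsupp.single 1 (i : ℕ)) f) * X i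

/-- The action of `g ∈ SL₂(ℂ)` on `S = ℂ[z_0, …, z_b] = Sym (Sym^b U)`: the algebra map with
`z_i ↦ g (x₁^(b-i) x₂^i)`. -/
noncomputable def actS (b : ℕ) (g : Matrix.SpecialLinearGroup (Fin 2) ℂ) :
    MvPolynomial (Fin (b + 1)) ℂ →ₐ[ℂ] MvPolynomial (Fin (b + 1)) ℂ :=
  aeval fun i => toLin b (actU g (X 0 ^ (b - (i : ℕ)) * X 1 ^ (i : ℕ)))

/-- `W` is a subrepresentation of `S_a = Sym^a (Sym^b U)` isomorphic to `Sym^(ab) U`: there is an
`SL₂`-equivariant linear isomorphism from the binary forms of degree `ab` onto `W`. -/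
def IsSymCopy (a b : ℕ) (W : Submodule ℂ (MvPolynomial (Fin (b + 1)) ℂ)) : Prop :=
  W ≤ homogeneousSubmodule (Fin (b + 1)) ℂ a ∧
    ∃ θ : homogeneousSubmodule (Fin 2) ℂ (a * b) ≃ₗ[ℂ] W,
      ∀ (g : Matrix.SpecialLinearGroup (Fin 2) ℂ)
        (f f' : homogeneousSubmodule (Fin 2) ℂ (a * b)),
        (f' : MvPolynomial (Fin 2) ℂ) = actU g f →
          (θ f' : MvPolynomial (Fin (b + 1)) ℂ) = actS b g (θ f)

/-! ### Castelnuovo-Mumford regularity -/

/-- The sign `(-1)^#{w ∈ t | w < v}`. -/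
noncomputable def ksign {N : ℕ} (v : Fin N) (t : Finset (Fin N)) : MvPolynomial (Fin N) ℂ :=
  (-1) ^ (t.filter (fun w => w < v)).card

/-- The Koszul differential of `z_0, …, z_{N-1}`. The function `m` stands for the element
`∑ m(s) e_s` of the exterior algebra of `S^N` and `∂ e_s = ∑_{v ∈ s} ± z_v e_{s ∖ v}`. -/
noncomputable def koszulD {N : ℕ} (m : Finset (Fin N) → MvPolynomial (Fin N) ℂ)
    (t : Finset (Fin N)) : MvPolynomial (Fin N) ℂ :=
  ∑ v ∈ tᶜ, ksign v t * X v * m (insert v t)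

/-- `m` is an element of `K_i(z; J) = ⊕_{|s| = i} J e_s`. -/
def IsKoszulChain {N : ℕ} (J : Ideal (MvPolynomial (Fin N) ℂ)) (i : ℕ)
    (m : Finset (Fin N) → MvPolynomial (Fin N) ℂ) : Prop :=
  ∀ s, m s ∈ J ∧ (s.card ≠ i → m s = 0)

/-- `Tor_i^S(J, ℂ)_e ≠ 0`, where `Tor` is computed by the Koszul complex `K(z; J)`: there is a
cycle in `K_i(z; J)`, homogeneous of internal degree `e` (`e_s` having degree `|s|`), which is not
a boundary. -/
def TorNonzero {N : ℕ} (J : Ideal (MvPolynomial (Fin N) ℂ)) (i e : ℕ) : Prop :=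
  ∃ k, k + i = e ∧ ∃ m : Finset (Fin N) → MvPolynomial (Fin N) ℂ,
    IsKoszulChain J i m ∧ (∀ s, (m s).IsHomogeneous k) ∧ (∀ t, koszulD m t = 0) ∧
      ¬ ∃ n : Finset (Fin N) → MvPolynomial (Fin N) ℂ,
        IsKoszulChain J (i + 1) n ∧ ∀ t, koszulD n t = m t

/-- `r` is the Castelnuovo-Mumford regularity of the homogeneous ideal `J` (as an `S`-module):
the largest value of `e - i` with `Tor_i^S(J, ℂ)_e ≠ 0`. -/
def IsRegularity {N : ℕ} (J : Ideal (MvPolynomial (Fin N) ℂ)) (r : ℤ) : Prop :=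
  IsGreatest {t : ℤ | ∃ i e : ℕ, TorNonzero J i e ∧ t = (e : ℤ) - (i : ℤ)} r

end Pool.Agent.W_MP_13ae32_ag
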