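import Pool.Agent.W_MP_13ae32_ag.LemmaJ

/-!
Symmetric lowest polynomials at integral coupling are constant.
-/

open MvPolynomial Finset

set_option linter.unusedSectionVars false

namespace Pool.Agent.W_MP_13ae32_ag

theorem T_C_zero {M : ℕ} (c : ℂ) : T 0 (C c : MvPolynomial (Fin (M + 1)) ℂ) = C c := by
  simp [T, finSuccEquiv_apply]

theorem T_C_succ {M : ℕ} (k : ℕ) (c : ℂ) : T (k + 1) (C c : MvPolynomial (Fin (M + 1)) ℂ) = 0 := by
  simp [T, finSuccEquiv_apply]

theorem HS.le {ι : Type*} [DecidableEq ι] [Fintype ι] {N r : ℕ} {p : MvPolynomial ι ℂ}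
    (h : HS N r p) (hp : p ≠ 0) : r ≤ N := by
  by_contra hlt
  exact hp (h.eq_zero (by omega))

theorem HS.shift {ι : Type*} [DecidableEq ι] [Fintype ι] {N r : ℕ} {p : MvPolynomial ι ℂ}
    (h : HS N r p) (hr : r ≤ N) : HS (N - r) 0 p := by
  intro e he
  exact h e (by omega)

section aux

variable {a q : ℕ} {h : MvPolynomial (Fin (q + 1)) ℂ}

/-- the key coefficient relation -/
theorem irr_rel (ha : 1 ≤ a) (hsym : ∀ σ : Equiv.Perm (Fin (q + 1)), rename σ h = h)
    (hHS : HS (a * (q + 1) + 1) 0 h) (L : Low (fun _ => 1) (fun _ => (a : ℂ)) h)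
    (k : ℕ) (hk : a ≤ k) (l : Fin q) :
    ((k : MvPolynomial (Fin q) ℂ) + 1 - (a : MvPolynomial (Fin q) ℂ)) *
        pderiv l (T (k + 1) h) =
      ((k : MvPolynomial (Fin q) ℂ) + 2) *
        (X l * pderiv l (T (k + 2) h) - (a : MvPolynomial (Fin q) ℂ) * T (k + 2) h) := by
  obtain ⟨H, h0, hD, ht, -⟩ := L
  have ha0 : (a : ℂ) ≠ 0 := by exact_mod_cast (by omega : a ≠ 0)
  have haP : ∀ {n : ℕ}, (C (a : ℂ) : MvPolynomial (Fin n) ℂ) ≠ 0 := fun {n} => by
    rw [Ne, C_eq_zero]; exact ha0
  have hH0 : H 0 = fun _ => h := funext h0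
  have hH1 : H 1 = fun l => pderiv l h := by
    have := hD 0
    rw [hH0] at this
    have h1 := this.unique (IsD.const _ _ h)
    rw [zero_add] at h1
    rw [h1]; funext l; simp
  have hEq : ∀ r, Equivar (H r) := by
    intro r
    induction r with
    | zero => intro σ i; rw [hH0]; exact hsym σ
    | succ r ih => exact ih.isD (hD r)
  have hHSr : ∀ r l, HS (a * (q + 1) + 1) r (H r l) := by
    intro r
    induction r with
    | zero => intro l; rw [h0]; exact hHS
    | succ r ih => intro l; exact (hD r).hs ih l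
  have htr : ∀ r, ∑ l, H (r + 1) l = 0 := by
    intro r
    have := ht r
    rw [← Finset.mul_sum] at this
    exact (mul_eq_zero.1 this).resolve_left haP
  -- the second iterate vanishes
  have hH2 : H 2 = 0 := by
    by_contra hne
    obtain ⟨r, ⟨hr2, hr⟩, hmax⟩ := exists_max (P := fun r => 2 ≤ r ∧ H r ≠ 0)
      (a * (q + 1) + 2) ⟨2, le_rfl, hne⟩ (by
        rintro k hk ⟨-, hk0⟩
        apply hk0
        funext l
        rw [Pi.zero_apply]
        exact (hHSr k l).eq_zero (by omega))
    have hnext : H (r + 1) = 0 := by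
      by_contra hcon
      exact hmax (r + 1) (by omega) ⟨by omega, hcon⟩
    have h1 := hD r
    rw [hnext] at h1
    have hr' : ∑ l, H r l = 0 := by
      obtain ⟨r', rfl⟩ : ∃ r', r = r' + 1 := ⟨r - 1, by omega⟩
      exact htr r'
    have := lemJ ha (q + 1) (H r) (a * (q + 1) + 1) r (hEq r) (hHSr r) h1 hr' hr
    omega
  have hD1 : IsD (fun _ => 1) (fun _ => (a : ℂ)) (fun l => pderiv l h) 0 := by
    have := hD 1
    rwa [hH1, show (1 + 1 : ℕ) = 2 from rfl, hH2] at this
  obtain ⟨R, hR, hR0, hRD⟩ := hD1.split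
  simp only [Pi.zero_apply, T_zero, zero_add] at hR0 hRD
  -- notation
  set u : ℕ → Fin q → MvPolynomial (Fin q) ℂ := fun k l => pderiv l (T k h) with hu
  set w : ℕ → Fin q → MvPolynomial (Fin q) ℂ := fun k l => C (a : ℂ) * T k (R l) with hw
  have huw : ∀ k, IsD (fun _ => 1) (fun _ => (a : ℂ)) (u k) (w k) := by
    intro k
    have := hRD k
    simp only [T_pderiv_succ] at this
    exact this
  have hstar : ∀ k l, X l * w (k + 1) l - w k l =
      (a : MvPolynomial (Fin q) ℂ) *
        (u (k + 1) l - ((k : MvPolynomial (Fin q) ℂ) + 2) * T (k + 2) h) := by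
    intro k l
    have h1 := T_quot (hR l) k
    rw [T_sub, T_pderiv_succ, T_pderiv_zero] at h1
    simp only [hw, hu]
    push_cast at h1 ⊢
    simp only [map_add, map_natCast, map_one] at h1 ⊢
    linear_combination (a : MvPolynomial (Fin q) ℂ) * h1
  have hstar0 : ∀ l, X l * w 0 l = (a : MvPolynomial (Fin q) ℂ) * (u 0 l - T 1 h) := by
    intro l
    have h1 := T_quot_zero (hR l)
    rw [T_sub, T_pderiv_succ, T_pderiv_zero] at h1
    simp only [hw, hu]
    simp only [Nat.cast_zero, zero_add, C_1, one_mul, map_natCast] at h1 ⊢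
    linear_combination (a : MvPolynomial (Fin q) ℂ) * h1
  have hE1 : ∀ k : ℕ, ∑ l, u k l = - (((k : MvPolynomial (Fin q) ℂ) + 1) * T (k + 1) h) := by
    intro k
    have h1 := congrArg (T k) (htr 0)
    rw [zero_add, hH1, T_sum, Fin.sum_univ_succ, T_zero, T_pderiv_zero] at h1
    simp only [T_pderiv_succ, map_add, map_natCast, map_one] at h1
    simp only [hu]
    linear_combination h1
  have hE2 : ∀ k : ℕ, ∑ l, w k l = ((k : MvPolynomial (Fin q) ℂ) + 1) *
      (((k : MvPolynomial (Fin q) ℂ) + 2) * T (k + 2) h) := by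
    intro k
    have h1 := congrArg (T k) hR0
    rw [T_zero, T_sub, T_C_mul, C_1, one_mul, T_pderiv_zero, T_pderiv_zero, T_sum] at h1
    simp only [T_C_mul] at h1
    push_cast at h1
    simp only [map_add, map_natCast, map_one] at h1
    simp only [hw]
    push_cast
    simp only [map_natCast]
    linear_combination h1
  have hequ : ∀ k, Equivar (u k) := by
    intro k σ l
    simp only [hu]
    rw [← pderiv_rename_equiv, ← T_rename, hsym]
  have heqw : ∀ k, Equivar (w k) := fun k => (hequ k).isD (huw k)
  set z : ℕ → Fin q → MvPolynomial (Fin q) ℂ := fun k => Dun 1 (a : ℂ) (w k) with hz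
  have hwz : ∀ k, IsD (fun _ => 1) (fun _ => (a : ℂ)) (w k) (z k) := fun k =>
    (heqw k).isD_Dun _ _
  -- D applied to constants `T k h`
  have hconst : ∀ k, IsD (fun _ => 1) (fun _ => (a : ℂ)) (fun _ => T k h) (u k) := by
    intro k
    have := IsD.const (fun _ => (1 : ℂ)) (fun _ => (a : ℂ)) (T k h)
    simpa [hu] using this
  have hZ0 : ∀ l, z 0 l + w 1 l = 0 := by
    intro l
    have h1 := (hwz 0).mulX
    have h2 : IsD (fun _ => 1) (fun _ => (a : ℂ)) (fun l => X l * w 0 l)
        (fun l => C (a : ℂ) * (w 0 - u 1) l) := by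
      have h3 := ((huw 0).sub (hconst 1)).smul (a : ℂ)
      convert h3 using 1
      funext l
      rw [hstar0]; simp
    have h3 := congrFun (h1.unique h2) l
    beta_reduce at h3
    rw [hE2 0, Pi.sub_apply] at h3
    have h4 := hstar 0 l
    push_cast at h3 h4
    simp only [map_add, map_natCast, map_one, zero_add] at h3 h4
    have h5 : X l * (z 0 l + w 1 l) = 0 := by
      linear_combination h3 + h4
    exact (mul_eq_zero.1 h5).resolve_left (X_ne_zero l)
  have hZs : ∀ (k : ℕ) l, X l * (z (k + 1) l + ((k : MvPolynomial (Fin q) ℂ) + 2) * w (k + 2) l) =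
      z k l + ((k : MvPolynomial (Fin q) ℂ) + 1) * w (k + 1) l := by
    intro k l
    have h1 := ((hwz (k + 1)).mulX).sub (hwz k)
    have h2 : IsD (fun _ => 1) (fun _ => (a : ℂ))
        ((fun l => X l * w (k + 1) l) - w k)
        (fun l => C (a : ℂ) * (w (k + 1) l - C ((k : ℂ) + 1 + 1) * u (k + 2) l)) := by
      have h3 := ((huw (k + 1)).sub ((hconst (k + 2)).smul ((k : ℂ) + 1 + 1))).smul (a : ℂ)
      convert h3 using 1
      · funext l
        rw [Pi.sub_apply, hstar]
        simp only [Pi.sub_apply, map_add, map_natCast, map_one]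
        ring
      · funext l
        rw [Pi.sub_apply]
    have h3 := congrFun (h1.unique h2) l
    simp only [Pi.sub_apply] at h3
    rw [hE2 (k + 1)] at h3
    have h4 := hstar (k + 1) l
    push_cast at h3 h4
    simp only [map_add, map_natCast, map_one] at h3 h4
    linear_combination h3 + ((k : MvPolynomial (Fin q) ℂ) + 2) * h4
  have hZ : ∀ (k : ℕ) l, z k l + ((k : MvPolynomial (Fin q) ℂ) + 1) * w (k + 1) l = 0 := by
    intro k
    induction k with
    | zero => intro l; simpa using hZ0 l
    | succ k ih =>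
      intro l
      have h1 := hZs k l
      rw [ih l] at h1
      have h2 := (mul_eq_zero.1 h1).resolve_left (X_ne_zero l)
      push_cast
      linear_combination h2
  -- the families `B`
  have hB : ∀ k : ℕ, a ≤ k → ∀ l,
      w k l + ((k : MvPolynomial (Fin q) ℂ) + 1) * u (k + 1) l = 0 := by
    intro k hk
    set B : Fin q → MvPolynomial (Fin q) ℂ := w k + fun l => C ((k : ℂ) + 1) * u (k + 1) l with hBdef
    have hBD : IsD (fun _ => 1) (fun _ => (a : ℂ)) B 0 := by
      have h1 := (hwz k).add ((huw (k + 1)).smul ((k : ℂ) + 1))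
      convert h1 using 1
      funext l
      have := hZ k l
      simp only [Pi.zero_apply, Pi.add_apply, map_add, map_natCast, map_one]
      linear_combination -this
    have hBeq : Equivar B := by
      intro σ l
      have h1 := heqw k σ l
      have h2 := hequ (k + 1) σ l
      simp only [hBdef, Pi.add_apply, map_add, map_mul, h1, h2]
      simp
    have hBtr : ∑ l, B l = 0 := by
      simp only [hBdef, Pi.add_apply, Finset.sum_add_distrib, ← Finset.mul_sum, hE1, hE2]
      push_cast
      simp only [map_add, map_natCast, map_one]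
      ring
    have hBHS : ∀ l, HS (a * (q + 1) + 1) (k + 2) (B l) := by
      intro l
      have h1 : ∀ k l, HS (a * (q + 1) + 1) (k + 1) (u k l) := by
        intro k l
        have := (hHS.T k).pderiv l
        rwa [show 0 + k + 1 = k + 1 by omega] at this
      have h2 := (huw k).hs (h1 k) l
      exact h2.add ((h1 (k + 1) l).C_mul _)
    have hB0 : B = 0 := by
      by_contra hne
      have := lemJ ha q B _ _ hBeq hBHS hBD hBtr hne
      have h3 : a * (q + 1) = a * q + a := by ring
      omega
    intro l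
    have h1 := congrFun hB0 l
    simpa [hBdef] using h1
  have h1 := hstar k l
  have h2 := hB k hk l
  have h3 := hB (k + 1) (by omega) l
  push_cast at h3
  simp only [hu] at h1 h2 h3
  linear_combination h1 + h2 - X l * h3

theorem irr_aux (ha : 1 ≤ a) (hsym : ∀ σ : Equiv.Perm (Fin (q + 1)), rename σ h = h)
    (hHS : HS (a * (q + 1) + 1) 0 h) (L : Low (fun _ => 1) (fun _ => (a : ℂ)) h)
    (hlead : coeff 0 (T (a * (q + 1) + 1) h) ≠ 0) : False := by
  have hrel := fun k hk l => irr_rel ha hsym hHS L k hk l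
  -- coefficient form
  have hco : ∀ k, a ≤ k → ∀ (l : Fin q) (d : Fin q →₀ ℕ),
      ((k : ℂ) + 1 - a) * (((d l : ℂ) + 1) * coeff (d + Finsupp.single l 1) (T (k + 1) h)) =
      ((k : ℂ) + 2) * (((d l : ℂ) - a) * coeff d (T (k + 2) h)) := by
    intro k hk l d
    have h1 := congrArg (coeff d) (hrel k hk l)
    have h2 : ((k : MvPolynomial (Fin q) ℂ) + 1 - (a : MvPolynomial (Fin q) ℂ)) =
        C ((k : ℂ) + 1 - a) := by simp
    have h3 : ((k : MvPolynomial (Fin q) ℂ) + 2) = C ((k : ℂ) + 2) := by
      rw [map_add, map_natCast, map_ofNat]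
    have h4 : (a : MvPolynomial (Fin q) ℂ) = C (a : ℂ) := by simp
    rw [h2, h3, h4, coeff_C_mul, coeff_C_mul, coeff_sub, coeff_C_mul, coeff_pderiv] at h1
    have h5 : coeff d (X l * pderiv l (T (k + 2) h)) = (d l : ℂ) * coeff d (T (k + 2) h) := by
      rw [coeff_X_mul']
      split_ifs with hl
      · have hpos : d l ≠ 0 := Finsupp.mem_support_iff.1 hl
        have hd : (d - Finsupp.single l 1) + Finsupp.single l 1 = d := by
          ext j
          simp only [Finsupp.coe_add, Finsupp.coe_tsub, Pi.add_apply, Pi.sub_apply]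
          by_cases hj : l = j
          · subst hj; simp; omega
          · simp [hj]
        rw [coeff_pderiv, hd]
        have : (((d - Finsupp.single l 1 : Fin q →₀ ℕ) l : ℕ) : ℂ) + 1 = d l := by
          simp only [Finsupp.coe_tsub, Pi.sub_apply, Finsupp.single_eq_same]
          rw [Nat.cast_sub (by omega)]; simp
        rw [this]; ring
      · have : d l = 0 := Finsupp.notMem_support_iff.1 hl
        rw [this]; simp
    rw [h5] at h1
    linear_combination h1
  -- chain
  have hchain : ∀ D (d : Fin q →₀ ℕ), d.degree = D → (∀ l, d l ≤ a) →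
      coeff d (T (a * (q + 1) + 1 - D) h) ≠ 0 := by
    intro D
    induction D with
    | zero =>
      intro d hd _
      have : d = 0 := (Finsupp.degree_eq_zero_iff d).1 hd
      rw [this]; simpa using hlead
    | succ D ih =>
      intro d hd hle
      obtain ⟨l, hl⟩ : ∃ l, d l ≠ 0 := by
        by_contra hcon
        push Not at hcon
        have : d = 0 := Finsupp.ext hcon
        rw [this] at hd; simp at hd
      set d' := d - Finsupp.single l 1 with hd'
      have hdd : d' + Finsupp.single l 1 = d := by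
        ext j
        simp only [hd', Finsupp.coe_add, Finsupp.coe_tsub, Pi.add_apply, Pi.sub_apply]
        by_cases hj : l = j
        · subst hj; simp; omega
        · simp [hj]
      have hdeg' : d'.degree = D := by
        have := congrArg Finsupp.degree hdd
        rw [map_add, Finsupp.degree_single] at this
        omega
      have hle' : ∀ j, d' j ≤ a := fun j => by
        have := congrFun (congrArg DFunLike.coe hdd) j
        simp only [Finsupp.coe_add, Pi.add_apply] at this
        have := hle j
        omega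
      have hlt : d' l < a := by
        have h1 := congrFun (congrArg DFunLike.coe hdd) l
        simp only [Finsupp.coe_add, Pi.add_apply, Finsupp.single_eq_same] at h1
        have := hle l
        omega
      have hDle : D + 1 ≤ a * q := by
        rw [← hd, Finsupp.degree_eq_sum]
        calc ∑ i, d i ≤ ∑ _i : Fin q, a := Finset.sum_le_sum fun i _ => hle i
          _ = a * q := by simp [mul_comm]
      have hexp : a * (q + 1) = a * q + a := by ring
      have hih := ih d' hdeg' hle'
      obtain ⟨k, hk⟩ : ∃ k, a * (q + 1) + 1 - D = k + 2 := ⟨a * (q + 1) + 1 - D - 2, by omega⟩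
      have hk' : a * (q + 1) + 1 - (D + 1) = k + 1 := by omega
      have hak : a ≤ k := by omega
      have h1 := hco k hak l d'
      rw [hdd, ← hk, ← hk'] at h1
      intro h0
      rw [h0, mul_zero, mul_zero] at h1
      have h2 : ((k : ℂ) + 2) ≠ 0 := by exact_mod_cast (by omega : k + 2 ≠ 0)
      have h3 : ((d' l : ℂ) - a) ≠ 0 := by
        rw [sub_ne_zero]
        exact_mod_cast hlt.ne
      exact (mul_ne_zero h2 (mul_ne_zero h3 hih)) h1.symm
  -- the balanced coefficient
  set A' : Fin q →₀ ℕ := Finsupp.equivFunOnFinite.symm (fun _ => a) with hA'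
  have hA'deg : A'.degree = a * q := by
    rw [Finsupp.degree_eq_sum]
    simp [hA', mul_comm]
  have h1 := hchain (a * q) A' hA'deg (fun l => by simp [hA'])
  have h2 : a * (q + 1) + 1 - a * q = a + 1 := by
    have hexp : a * (q + 1) = a * q + a := by ring
    omega
  rw [h2, coeff_T] at h1
  set A : Fin (q + 1) →₀ ℕ := Finsupp.equivFunOnFinite.symm (fun _ => a) with hA
  have hA0 : Finsupp.cons (a + 1) A' = A + Finsupp.single 0 1 := by
    ext j
    refine Fin.cases ?_ (fun j => ?_) j
    · simp [hA]
    · simp [hA, hA']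
  rw [hA0] at h1
  have hall : ∀ i, coeff (A + Finsupp.single i 1) h = coeff (A + Finsupp.single 0 1) h := by
    intro i
    have h3 := coeff_rename_mapDomain (Equiv.swap 0 i) (Equiv.injective _) h
      (A + Finsupp.single 0 1)
    rw [hsym] at h3
    rw [← h3]
    congr 1
    rw [Finsupp.mapDomain_add, Finsupp.mapDomain_single, Equiv.swap_apply_left]
    congr 1
    ext j
    have := Finsupp.mapDomain_apply (Equiv.injective (Equiv.swap 0 i)) A (Equiv.swap 0 i j)
    rw [Equiv.swap_apply_self] at this
    rw [this]; simp [hA]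
  obtain ⟨H, h0, hD, ht, -⟩ := L
  have hH0 : H 0 = fun _ => h := funext h0
  have hH1 : H 1 = fun l => pderiv l h := by
    have := hD 0
    rw [hH0] at this
    have h1 := this.unique (IsD.const _ _ h)
    rw [zero_add] at h1
    rw [h1]; funext l; simp
  have h4 := ht 0
  rw [zero_add, hH1, ← Finset.mul_sum] at h4
  have haP : (C (a : ℂ) : MvPolynomial (Fin (q + 1)) ℂ) ≠ 0 := by
    rw [Ne, C_eq_zero]; exact_mod_cast (by omega : a ≠ 0)
  have h5 := congrArg (coeff A) ((mul_eq_zero.1 h4).resolve_left haP)
  rw [coeff_sum, coeff_zero] at h5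
  simp only [coeff_pderiv, hall] at h5
  have h6 : ∀ i, (A i : ℂ) = a := fun i => by simp [hA]
  simp only [h6, Finset.sum_const, Finset.card_univ, Fintype.card_fin, nsmul_eq_mul] at h5
  have h7 : ((q + 1 : ℕ) : ℂ) ≠ 0 := by exact_mod_cast Nat.succ_ne_zero q
  have h8 : ((a : ℂ) + 1) ≠ 0 := by exact_mod_cast Nat.succ_ne_zero a
  exact (mul_ne_zero h7 (mul_ne_zero h1 h8)) h5

end aux

theorem irr {a : ℕ} (ha : 1 ≤ a) : ∀ (q : ℕ) (h : MvPolynomial (Fin q) ℂ) (N : ℕ),
    (∀ σ : Equiv.Perm (Fin q), rename σ h = h) → HS N 0 h →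
    Low (fun _ => 1) (fun _ => (a : ℂ)) h → ∃ c, h = C c := by
  intro q
  induction q with
  | zero => intro h N _ _ _; exact ⟨_, eq_C_of_isEmpty h⟩
  | succ q ih =>
    intro h N hsym hHS L
    by_cases hh : h = 0
    · exact ⟨0, by simp [hh]⟩
    obtain ⟨B, hB⟩ := exists_T_eq_zero h
    obtain ⟨e, he, hmax⟩ := exists_max (P := fun k => T k h ≠ 0) B (by
      by_contra hcon
      push Not at hcon
      exact hh (eq_zero_of_T hcon)) (fun k hk hcon => hcon (hB k hk))
    have hmax' : ∀ k, e < k → T k h = 0 := fun k hk => by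
      by_contra hcon; exact hmax k hk hcon
    have hHSe := hHS.T e
    have heN := hHSe.le he
    obtain ⟨c, hc⟩ := ih (T e h) (N - (0 + e)) (fun σ => by rw [← T_rename, hsym])
      (hHSe.shift heN) (L.top hmax')
    have hc0 : c ≠ 0 := by
      rintro rfl; rw [C_0] at hc; exact he hc
    rcases Nat.eq_zero_or_pos e with rfl | hpos
    · refine ⟨c, ?_⟩
      rw [← sub_eq_zero]
      apply eq_zero_of_T
      intro k
      rw [T_sub]
      cases k with
      | zero => rw [hc, T_C_zero, sub_self]
      | succ k => rw [hmax' _ (Nat.succ_pos k), T_C_succ, sub_self]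
    · exfalso
      have hne : (a : ℂ) ≠ 0 := by exact_mod_cast (by omega : a ≠ 0)
      have h1 := L.exponent hmax' hc0 hc (by omega) one_ne_zero hne (by
        simp only [Finset.sum_const, Finset.card_univ, Fintype.card_fin, nsmul_eq_mul]
        have : ((a + q * a : ℕ) : ℂ) ≠ 0 := by
          have : a + q * a ≠ 0 := by positivity
          exact_mod_cast this
        push_cast at this
        exact this)
      have h2 : e = a * (q + 1) + 1 := by
        have : (e : ℂ) = ((a * (q + 1) + 1 : ℕ) : ℂ) := by
          push_cast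
          simp only [Finset.sum_const, Finset.card_univ, Fintype.card_fin, nsmul_eq_mul] at h1
          linear_combination h1
        exact_mod_cast this
      have h3 : coeff 0 (T e h) ≠ 0 := by
        rw [hc, coeff_C, if_pos rfl]; exact hc0
      have h4 := hHSe.coeff 0 h3
      simp only [map_zero, zero_add] at h4
      subst h4
      subst h2
      exact irr_aux ha hsym hHS L h3

end Pool.Agent.W_MP_13ae32_ag
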