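import Pool.Agent.W_MP_13ae32_ag.Top

/-!
Families killed by the Dunkl operator and by the trace have large degree.
-/

open MvPolynomial Finset

set_option linter.unusedSectionVars false

namespace Pool.Agent.W_MP_13ae32_ag

/-- extension of a permutation of `Fin M` to `Fin (M+1)` fixing `0`. -/
def ext0 {M : ℕ} (σ : Equiv.Perm (Fin M)) : Equiv.Perm (Fin (M + 1)) :=
  Equiv.Perm.decomposeFin.symm (0, σ)

@[simp] theorem ext0_zero {M : ℕ} (σ : Equiv.Perm (Fin M)) : ext0 σ 0 = 0 := by
  simp [ext0]

@[simp] theorem ext0_succ {M : ℕ} (σ : Equiv.Perm (Fin M)) (l : Fin M) :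
    ext0 σ l.succ = (σ l).succ := by
  simp [ext0]

theorem T_rename {M : ℕ} (σ : Equiv.Perm (Fin M)) (k : ℕ) (p : MvPolynomial (Fin (M + 1)) ℂ) :
    T k (rename (ext0 σ) p) = rename σ (T k p) := by
  have h : (finSuccEquiv ℂ M).toAlgHom.comp (rename (ext0 σ)) =
      (Polynomial.mapAlgHom (rename σ)).comp (finSuccEquiv ℂ M).toAlgHom := by
    apply MvPolynomial.algHom_ext
    intro j
    refine Fin.cases ?_ (fun j => ?_) j
    · simp [finSuccEquiv_X_zero]
    · simp [finSuccEquiv_X_succ]
  have h1 := congrArg (fun g : MvPolynomial (Fin (M + 1)) ℂ →ₐ[ℂ] _ => (g p).coeff k) h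
  simpa [T] using h1

theorem HS.T {M N r : ℕ} {p : MvPolynomial (Fin (M + 1)) ℂ} (h : HS N r p) (k : ℕ) :
    HS N (r + k) (T k p) := by
  apply HS.of_coeff
  intro d hd
  rw [coeff_T] at hd
  have h1 := h.coeff _ hd
  have h2 : (Finsupp.cons k d).degree = k + d.degree := by
    rw [Finsupp.degree_eq_sum, Finsupp.degree_eq_sum, Fin.sum_univ_succ]
    simp
  omega

theorem Equivar.T {M : ℕ} {f : Fin (M + 1) → MvPolynomial (Fin (M + 1)) ℂ} (hf : Equivar f)
    (k : ℕ) : Equivar (fun l : Fin M => T k (f l.succ)) := by
  intro σ l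
  beta_reduce
  rw [← T_rename, hf, ext0_succ]

theorem exists_max {P : ℕ → Prop} (B : ℕ) (h : ∃ k, P k) (hB : ∀ k, B ≤ k → ¬ P k) :
    ∃ e, P e ∧ ∀ k, e < k → ¬ P k := by
  induction B with
  | zero => obtain ⟨k, hk⟩ := h; exact absurd hk (hB k (Nat.zero_le k))
  | succ B ih =>
    by_cases hP : P B
    · exact ⟨B, hP, fun k hk => hB k hk⟩
    · apply ih
      intro k hk
      rcases Nat.eq_or_lt_of_le hk with rfl | h'
      · exact hP
      · exact hB k h'

theorem lemJ {a : ℕ} (ha : 1 ≤ a) : ∀ (q : ℕ) (f : Fin q → MvPolynomial (Fin q) ℂ) (N r : ℕ),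
    Equivar f → (∀ l, HS N r (f l)) → IsD (fun _ => 1) (fun _ => (a : ℂ)) f 0 →
    ∑ l, f l = 0 → f ≠ 0 → a * q + r ≤ N := by
  intro q
  induction q with
  | zero => intro f N r _ _ _ _ hf; exact absurd (funext fun l => l.elim0) hf
  | succ q ih =>
    intro f N r hf hHS hD htr hne
    -- the maximal exponent
    obtain ⟨e, he, hmax⟩ : ∃ e, (∃ l, T e (f l) ≠ 0) ∧ ∀ k, e < k → ∀ l, T k (f l) = 0 := by
      have hbd : ∃ B, ∀ k, B ≤ k → ∀ l, T k (f l) = 0 := by
        choose N hN using fun l => exists_T_eq_zero (f l)
        refine ⟨univ.sup N, fun k hk l => hN l k ((Finset.le_sup (mem_univ l)).trans hk)⟩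
      obtain ⟨B, hB⟩ := hbd
      have hex : ∃ k, ∃ l, T k (f l) ≠ 0 := by
        by_contra hcon
        push Not at hcon
        apply hne
        funext l
        rw [Pi.zero_apply]
        exact eq_zero_of_T fun k => hcon k l
      obtain ⟨e, h1, h2⟩ := exists_max (P := fun k => ∃ l, T k (f l) ≠ 0) B hex
        (fun k hk hcon => by obtain ⟨l, hl⟩ := hcon; exact hl (hB k hk l))
      refine ⟨e, h1, fun k hk l => ?_⟩
      by_contra hcon
      exact h2 k hk ⟨l, hcon⟩
    have hz : ∀ l k, e < k → T k (f l) = 0 := fun l k hk => hmax k hk l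
    obtain ⟨R, hR, hR0, -⟩ := hD.split
    have hRz : ∀ l k, e ≤ k → T k (R l) = 0 := fun l k hk =>
      T_quot_eq_zero (hR l) (e := e)
        (fun k hk => by rw [T_sub, hz _ k hk, hz _ k hk, sub_zero]) k hk
    have htrT : T e (f 0) + ∑ l : Fin q, T e (f l.succ) = 0 := by
      have := congrArg (T e) htr
      rwa [T_sum, Fin.sum_univ_succ, T_zero] at this
    -- the equation for the first coefficient
    have hA0 : ((e : ℂ) - a * (q + 1)) ≠ 0 → T e (f 0) = 0 := by
      intro hne0
      rcases Nat.eq_zero_or_pos e with rfl | hpos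
      · exfalso
        have hR00 : ∀ l, R l = 0 := fun l => eq_zero_of_T fun k => hRz l k (Nat.zero_le k)
        have hall : ∀ l : Fin q, f l.succ = f 0 := by
          intro l
          have := hR l
          rw [hR00, mul_zero] at this
          exact (sub_eq_zero.1 this.symm)
        rw [Fin.sum_univ_succ] at htr
        simp only [hall, Finset.sum_const, Finset.card_univ, Fintype.card_fin, nsmul_eq_mul] at htr
        have h1 : ((q : MvPolynomial (Fin (q + 1)) ℂ) + 1) * f 0 = 0 := by
          linear_combination htr
        have h2 : ((q : MvPolynomial (Fin (q + 1)) ℂ) + 1) ≠ 0 := by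
          exact_mod_cast Nat.succ_ne_zero q
        have h3 := (mul_eq_zero.1 h1).resolve_left h2
        obtain ⟨l, hl⟩ := he
        apply hl
        have : f l = 0 := by
          refine Fin.cases h3 (fun l => ?_) l
          rw [hall, h3]
        rw [this, T_zero]
      · obtain ⟨e', rfl⟩ := Nat.exists_eq_add_of_lt hpos
        simp only [zero_add] at *
        have hRe : ∀ l, T e' (R l) = T (e' + 1) (f 0) - T (e' + 1) (f l.succ) := by
          intro l
          have h1 := T_quot (hR l) e'
          rw [hRz l (e' + 1) le_rfl, mul_zero, zero_sub, T_sub] at h1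
          linear_combination -h1
        have h1 := congrArg (T e') hR0
        rw [Pi.zero_apply, T_zero, T_sub, T_C_mul, C_1, one_mul, T_pderiv_zero, T_sum] at h1
        simp only [T_C_mul, hRe, ← Finset.mul_sum, Finset.sum_sub_distrib, Finset.sum_const,
          Finset.card_univ, Fintype.card_fin, nsmul_eq_mul] at h1
        have h2 : C (((e' + 1 : ℕ) : ℂ) - a * (q + 1)) * T (e' + 1) (f 0) = 0 := by
          push_cast
          simp only [map_sub, map_add, map_mul, map_natCast, map_one]
          simp only [map_add, map_natCast, map_one] at h1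
          linear_combination -h1 - (a : MvPolynomial (Fin q) ℂ) * htrT
        have h3 : C (((e' + 1 : ℕ) : ℂ) - a * (q + 1)) ≠ (0 : MvPolynomial (Fin q) ℂ) := by
          rw [Ne, C_eq_zero]
          exact_mod_cast hne0
        exact (mul_eq_zero.1 h2).resolve_left h3
    by_cases hA : T e (f 0) = 0
    · -- reduce to fewer variables
      set A : Fin q → MvPolynomial (Fin q) ℂ := fun l => T e (f l.succ) with hAdef
      have hAne : A ≠ 0 := by
        intro h0
        obtain ⟨l, hl⟩ := he
        apply hl
        refine Fin.cases hA (fun l => ?_) l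
        exact congrFun h0 l
      have hAD : IsD (fun _ => 1) (fun _ => (a : ℂ)) A 0 := by
        have := (hD.top hz).2.2
        simp only [Pi.zero_apply, T_zero] at this
        exact this
      have hAtr : ∑ l, A l = 0 := by
        rw [hA, zero_add] at htrT
        exact htrT
      have hIH := ih A N (r + e) (hf.T e) (fun l => (hHS l.succ).T e) hAD hAtr hAne
      -- `a ≤ e`
      have hae : a ≤ e := by
        obtain ⟨l, hl⟩ : ∃ l, A l ≠ 0 := by
          by_contra hcon
          push Not at hcon
          exact hAne (funext hcon)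
        obtain ⟨d, hd⟩ := exists_coeff_ne_zero hl
        have hdeg := ((hHS l.succ).T e).coeff d hd
        obtain ⟨k, hk⟩ : ∃ k, a ≤ d k := by
          by_contra hcon
          push Not at hcon
          have h1 : d.degree ≤ ∑ _k : Fin q, (a - 1) := by
            rw [Finsupp.degree_eq_sum]
            exact Finset.sum_le_sum fun k _ => by have := hcon k; omega
          rw [Finset.sum_const, Finset.card_univ, Fintype.card_fin, smul_eq_mul] at h1
          have hq : 1 ≤ q := by have := l.2; omega
          have h2 : q * (a - 1) < a * q := by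
            rw [mul_comm a q]
            exact Nat.mul_lt_mul_of_pos_left (by omega) (by omega)
          omega
        rw [hAdef] at hd
        beta_reduce at hd
        rw [coeff_T] at hd
        have h1 := hf (Equiv.swap 0 k.succ) l.succ
        have h2 : coeff (Finsupp.mapDomain (Equiv.swap 0 k.succ) (Finsupp.cons e d))
            (f (Equiv.swap 0 k.succ l.succ)) ≠ 0 := by
          rw [← h1, coeff_rename_mapDomain _ (Equiv.injective _)]
          exact hd
        set D := Finsupp.mapDomain (Equiv.swap 0 k.succ) (Finsupp.cons e d) with hDdef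
        have hD0 : D 0 = d k := by
          have := Finsupp.mapDomain_apply (Equiv.injective (Equiv.swap 0 k.succ))
            (Finsupp.cons e d) k.succ
          rw [Equiv.swap_apply_right] at this
          rw [hDdef, this, Finsupp.cons_succ]
        by_contra hlt
        have h3 := hz (Equiv.swap 0 k.succ l.succ) (d k) (by omega)
        have h4 := congrArg (coeff (Finsupp.tail D)) h3
        rw [coeff_T, coeff_zero, ← hD0, Finsupp.cons_tail] at h4
        exact h2 h4
      have : a * (q + 1) = a * q + a := by ring
      omega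
    · have h1 : ((e : ℂ) - a * (q + 1)) = 0 := by
        by_contra hcon; exact hA (hA0 hcon)
      have h2 : e = a * (q + 1) := by
        have : (e : ℂ) = ((a * (q + 1) : ℕ) : ℂ) := by push_cast; linear_combination h1
        exact_mod_cast this
      obtain ⟨d, hd⟩ := exists_coeff_ne_zero hA
      have hdeg := ((hHS 0).T e).coeff d hd
      omega

end Pool.Agent.W_MP_13ae32_ag
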