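import Pool.Agent.W_MP_13ae32_ag.Irr

/-!
Lexicographically leading exponents.
-/

open MvPolynomial Finset

set_option linter.unusedSectionVars false

namespace Pool.Agent.W_MP_13ae32_ag

/-- lexicographic comparison -/
def LexLt {M : ℕ} (c d : Fin M →₀ ℕ) : Prop := ∃ j, (∀ i < j, c i = d i) ∧ c j < d j

theorem lexLt_iff {M : ℕ} (c d : Fin M →₀ ℕ) :
    LexLt c d ↔ MonomialOrder.lex.toSyn c < MonomialOrder.lex.toSyn d := by
  rw [MonomialOrder.lex_lt_iff, Finsupp.Lex.lt_iff]
  rfl

/-- leading exponent -/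
noncomputable def ld {M : ℕ} (G : MvPolynomial (Fin M) ℂ) : Fin M →₀ ℕ :=
  MonomialOrder.lex.degree G

theorem coeff_ld_ne_zero {M : ℕ} {G : MvPolynomial (Fin M) ℂ} (h : G ≠ 0) :
    coeff (ld G) G ≠ 0 := MonomialOrder.coeff_degree_ne_zero_iff.2 h

theorem not_lexLt_of_coeff {M : ℕ} {G : MvPolynomial (Fin M) ℂ} {d : Fin M →₀ ℕ}
    (h : coeff d G ≠ 0) : ¬ LexLt (ld G) d := by
  intro hlt
  rw [lexLt_iff] at hlt
  exact h (MonomialOrder.coeff_eq_zero_of_lt hlt)

theorem lexLt_or_eq {M : ℕ} {c d : Fin M →₀ ℕ} (h : ¬ LexLt c d) : d = c ∨ LexLt d c := by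
  rw [lexLt_iff, not_lt] at h
  rcases h.eq_or_lt with h' | h'
  · left; exact MonomialOrder.lex.toSyn.injective h'
  · right; rwa [lexLt_iff]

theorem lexLt_asymm {M : ℕ} {c d : Fin M →₀ ℕ} (h : LexLt c d) : ¬ LexLt d c := by
  rw [lexLt_iff] at h ⊢
  exact h.asymm

theorem lexLt_trans {M : ℕ} {c d e : Fin M →₀ ℕ} (h : LexLt c d) (h' : LexLt d e) :
    LexLt c e := by
  rw [lexLt_iff] at *
  exact h.trans h'

theorem lexLt_irrefl {M : ℕ} {c : Fin M →₀ ℕ} : ¬ LexLt c c := by
  rw [lexLt_iff]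
  exact lt_irrefl _

theorem ld_eq {M : ℕ} {G : MvPolynomial (Fin M) ℂ} {e : Fin M →₀ ℕ} (he : coeff e G ≠ 0)
    (h : ∀ d, coeff d G ≠ 0 → ¬ LexLt e d) : ld G = e := by
  have hG : G ≠ 0 := by rintro rfl; simp at he
  rcases lexLt_or_eq (h _ (coeff_ld_ne_zero hG)) with h1 | h1
  · exact h1
  · exact absurd h1 (not_lexLt_of_coeff he)

theorem ld_cons {M : ℕ} {G : MvPolynomial (Fin (M + 1)) ℂ} {e : ℕ} (he : T e G ≠ 0)
    (hmax : ∀ k, e < k → T k G = 0) : ld G = Finsupp.cons e (ld (T e G)) := by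
  apply ld_eq
  · rw [← coeff_T]; exact coeff_ld_ne_zero he
  · rintro d hd ⟨j, hj1, hj2⟩
    have hd' : coeff (Finsupp.tail d) (T (d 0) G) ≠ 0 := by
      rw [coeff_T, Finsupp.cons_tail]; exact hd
    refine Fin.cases ?_ (fun j hj1 hj2 => ?_) j hj1 hj2
    · intro _ h
      rw [Finsupp.cons_zero] at h
      rw [hmax _ h, coeff_zero] at hd'
      exact hd' rfl
    · have h0 := hj1 0 (Fin.succ_pos j)
      rw [Finsupp.cons_zero] at h0
      rw [← h0] at hd'
      apply not_lexLt_of_coeff hd'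
      refine ⟨j, fun i hi => ?_, ?_⟩
      · have := hj1 i.succ (Fin.succ_lt_succ_iff.2 hi)
        rwa [Finsupp.cons_succ] at this
      · rwa [Finsupp.cons_succ] at hj2

theorem exists_top {M : ℕ} {G : MvPolynomial (Fin (M + 1)) ℂ} (hG : G ≠ 0) :
    ∃ e, T e G ≠ 0 ∧ ∀ k, e < k → T k G = 0 := by
  obtain ⟨B, hB⟩ := exists_T_eq_zero G
  obtain ⟨e, he, hmax⟩ := exists_max (P := fun k => T k G ≠ 0) B (by
    by_contra hcon
    push Not at hcon
    exact hG (eq_zero_of_T hcon)) (fun k hk hcon => hcon (hB k hk))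
  exact ⟨e, he, fun k hk => by by_contra hcon; exact hmax k hk hcon⟩

theorem eq_C_of_ld {M : ℕ} {G : MvPolynomial (Fin M) ℂ} (h : ld G = 0) : ∃ c, G = C c :=
  ⟨_, MonomialOrder.eq_C_of_degree_eq_zero h⟩

theorem ld_C {M : ℕ} (c : ℂ) : ld (C c : MvPolynomial (Fin M) ℂ) = 0 :=
  MonomialOrder.degree_C _

/-! ### symmetry -/

theorem coeff_of_sym {M : ℕ} {G : MvPolynomial (Fin M) ℂ} {σ : Equiv.Perm (Fin M)}
    (hσ : rename σ G = G) (d : Fin M →₀ ℕ) : coeff (Finsupp.mapDomain σ d) G = coeff d G := by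
  have := coeff_rename_mapDomain σ σ.injective G d
  rwa [hσ] at this

theorem ld_antitone {M : ℕ} {G : MvPolynomial (Fin M) ℂ} (hG : G ≠ 0) {l l' : Fin M}
    (hl : l < l') (hσ : rename (Equiv.swap l l') G = G) : ld G l' ≤ ld G l := by
  by_contra hlt
  push Not at hlt
  have h1 := coeff_of_sym hσ (ld G)
  have h2 : coeff (Finsupp.mapDomain (Equiv.swap l l') (ld G)) G ≠ 0 := by
    rw [h1]; exact coeff_ld_ne_zero hG
  apply not_lexLt_of_coeff h2
  have h3 : ∀ i, Finsupp.mapDomain (Equiv.swap l l') (ld G) i = ld G (Equiv.swap l l' i) := by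
    intro i
    have := Finsupp.mapDomain_apply (Equiv.injective (Equiv.swap l l')) (ld G)
      (Equiv.swap l l' i)
    rwa [Equiv.swap_apply_self] at this
  refine ⟨l, fun i hi => ?_, ?_⟩
  · rw [h3, Equiv.swap_apply_of_ne_of_ne hi.ne (hi.trans hl).ne]
  · rw [h3, Equiv.swap_apply_left]; exact hlt

/-- leading exponents of lowest systems -/
theorem lead_exp {a : ℕ} (ha : 1 ≤ a) (q : ℕ) : ∀ (m M : ℕ), m + q = M →
    ∀ (κ mm : Fin M → ℂ) (G : MvPolynomial (Fin M) ℂ) (N : ℕ),
    (∀ l : Fin M, (l : ℕ) < m → κ l = a ∧ mm l = 1) →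
    (∀ l : Fin M, m ≤ (l : ℕ) → κ l = 1 ∧ mm l = a) → G ≠ 0 → HS N 0 G →
    (∀ σ : Equiv.Perm (Fin M), (∀ l : Fin M, (l : ℕ) < m → σ l = l) → rename σ G = G) →
    Low κ mm G →
    (∀ l : Fin M, m ≤ (l : ℕ) → ld G l = 0) ∧
    (∀ l : Fin M, (l : ℕ) < m → ld G l ≠ 0 → (∀ l', l < l' → ld G l' = 0) →
      q + 2 ≤ ld G l) := by
  intro m
  induction m with
  | zero =>
    intro M hM κ mm G N _ h2 hG hHS hsym L
    have hq : q = M := by omega
    subst hq
    have h3 : κ = fun _ => 1 := funext fun l => (h2 l (Nat.zero_le _)).1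
    have h4 : mm = fun _ => (a : ℂ) := funext fun l => (h2 l (Nat.zero_le _)).2
    subst h3; subst h4
    obtain ⟨c, rfl⟩ := irr ha q G N (fun σ => hsym σ (fun l hl => absurd hl (Nat.not_lt_zero _)))
      hHS L
    refine ⟨fun l _ => by rw [ld_C]; rfl, fun l hl => absurd hl (Nat.not_lt_zero _)⟩
  | succ m ih =>
    intro M hM κ mm G N h1 h2 hG hHS hsym L
    obtain ⟨M', rfl⟩ : ∃ M', M = M' + 1 := ⟨M - 1, by omega⟩
    obtain ⟨e, he, hmax⟩ := exists_top hG
    have hHSe := hHS.T e
    have heN := hHSe.le he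
    have hIH := ih M' (by omega) (fun l => κ l.succ) (fun l => mm l.succ) (T e G) (N - (0 + e))
      (fun l hl => h1 l.succ (by simpa using hl)) (fun l hl => h2 l.succ (by simpa using hl))
      he (hHSe.shift heN) (by
        intro σ hσ
        rw [← T_rename, hsym]
        intro l
        refine Fin.cases ?_ (fun l => ?_) l
        · intro _; simp
        · intro hl
          rw [ext0_succ, hσ l (by simpa using hl)]) (L.top hmax)
    have hld := ld_cons he hmax
    refine ⟨?_, ?_⟩
    · intro l hl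
      revert hl
      refine Fin.cases ?_ (fun l => ?_) l
      · intro hl; simp at hl
      · intro hl
        rw [hld, Finsupp.cons_succ]
        exact hIH.1 l (by simpa using hl)
    · intro l
      refine Fin.cases ?_ (fun l => ?_) l
      · intro _ hne hz
        rw [hld, Finsupp.cons_zero] at hne ⊢
        have h0 : ld (T e G) = 0 := by
          ext l
          have := hz l.succ (Fin.succ_pos l)
          rwa [hld, Finsupp.cons_succ] at this
        obtain ⟨c, hc⟩ := eq_C_of_ld h0
        have hc0 : c ≠ 0 := by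
          rintro rfl; rw [C_0] at hc; exact he hc
        have hκ0 := h1 0 (by simp)
        have hane : (a : ℂ) ≠ 0 := by exact_mod_cast (by omega : a ≠ 0)
        -- the sum of masses
        have hsum : ∑ l : Fin M', mm l.succ = ((m + q * a : ℕ) : ℂ) := by
          have hval : ∀ l : Fin M', mm l.succ = (((if (l : ℕ) < m then 1 else a : ℕ)) : ℂ) := by
            intro l
            split_ifs with hl
            · rw [(h1 l.succ (by simpa using hl)).2]; simp
            · rw [(h2 l.succ (by simpa using Nat.le_of_not_lt hl)).2]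
          simp only [hval]
          rw [← Nat.cast_sum]
          congr 1
          have hM' : m + q = M' := by omega
          subst hM'
          rw [Fin.sum_univ_add]
          simp
        have hex := L.exponent hmax hc0 hc hne (by rw [hκ0.1]; exact hane)
          (by rw [hκ0.2]; exact one_ne_zero) (by
            rw [hκ0.2, hsum]
            exact_mod_cast (by omega : 1 + (m + q * a) ≠ 0))
        rw [hκ0.1, hκ0.2, hsum] at hex
        have hnat : a * e = m + q * a + 1 + a := by
          have : ((a * e : ℕ) : ℂ) = ((m + q * a + 1 + a : ℕ) : ℂ) := by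
            push_cast
            push_cast at hex
            linear_combination hex
          exact_mod_cast this
        by_contra hlt
        have hle : e ≤ q + 1 := by omega
        have : a * e ≤ a * (q + 1) := Nat.mul_le_mul_left a hle
        have h5 : a * (q + 1) = q * a + a := by ring
        omega
      · intro hl hne hz
        rw [hld, Finsupp.cons_succ] at hne ⊢
        refine hIH.2 l (by simpa using hl) hne ?_
        intro l' hl'
        have := hz l'.succ (Fin.succ_lt_succ_iff.2 hl')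
        rwa [hld, Finsupp.cons_succ] at this

end Pool.Agent.W_MP_13ae32_ag
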