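import Pool.Agent.W_MP_13ae32_ag.Upper

/-!
Lexicographically leading coefficients under the degree-preserving operators.
-/

open MvPolynomial Finset

set_option linter.unusedSectionVars false

namespace Pool.Agent.W_MP_13ae32_ag

variable {M : ℕ}

/-- all exponents of `p` are at most `e`. -/
def SLe (e : Fin M →₀ ℕ) (p : MvPolynomial (Fin M) ℂ) : Prop :=
  ∀ d, coeff d p ≠ 0 → ¬ LexLt e d

theorem SLe.iff {e : Fin M →₀ ℕ} {p : MvPolynomial (Fin M) ℂ} :
    SLe e p ↔ MonomialOrder.lex.toSyn (MonomialOrder.lex.degree p) ≤ MonomialOrder.lex.toSyn e := by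
  rw [MonomialOrder.degree_le_iff]
  constructor
  · intro h d hd
    have := h d (mem_support_iff.1 hd)
    rwa [lexLt_iff, not_lt] at this
  · intro h d hd
    rw [lexLt_iff, not_lt]
    exact h d (mem_support_iff.2 hd)

theorem SLe.zero (e : Fin M →₀ ℕ) : SLe e 0 := fun d hd => absurd (coeff_zero d) hd

theorem SLe.add {e : Fin M →₀ ℕ} {p q : MvPolynomial (Fin M) ℂ} (hp : SLe e p) (hq : SLe e q) :
    SLe e (p + q) := by
  intro d hd
  by_cases h : coeff d p = 0
  · apply hq; intro h'; apply hd; rw [coeff_add, h, h', add_zero]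
  · exact hp d h

theorem SLe.C_mul {e : Fin M →₀ ℕ} {p : MvPolynomial (Fin M) ℂ} (c : ℂ) (hp : SLe e p) :
    SLe e (C c * p) := by
  intro d hd
  apply hp
  intro h; apply hd; rw [coeff_C_mul, h, mul_zero]

theorem SLe.sub {e : Fin M →₀ ℕ} {p q : MvPolynomial (Fin M) ℂ} (hp : SLe e p) (hq : SLe e q) :
    SLe e (p - q) := by
  have := hp.add (hq.C_mul (-1))
  convert this using 1
  simp [sub_eq_add_neg]

theorem SLe.sum {e : Fin M →₀ ℕ} {α : Type*} (s : Finset α) (f : α → MvPolynomial (Fin M) ℂ)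
    (h : ∀ x ∈ s, SLe e (f x)) : SLe e (∑ x ∈ s, f x) := by
  classical
  induction s using Finset.induction_on with
  | empty => simpa using SLe.zero e
  | insert x s hx ih =>
    rw [Finset.sum_insert hx]
    exact (h x (mem_insert_self _ _)).add (ih fun y hy => h y (mem_insert_of_mem hy))

theorem coeff_X_mul_pderiv (l : Fin M) (p : MvPolynomial (Fin M) ℂ) (d : Fin M →₀ ℕ) :
    coeff d (X l * pderiv l p) = (d l : ℂ) * coeff d p := by
  rw [coeff_X_mul']
  split_ifs with hl
  · have hpos : d l ≠ 0 := Finsupp.mem_support_iff.1 hl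
    have hd : (d - Finsupp.single l 1) + Finsupp.single l 1 = d := by
      ext j
      simp only [Finsupp.coe_add, Finsupp.coe_tsub, Pi.add_apply, Pi.sub_apply]
      by_cases hj : l = j
      · subst hj; simp; omega
      · simp [hj]
    rw [coeff_pderiv, hd]
    have : (((d - Finsupp.single l 1 : Fin M →₀ ℕ) l : ℕ) : ℂ) + 1 = d l := by
      simp only [Finsupp.coe_tsub, Pi.sub_apply, Finsupp.single_eq_same]
      rw [Nat.cast_sub (by omega)]; simp
    rw [this]; ring
  · have : d l = 0 := Finsupp.notMem_support_iff.1 hl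
    rw [this]; simp

theorem SLe.X_mul_pderiv {e : Fin M →₀ ℕ} {p : MvPolynomial (Fin M) ℂ} (hp : SLe e p)
    (l : Fin M) : SLe e (X l * pderiv l p) := by
  intro d hd
  apply hp
  intro h; apply hd; rw [coeff_X_mul_pderiv, h, mul_zero]

theorem lexLt_single {l l' : Fin M} (h : l < l') :
    MonomialOrder.lex.toSyn (Finsupp.single l' 1 : Fin M →₀ ℕ) <
      MonomialOrder.lex.toSyn (Finsupp.single l 1) := by
  rw [← lexLt_iff]
  refine ⟨l, fun i hi => ?_, ?_⟩
  · rw [Finsupp.single_eq_of_ne (hi.trans h).ne, Finsupp.single_eq_of_ne hi.ne]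
  · rw [Finsupp.single_eq_of_ne h.ne, Finsupp.single_eq_same]; exact one_pos

/-- quotient by `X l - X l'`, `l` before `l'` -/
theorem quot_lt {l l' : Fin M} (hl : l < l') {P Q : MvPolynomial (Fin M) ℂ}
    (h : (X l - X l') * Q = P) {e : Fin M →₀ ℕ} (hP : SLe e P) :
    SLe e (X l * Q) ∧ coeff e (X l * Q) = coeff e P := by
  by_cases hQ : Q = 0
  · subst hQ
    rw [mul_zero] at h ⊢
    rw [← h]
    exact ⟨SLe.zero e, rfl⟩
  have hd1 : MonomialOrder.lex.degree (X l * Q) =
      Finsupp.single l 1 + MonomialOrder.lex.degree Q := by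
    rw [MonomialOrder.degree_mul (X_ne_zero l) hQ, MonomialOrder.degree_X]
  have hd2 : MonomialOrder.lex.degree (X l' * Q) =
      Finsupp.single l' 1 + MonomialOrder.lex.degree Q := by
    rw [MonomialOrder.degree_mul (X_ne_zero l') hQ, MonomialOrder.degree_X]
  have hlt : MonomialOrder.lex.toSyn (MonomialOrder.lex.degree (X l' * Q)) <
      MonomialOrder.lex.toSyn (MonomialOrder.lex.degree (X l * Q)) := by
    rw [hd1, hd2, map_add, map_add]
    exact add_lt_add_left (lexLt_single hl) _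
  rw [sub_mul] at h
  have hdeg := MonomialOrder.degree_sub_of_lt hlt
  have hlc := MonomialOrder.leadingCoeff_sub_of_lt hlt
  rw [h] at hdeg hlc
  have h1 : SLe e (X l * Q) := by
    rw [SLe.iff, ← hdeg, ← SLe.iff]; exact hP
  refine ⟨h1, ?_⟩
  rcases (SLe.iff.1 h1).eq_or_lt with h2 | h2
  · have h3 : MonomialOrder.lex.degree (X l * Q) = e := MonomialOrder.lex.toSyn.injective h2
    have h4 : MonomialOrder.lex.degree P = e := by rw [hdeg, h3]
    rw [← h3]
    conv_rhs => rw [h3, ← h4]
    exact hlc.symm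
  · rw [MonomialOrder.coeff_eq_zero_of_lt h2]
    rw [← hdeg] at h2
    rw [MonomialOrder.coeff_eq_zero_of_lt h2]

/-- quotient by `X l - X l'`, `l'` before `l` -/
theorem quot_gt {l l' : Fin M} (hl : l' < l) {P Q : MvPolynomial (Fin M) ℂ}
    (h : (X l - X l') * Q = P) {e : Fin M →₀ ℕ} (hP : SLe e P) :
    SLe e (X l * Q) ∧ coeff e (X l * Q) = 0 := by
  by_cases hQ : Q = 0
  · subst hQ
    rw [mul_zero]
    exact ⟨SLe.zero e, by simp⟩
  have hP' : (X l' - X l) * (-Q) = P := by rw [← h]; ring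
  have hd1 : MonomialOrder.lex.degree (X l * Q) =
      Finsupp.single l 1 + MonomialOrder.lex.degree Q := by
    rw [MonomialOrder.degree_mul (X_ne_zero l) hQ, MonomialOrder.degree_X]
  have hd2 : MonomialOrder.lex.degree (X l' * (-Q)) =
      Finsupp.single l' 1 + MonomialOrder.lex.degree Q := by
    rw [mul_neg, MonomialOrder.degree_neg, MonomialOrder.degree_mul (X_ne_zero l') hQ,
      MonomialOrder.degree_X]
  have hlt : MonomialOrder.lex.toSyn (MonomialOrder.lex.degree (X l * Q)) <
      MonomialOrder.lex.toSyn (MonomialOrder.lex.degree (X l' * (-Q))) := by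
    rw [hd1, hd2, map_add, map_add]
    exact add_lt_add_left (lexLt_single hl) _
  have h1 := SLe.iff.1 (quot_lt hl hP' hP).1
  have h2 := hlt.trans_le h1
  exact ⟨SLe.iff.2 h2.le, MonomialOrder.coeff_eq_zero_of_lt h2⟩

/-- the leading coefficient recursion, one step -/
theorem IsD.lead {κ m : Fin M → ℂ} {h h' : Fin M → MvPolynomial (Fin M) ℂ}
    (H : IsD κ m h h') {e : Fin M →₀ ℕ} (he : ∀ l, SLe e (h l)) (l : Fin M) :
    SLe e (X l * h' l) ∧ coeff e (X l * h' l) =
      (κ l * e l - ∑ l' ∈ univ.filter (fun l' => l < l'), m l') * coeff e (h l) +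
        ∑ l' ∈ univ.filter (fun l' => l < l'), m l' * coeff e (h l') := by
  obtain ⟨Q, hQ, hh⟩ := H
  have hP : ∀ l', SLe e (h l - h l') := fun l' => (he l).sub (he l')
  have hexp : X l * h' l = C (κ l) * (X l * pderiv l (h l)) -
      ∑ l' ∈ univ.erase l, C (m l') * (X l * Q l l') := by
    rw [hh l, mul_sub, Finset.mul_sum]
    congr 1
    · ring
    · exact Finset.sum_congr rfl fun _ _ => by ring
  have hq1 : ∀ l', l < l' → SLe e (X l * Q l l') ∧
      coeff e (X l * Q l l') = coeff e (h l) - coeff e (h l') := fun l' hl' => by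
    have := quot_lt hl' (hQ l l') (hP l')
    rwa [coeff_sub] at this
  have hq2 : ∀ l', l' < l → SLe e (X l * Q l l') ∧ coeff e (X l * Q l l') = 0 :=
    fun l' hl' => quot_gt hl' (hQ l l') (hP l')
  rw [hexp]
  refine ⟨?_, ?_⟩
  · apply SLe.sub
    · exact ((he l).X_mul_pderiv l).C_mul _
    · apply SLe.sum
      intro l' hl'
      apply SLe.C_mul
      rcases lt_or_gt_of_ne (Finset.ne_of_mem_erase hl').symm with h1 | h1
      · exact (hq1 l' h1).1
      · exact (hq2 l' h1).1
  · rw [coeff_sub, coeff_C_mul, coeff_X_mul_pderiv, coeff_sum]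
    have h1 : ∑ l' ∈ univ.erase l, coeff e (C (m l') * (X l * Q l l')) =
        ∑ l' ∈ univ.filter (fun l' => l < l'), m l' * (coeff e (h l) - coeff e (h l')) := by
      rw [← Finset.sum_filter_add_sum_filter_not (univ.erase l) (fun l' => l < l')]
      have h2 : ∑ l' ∈ (univ.erase l).filter (fun l' => ¬ l < l'),
          coeff e (C (m l') * (X l * Q l l')) = 0 := by
        apply Finset.sum_eq_zero
        intro l' hl'
        simp only [mem_filter, mem_erase, mem_univ, and_true, not_lt] at hl'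
        rw [coeff_C_mul, (hq2 l' (lt_of_le_of_ne hl'.2 hl'.1)).2, mul_zero]
      rw [h2, add_zero]
      have h3 : (univ.erase l).filter (fun l' => l < l') = univ.filter (fun l' => l < l') := by
        ext l'
        simp only [mem_filter, mem_erase, mem_univ, and_true, true_and]
        exact ⟨fun h => h.2, fun h => ⟨h.ne', h⟩⟩
      rw [h3]
      apply Finset.sum_congr rfl
      intro l' hl'
      rw [coeff_C_mul, (hq1 l' (by simpa using hl')).2]
    rw [h1]
    simp only [mul_sub, Finset.sum_sub_distrib, ← Finset.sum_mul]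
    ring

/-- the eigenvalue recursion -/
noncomputable def rho (ξ m : Fin M → ℂ) : ℕ → Fin M → ℂ
  | 0, _ => 1
  | k + 1, l => ξ l * rho ξ m k l + ∑ l' ∈ univ.filter (fun l' => l < l'), m l' * rho ξ m k l'

/-- `ξ` -/
noncomputable def xi (κ m : Fin M → ℂ) (e : Fin M →₀ ℕ) (l : Fin M) : ℂ :=
  κ l * e l - ∑ l' ∈ univ.filter (fun l' => l < l'), m l'

theorem lead_chain {κ m : Fin M → ℂ} {K : ℕ → Fin M → MvPolynomial (Fin M) ℂ}
    {G : MvPolynomial (Fin M) ℂ} (h0 : ∀ l, K 0 l = G)
    (hK : ∀ k, ∃ h', IsD κ m (K k) h' ∧ ∀ l, K (k + 1) l = X l * h' l)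
    {e : Fin M →₀ ℕ} (he : SLe e G) (k : ℕ) :
    ∀ l, SLe e (K k l) ∧ coeff e (K k l) = rho (xi κ m e) m k l * coeff e G := by
  induction k with
  | zero => intro l; rw [h0]; exact ⟨he, by simp [rho]⟩
  | succ k ih =>
    intro l
    obtain ⟨h', hD, hK'⟩ := hK k
    rw [hK']
    have h1 := hD.lead (fun l => (ih l).1) l
    refine ⟨h1.1, ?_⟩
    rw [h1.2, (ih l).2]
    simp only [(ih _).2, rho, xi, add_mul, Finset.sum_mul]
    congr 1
    · ring
    · exact Finset.sum_congr rfl fun _ _ => by ring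

end Pool.Agent.W_MP_13ae32_ag
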