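import Pool.Agent.W_MP_13ae32_ag.PowSer
import Pool.Agent.W_MP_13ae32_ag.Comb

/-!
The lower bound: existence of symmetric polynomials vanishing on clusters.
-/

open MvPolynomial Finset

set_option linter.unusedSectionVars false

namespace Pool.Agent.W_MP_13ae32_ag

section

variable {ι ν : Type*} [DecidableEq ι] [Fintype ι] [DecidableEq ν] [Fintype ν]

/-- degree-preserving iterates -/
noncomputable def iterX (a : ℕ) (g : MvPolynomial ι ℂ) : ℕ → ι → MvPolynomial ι ℂ
  | 0 => fun _ => g
  | r + 1 => fun i => X i * Dun (a : ℂ) 1 (iterX a g r) i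

theorem iterX_equivar (a : ℕ) {g : MvPolynomial ι ℂ}
    (hg : ∀ σ : Equiv.Perm ι, rename σ g = g) : ∀ r, Equivar (iterX a g r)
  | 0 => fun σ _ => hg σ
  | r + 1 => ((iterX_equivar a hg r).Dun _ _).mulX

theorem iterX_degB (a : ℕ) {g : MvPolynomial ι ℂ} {b : ℕ} (h : DegB b g) :
    ∀ r l, DegB b (iterX a g r l)
  | 0 => fun _ => h
  | r + 1 => fun l => DegB.X_mul_Dun (iterX_degB a h r) l

end

/-- restricted chain -/
theorem lead_iterX {n M a : ℕ} (ha : 1 ≤ a) (φ : Fin n → Fin M) (s : Fin M → Fin n)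
    (hs : ∀ l, φ (s l) = l) (hfib : ∀ l, fib φ l = 1 ∨ fib φ l = a)
    {g : MvPolynomial (Fin n) ℂ} (hg : ∀ σ : Equiv.Perm (Fin n), rename σ g = g)
    {e : Fin M →₀ ℕ} (he : SLe e (rename φ g)) (k : ℕ) :
    SLe e (rename φ (∑ i, iterX a g k i)) ∧
      coeff e (rename φ (∑ i, iterX a g k i)) =
        rr (xi (fun l => (a : ℂ) / (fib φ l : ℂ)) (fun l => (fib φ l : ℂ)) e)
          (fun l => (fib φ l : ℂ)) k * coeff e (rename φ g) := by
  have h1 := lead_chain (κ := fun l => (a : ℂ) / (fib φ l : ℂ)) (m := fun l => (fib φ l : ℂ))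
    (K := fun k l => rename φ (iterX a g k (s l))) (G := rename φ g) (fun l => rfl)
    (fun k => ⟨_, isD_restrict ha φ s hs hfib (iterX_equivar a hg k), fun l => by
      simp only [iterX, map_mul, rename_X, hs]⟩) he k
  rw [trace_restrict hs (iterX_equivar a hg k)]
  refine ⟨SLe.sum _ _ fun l _ => (h1 l).1.C_mul _, ?_⟩
  rw [coeff_sum, rr, Finset.sum_mul]
  apply Finset.sum_congr rfl
  intro l _
  rw [coeff_C_mul, (h1 l).2]
  ring

theorem ld_le_of_SLe {M : ℕ} {e : Fin M →₀ ℕ} {p : MvPolynomial (Fin M) ℂ} (hp : p ≠ 0)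
    (h : SLe e p) (h0 : coeff e p = 0) : LexLt (ld p) e := by
  rcases lexLt_or_eq (h _ (coeff_ld_ne_zero hp)) with h1 | h1
  · rw [← h1] at h0
    exact absurd h0 (coeff_ld_ne_zero hp)
  · exact h1

theorem SLe_ld {M : ℕ} (p : MvPolynomial (Fin M) ℂ) : SLe (ld p) p := fun _ hd =>
  not_lexLt_of_coeff hd

/-- The eigenvalues agree. -/
theorem eigen_agree {n M a b : ℕ} (ha : 1 ≤ a) (φ : Fin n → Fin M) (s : Fin M → Fin n)
    (hs : ∀ l, φ (s l) = l) (hfib : ∀ l, fib φ l = 1 ∨ fib φ l = a)
    (hinj : ∀ g : MvPolynomial (Fin n) ℂ, (∀ σ : Equiv.Perm (Fin n), rename σ g = g) →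
      DegB b g → rename φ g = 0 → g = 0)
    (lam : Fin n →₀ ℕ) (hlam : ∃ g : MvPolynomial (Fin n) ℂ,
      (∀ σ : Equiv.Perm (Fin n), rename σ g = g) ∧ DegB b g ∧ g ≠ 0 ∧ ld g = lam) :
    ∃ e : Fin M →₀ ℕ, ∀ k,
      rr (xi (fun _ => (a : ℂ)) (fun _ => 1) lam) (fun _ => 1) k =
      rr (xi (fun l => (a : ℂ) / (fib φ l : ℂ)) (fun l => (fib φ l : ℂ)) e)
          (fun l => (fib φ l : ℂ)) k := by
  set S : Set (MonomialOrder.lex (σ := Fin M)).syn := {x | ∃ g : MvPolynomial (Fin n) ℂ,
    (∀ σ : Equiv.Perm (Fin n), rename σ g = g) ∧ DegB b g ∧ g ≠ 0 ∧ ld g = lam ∧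
      MonomialOrder.lex.toSyn (ld (rename φ g)) = x} with hS
  have hne : S.Nonempty := by
    obtain ⟨g, h1, h2, h3, h4⟩ := hlam
    exact ⟨_, g, h1, h2, h3, h4, rfl⟩
  obtain ⟨x, hx, hmin⟩ := WellFounded.has_min (MonomialOrder.wellFoundedLT_syn (MonomialOrder.lex (σ := Fin M))).wf S hne
  obtain ⟨g, h1, h2, h3, h4, h5⟩ := hx
  set e := ld (rename φ g) with he
  refine ⟨e, fun k => ?_⟩
  by_contra hcon
  set r := rr (xi (fun _ => (a : ℂ)) (fun _ => 1) lam) (fun _ => 1) k with hr
  set r' := rr (xi (fun l => (a : ℂ) / (fib φ l : ℂ)) (fun l => (fib φ l : ℂ)) e)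
          (fun l => (fib φ l : ℂ)) k with hr'
  set g' := (∑ i, iterX a g k i) - C r' * g with hg'
  have hid : ∀ l : Fin n, fib (id : Fin n → Fin n) l = 1 := by
    intro l
    unfold fib
    simp only [id]
    rw [Finset.filter_eq' univ l]
    simp
  have hA := lead_iterX ha (id : Fin n → Fin n) id (fun _ => rfl) (fun l => Or.inl (hid l)) h1
    (e := lam) (by rw [rename_id, AlgHom.id_apply, ← h4]; exact SLe_ld g) k
  have hB := lead_iterX ha φ s hs hfib h1 (e := e) (SLe_ld _) k
  simp only [rename_id, AlgHom.id_apply, hid, Nat.cast_one, div_one] at hA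
  rw [← hr] at hA
  rw [← hr'] at hB
  have h1' : ∀ σ : Equiv.Perm (Fin n), rename σ g' = g' := by
    intro σ
    rw [hg', map_sub, map_mul, rename_C, h1, trace_sym (iterX_equivar a h1 k)]
  have h2' : DegB b g' := (DegB.sum _ _ fun i _ => iterX_degB a h2 k i).sub (h2.C_mul _)
  have hc : coeff lam g' = (r - r') * coeff lam g := by
    rw [hg', coeff_sub, coeff_C_mul, hA.2]; ring
  have hc0 : coeff lam g ≠ 0 := by rw [← h4]; exact coeff_ld_ne_zero h3
  have hc' : coeff lam g' ≠ 0 := by
    rw [hc]; exact mul_ne_zero (sub_ne_zero.2 hcon) hc0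
  have h3' : g' ≠ 0 := by rintro h; rw [h] at hc'; exact hc' (coeff_zero _)
  have hS1 : SLe lam g' := hA.1.sub ((by rw [← h4]; exact SLe_ld g : SLe lam g).C_mul _)
  have h4' : ld g' = lam := ld_eq hc' hS1
  have hgφ : rename φ g' ≠ 0 := fun h => h3' (hinj g' h1' h2' h)
  have hS2 : SLe e (rename φ g') := by
    rw [hg', map_sub, map_mul, rename_C]
    exact hB.1.sub ((SLe_ld _).C_mul _)
  have hc2 : coeff e (rename φ g') = 0 := by
    rw [hg', map_sub, map_mul, rename_C, coeff_sub, coeff_C_mul, hB.2]; ring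
  have hlt := ld_le_of_SLe hgφ hS2 hc2
  rw [lexLt_iff] at hlt
  apply hmin (MonomialOrder.lex.toSyn (ld (rename φ g'))) ⟨g', h1', h2', h3', h4', rfl⟩
  rw [← h5]
  exact hlt

/-- the exponent -/
noncomputable def lam (n a j p : ℕ) : Fin n →₀ ℕ :=
  Finsupp.equivFunOnFinite.symm fun i =>
    if (i : ℕ) < (a - 1) * p then j + 1 + 2 * (p - 1 - (i : ℕ) / (a - 1)) else 0

theorem lam_apply (n a j p : ℕ) (i : Fin n) : lam n a j p i =
    if (i : ℕ) < (a - 1) * p then j + 1 + 2 * (p - 1 - (i : ℕ) / (a - 1)) else 0 := rfl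

theorem lam_antitone (n a j p : ℕ) {i i' : Fin n} (h : i ≤ i') :
    lam n a j p i' ≤ lam n a j p i := by
  have h' : (i : ℕ) ≤ i' := h
  rw [lam_apply, lam_apply]
  have h2 : (i : ℕ) / (a - 1) ≤ (i' : ℕ) / (a - 1) := Nat.div_le_div_right h'
  split_ifs with h3 h4 h4
  · omega
  · omega
  · omega
  · exact le_rfl

theorem lam_le {n a j p b : ℕ} (hb : j + 2 * p ≤ b + 1) (i : Fin n) :
    lam n a j p i ≤ b := by
  rw [lam_apply]
  split_ifs with h
  · have : 0 < p := by
      rcases Nat.eq_zero_or_pos p with h0 | h0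
      · subst h0; simp at h
      · exact h0
    have h2 := Nat.sub_le (p - 1) ((i : ℕ) / (a - 1))
    omega
  · omega

theorem exists_sym_lead {n b : ℕ} (e : Fin n →₀ ℕ) (hanti : ∀ i i' : Fin n, i ≤ i' → e i' ≤ e i)
    (hb : ∀ i, e i ≤ b) : ∃ g : MvPolynomial (Fin n) ℂ,
      (∀ σ : Equiv.Perm (Fin n), rename σ g = g) ∧ DegB b g ∧ g ≠ 0 ∧ ld g = e := by
  set g : MvPolynomial (Fin n) ℂ := ∑ σ : Equiv.Perm (Fin n), rename σ (monomial e 1) with hg
  have hcoeff : ∀ d, coeff d g =
      ((univ.filter (fun σ : Equiv.Perm (Fin n) => Finsupp.mapDomain σ e = d)).card : ℂ) := by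
    intro d
    rw [hg, coeff_sum, Finset.card_filter]
    push_cast
    apply Finset.sum_congr rfl
    intro σ _
    rw [rename_monomial, coeff_monomial]
  have hex : ∀ d, coeff d g ≠ 0 → ∃ σ : Equiv.Perm (Fin n), Finsupp.mapDomain σ e = d := by
    intro d hd
    rw [hcoeff] at hd
    have : (univ.filter (fun σ : Equiv.Perm (Fin n) => Finsupp.mapDomain σ e = d)).card ≠ 0 := by
      exact_mod_cast hd
    obtain ⟨σ, hσ⟩ := Finset.card_pos.1 (Nat.pos_of_ne_zero this)
    exact ⟨σ, by simpa using hσ⟩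
  have hmd : ∀ (σ : Equiv.Perm (Fin n)) (i : Fin n),
      Finsupp.mapDomain σ e i = e (σ.symm i) := by
    intro σ i
    have := Finsupp.mapDomain_apply (Equiv.injective σ) e (σ.symm i)
    rwa [Equiv.apply_symm_apply] at this
  have hc : coeff e g ≠ 0 := by
    rw [hcoeff]
    have : (univ.filter (fun σ : Equiv.Perm (Fin n) => Finsupp.mapDomain σ e = e)).card ≠ 0 := by
      apply Finset.card_ne_zero_of_mem (a := 1)
      simp only [mem_filter, mem_univ, true_and]
      ext i
      rw [hmd]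
      rfl
    exact_mod_cast this
  refine ⟨g, ?_, ?_, ?_, ?_⟩
  · intro σ
    rw [hg, map_sum]
    simp only [rename_rename]
    rw [← Equiv.sum_comp (Equiv.mulLeft σ) (fun τ : Equiv.Perm (Fin n) =>
      rename τ (monomial e (1 : ℂ)))]
    rfl
  · apply DegB.of_coeff
    intro d hd i
    obtain ⟨σ, rfl⟩ := hex d hd
    rw [hmd]
    exact hb _
  · rintro h; rw [h] at hc; exact hc (coeff_zero _)
  · apply ld_eq hc
    rintro d hd ⟨j, hj1, hj2⟩
    obtain ⟨σ, rfl⟩ := hex d hd
    set v := Finsupp.mapDomain σ e j with hv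
    have h1 : (univ.filter (fun i => v ≤ e i)).card =
        (univ.filter (fun i => v ≤ Finsupp.mapDomain σ e i)).card := by
      refine Finset.card_bij (fun i _ => σ i) ?_ ?_ ?_
      · intro i hi
        simp only [mem_filter, mem_univ, true_and] at hi ⊢
        rw [hmd, Equiv.symm_apply_apply]; exact hi
      · intro i _ i' _ h; exact σ.injective h
      · intro i hi
        simp only [mem_filter, mem_univ, true_and] at hi
        refine ⟨σ.symm i, ?_, by simp⟩
        simp only [mem_filter, mem_univ, true_and]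
        rw [← hmd]; exact hi
    have h2 : insert j (univ.filter (fun i => v ≤ e i)) ⊆
        univ.filter (fun i => v ≤ Finsupp.mapDomain σ e i) := by
      intro i hi
      rw [mem_insert] at hi
      simp only [mem_filter, mem_univ, true_and] at hi ⊢
      rcases hi with rfl | hi
      · exact le_rfl
      · have hlt : i < j := by
          by_contra hge
          push Not at hge
          have := hanti j i hge
          omega
        rw [← hj1 i hlt]; exact hi
    have h3 : j ∉ univ.filter (fun i => v ≤ e i) := by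
      simp only [mem_filter, mem_univ, true_and, not_le]
      exact hj2
    have h4 := Finset.card_le_card h2
    rw [Finset.card_insert_of_notMem h3] at h4
    omega

theorem card_filter_lt (n k : ℕ) (h : k ≤ n) :
    (univ.filter (fun i : Fin n => ¬ (i : ℕ) < k)).card = n - k := by
  have h1 := Finset.card_filter_add_card_filter_not (s := (univ : Finset (Fin n)))
    (fun i : Fin n => (i : ℕ) < k)
  have h2 : (univ.filter (fun i : Fin n => (i : ℕ) < k)).card = k := by
    rcases h.eq_or_lt with rfl | hlt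
    · rw [Finset.filter_true_of_mem (fun i _ => i.2)]; simp
    · have : univ.filter (fun i : Fin n => (i : ℕ) < k) = Finset.Iio (⟨k, hlt⟩ : Fin n) := by
        ext i
        simp [Fin.lt_def]
      rw [this, Fin.card_Iio]
  rw [Finset.card_univ, Fintype.card_fin] at h1
  omega

theorem card_gt (n : ℕ) (l : Fin n) :
    (univ.filter (fun l' : Fin n => l < l')).card = n - 1 - l := by
  have : univ.filter (fun l' : Fin n => l < l') = Finset.Ioi l := by ext; simp
  rw [this, Fin.card_Ioi]

theorem lower_ge {n a b j p : ℕ} (ha : 2 ≤ a) (hj : 1 ≤ j) (hp1 : 1 ≤ p)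
    (hb : j + 2 * p ≤ b + 1) (hn : n + 1 = j * a + (a - 1) * p) :
    ∃ g : MvPolynomial (Fin n) ℂ, (∀ σ : Equiv.Perm (Fin n), rename σ g = g) ∧ DegB b g ∧
      Van a j g ∧ g ≠ 0 := by
  by_contra hcon
  push Not at hcon
  obtain ⟨g0, hg1, hg2, hg3, hg4⟩ := exists_sym_lead (b := b) (lam n a j p)
    (fun i i' h => lam_antitone n a j p h) (fun i => lam_le hb i)
  have hnv : ¬ Van a j g0 := fun h => hg3 (hcon g0 hg1 hg2 h)
  obtain ⟨m, hmn, φ, hφ1, hφ2, -⟩ := exists_std hnv
  have hfib : ∀ l, fib φ l = 1 ∨ fib φ l = a := by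
    intro l
    rcases Nat.lt_or_ge (l : ℕ) m with h | h
    · exact Or.inl (hφ1 l h)
    · exact Or.inr (hφ2 l h)
  have hsurj : ∀ l, ∃ i, φ i = l := by
    intro l
    have : 0 < fib φ l := by
      rcases hfib l with h | h <;> omega
    obtain ⟨i, hi⟩ := Finset.card_pos.1 this
    exact ⟨i, by simpa using hi⟩
  choose s hs using hsurj
  have hinj : ∀ g : MvPolynomial (Fin n) ℂ, (∀ σ : Equiv.Perm (Fin n), rename σ g = g) →
      DegB b g → rename φ g = 0 → g = 0 := by
    intro g h1 h2 h3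
    by_contra hne
    have hv : ¬ Van a j g := fun h => hne (hcon g h1 h2 h)
    obtain ⟨m', hmn', ψ, hψ1, hψ2, hψ3⟩ := exists_std hv
    have hmm : m' = m := by omega
    subst hmm
    apply hψ3
    rw [rename_eq_of_fib (φ := ψ) (ψ := φ) _ h1]
    · exact h3
    · intro y
      rcases Nat.lt_or_ge (y : ℕ) m' with h | h
      · rw [hψ1 y h, hφ1 y h]
      · rw [hψ2 y h, hφ2 y h]
  obtain ⟨e, he⟩ := eigen_agree (b := b) (by omega : 1 ≤ a) φ s hs hfib hinj (lam n a j p)
    ⟨g0, hg1, hg2, hg3, hg4⟩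
  have ha0 : (a : ℂ) ≠ 0 := by exact_mod_cast (by omega : a ≠ 0)
  -- integer data
  set x : Fin n → ℤ := fun l => a * (lam n a j p l : ℤ) - ((n - 1 - l : ℕ) : ℤ) with hx
  set κ' : Fin (m + j) → ℤ := fun l => if fib φ l = 1 then a else 1 with hκ'
  set x' : Fin (m + j) → ℤ := fun l => κ' l * (e l : ℤ) -
    ∑ l' ∈ univ.filter (fun l' => l < l'), (fib φ l' : ℤ) with hx'
  have hxi : (fun l => ((x l : ℤ) : ℂ)) = xi (fun _ => (a : ℂ)) (fun _ => 1) (lam n a j p) := by
    funext l
    simp only [hx, xi]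
    rw [Finset.sum_const, card_gt]
    push_cast
    simp
  have hxi' : (fun l => ((x' l : ℤ) : ℂ)) =
      xi (fun l => (a : ℂ) / (fib φ l : ℂ)) (fun l => (fib φ l : ℂ)) e := by
    funext l
    simp only [hx', xi, hκ']
    push_cast
    congr 2
    rcases hfib l with h | h
    · rw [h]; simp
    · rw [h, div_self ha0, if_neg (by omega)]
  have hid := count_identity x (fun _ => 1) x' (fun l => (fib φ l : ℤ)) (by
    intro k
    rw [hxi, hxi']
    have h1 : (fun _ : Fin n => ((1 : ℤ) : ℂ)) = fun _ => 1 := by funext; simp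
    have h2 : (fun l : Fin (m + j) => (((fib φ l : ℕ) : ℤ) : ℂ)) =
      fun l => ((fib φ l : ℕ) : ℂ) := by funext; simp
    rw [h1, h2]
    exact he k)
  -- the values of x
  have hval : ∀ l : Fin n, ((l : ℕ) < (a - 1) * p → 3 ≤ x l ∧
      x l % (a + 1) ≠ 1 ∧ x l % (a + 1) ≠ 2) ∧ (¬ (l : ℕ) < (a - 1) * p → x l ≤ 0) := by
    intro l
    refine ⟨fun hl => ?_, fun hl => ?_⟩
    · set q := (l : ℕ) / (a - 1) with hq
      set t := (l : ℕ) % (a - 1) with ht
      have hlt : (l : ℕ) = (a - 1) * q + t := (Nat.div_add_mod _ _).symm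
      have ht' : t < a - 1 := Nat.mod_lt _ (by omega)
      have hq' : q < p := by
        rw [hq]
        exact Nat.div_lt_of_lt_mul hl
      obtain ⟨c, hc⟩ : ∃ c, p = q + c + 1 := ⟨p - q - 1, by omega⟩
      obtain ⟨a', rfl⟩ : ∃ a', a = a' + 1 := ⟨a - 1, by omega⟩
      have hlam : lam n (a' + 1) j p l = j + 1 + 2 * c := by
        rw [lam_apply, if_pos hl, ← hq]
        congr 2
        omega
      have hxl : x l = ((a' + 1 : ℕ) + 1 : ℤ) * c + (3 + t) := by
        simp only [hx]
        rw [hlam]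
        have h1 : ((n - 1 - (l : ℕ) : ℕ) : ℤ) = (n : ℤ) - 1 - (l : ℕ) := by
          have := l.2
          omega
        have h2 : (n : ℤ) = j * (a' + 1) + a' * p - 1 := by
          have : ((n + 1 : ℕ) : ℤ) = ((j * (a' + 1) + (a' + 1 - 1) * p : ℕ) : ℤ) := by rw [hn]
          rw [Nat.add_sub_cancel] at this
          push_cast at this
          linarith
        have h3 : ((l : ℕ) : ℤ) = a' * q + t := by
          have : ((l : ℕ) : ℤ) = (((a' + 1 - 1) * q + t : ℕ) : ℤ) := by rw [← hlt]
          rw [Nat.add_sub_cancel] at this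
          push_cast at this
          exact this
        have h4 : (p : ℤ) = q + c + 1 := by rw [hc]; push_cast; ring
        rw [h1, h2, h3, h4]
        push_cast
        ring
      have hc0 : (0 : ℤ) ≤ ((a' + 1 : ℕ) + 1 : ℤ) * c := by positivity
      have ht0 : (0 : ℤ) ≤ t := by positivity
      have htu : (t : ℤ) < a' := by
        have : t < a' := by simpa using ht'
        exact_mod_cast this
      refine ⟨by rw [hxl]; linarith, ?_⟩
      rcases (by omega : (t : ℤ) + 1 < a' ∨ (t : ℤ) + 1 = a') with h | h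
      · have : x l % (((a' + 1 : ℕ) : ℤ) + 1) = 3 + t ∨
            x l % (((a' + 1 : ℕ) : ℤ) + 1) = 0 := by
          left
          rw [hxl, add_comm, Int.add_mul_emod_self_left, Int.emod_eq_of_lt]
          · omega
          · push_cast; omega
        omega
      · have : x l % (((a' + 1 : ℕ) : ℤ) + 1) = 0 := by
          rw [hxl, add_comm, Int.add_mul_emod_self_left]
          have : (3 + t : ℤ) = ((a' + 1 : ℕ) : ℤ) + 1 := by push_cast; omega
          rw [this, Int.emod_self]
        omega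
    · simp only [hx]
      rw [lam_apply, if_neg hl]
      push_cast
      omega
  refine comb_contra (n := n) (M := m + j) (j := j) ha x x' (fun l => (fib φ l : ℤ)) ?_ hid ?_ ?_ ?_
  · intro l
    rcases hfib l with h | h
    · left; rw [h]; rfl
    · right; rw [h]
  · intro l hl
    by_cases h : (l : ℕ) < (a - 1) * p
    · exact ((hval l).1 h).2
    · have := (hval l).2 h
      omega
  · have h1 : univ.filter (fun l => x l ≤ 0) = univ.filter (fun l : Fin n => ¬ (l : ℕ) < (a - 1) * p) := by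
      ext l
      simp only [mem_filter, mem_univ, true_and]
      constructor
      · intro h h'
        have := ((hval l).1 h').1
        omega
      · exact (hval l).2
    have h2 : 2 ≤ j * a := by nlinarith
    rw [h1, card_filter_lt n _ (by omega)]
    omega
  · refine (card_ge m j).symm.le.trans (Finset.card_le_card ?_)
    intro l hl
    simp only [mem_filter, mem_univ, true_and] at hl ⊢
    rw [hφ2 l hl]

theorem lower {n a b j p : ℕ} (ha : 1 ≤ a) (hj : 1 ≤ j)
    (hb : j + 2 * p ≤ b + 1) (hn : n + 1 = j * a + (a - 1) * p) :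
    ∃ g : MvPolynomial (Fin n) ℂ, (∀ σ : Equiv.Perm (Fin n), rename σ g = g) ∧ DegB b g ∧
      Van a j g ∧ g ≠ 0 := by
  by_cases h : 2 ≤ a ∧ 1 ≤ p
  · exact lower_ge h.1 hj h.2 hb hn
  · have h0 : (a - 1) * p = 0 := by
      rw [Nat.mul_eq_zero]; omega
    refine ⟨1, fun σ => map_one _, fun i => ?_, ?_, one_ne_zero⟩
    · rw [show (1 : MvPolynomial (Fin n) ℂ) = C 1 from (C_1).symm, degreeOf_C]
      exact Nat.zero_le _
    · intro M φ hφ
      exfalso
      obtain ⟨C, hC, h1, h2⟩ := hφ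
      have h3 : ∑ y ∈ C, fib φ y ≤ n := by
        unfold fib
        rw [← Finset.card_biUnion]
        · exact (Finset.card_le_univ _).trans (by simp)
        · intro l _ l' _ hll
          rw [Function.onFun, Finset.disjoint_left]
          intro k hk hk'
          simp only [mem_filter, mem_univ, true_and] at hk hk'
          exact hll (hk.symm.trans hk')
      rw [Finset.sum_congr rfl h1, Finset.sum_const, hC, smul_eq_mul] at h3
      omega

end Pool.Agent.W_MP_13ae32_ag
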