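import Pool.Agent.W_MP_13ae32_ag.LexSys

/-!
The generating function of the eigenvalues determines a multiset.
-/

open Finset

set_option linter.unusedSectionVars false

namespace Pool.Agent.W_MP_13ae32_ag

theorem rho_succ_tail {M : ℕ} (ξ m : Fin (M + 1) → ℂ) (k : ℕ) (l : Fin M) :
    rho ξ m k l.succ = rho (fun l => ξ l.succ) (fun l => m l.succ) k l := by
  induction k generalizing l with
  | zero => rfl
  | succ k ih =>
    rw [rho, rho, ih l]
    congr 1
    have : univ.filter (fun l' => l.succ < l') =
        (univ.filter (fun l' => l < l')).map (Fin.succEmb M) := by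
      ext j
      refine Fin.cases ?_ (fun j => ?_) j
      · simp [Fin.succ_ne_zero]
      · simp
    rw [this, Finset.sum_map]
    exact Finset.sum_congr rfl fun l' _ => by simp [ih l']

/-- the eigenvalues -/
noncomputable def rr {M : ℕ} (ξ m : Fin M → ℂ) (k : ℕ) : ℂ := ∑ l, m l * rho ξ m k l

/-- the generating function -/
noncomputable def SS {M : ℕ} (ξ m : Fin M → ℂ) : PowerSeries ℂ :=
  1 + PowerSeries.X * PowerSeries.mk (rr ξ m)

/-- the polynomial `∏ (1 - ξ X)` -/
noncomputable def AA {M : ℕ} (ξ : Fin M → ℂ) : Polynomial ℂ :=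
  ∏ l, (1 - Polynomial.C (ξ l) * Polynomial.X)

theorem SS_eq {M : ℕ} (ξ m : Fin M → ℂ) :
    (AA ξ : PowerSeries ℂ) * SS ξ m = (AA (fun l => ξ l - m l) : PowerSeries ℂ) := by
  induction M with
  | zero =>
    have : PowerSeries.mk (rr ξ m) = 0 := by
      ext k; simp [rr]
    simp [AA, SS, this]
  | succ M ih =>
    set ξ' : Fin M → ℂ := fun l => ξ l.succ with hξ'
    set m' : Fin M → ℂ := fun l => m l.succ with hm'
    set Y : PowerSeries ℂ := PowerSeries.mk (fun k => rho ξ m k 0) with hY
    have hr : ∀ k, rr ξ m k = m 0 * rho ξ m k 0 + rr ξ' m' k := by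
      intro k
      rw [rr, Fin.sum_univ_succ, rr]
      congr 1
      exact Finset.sum_congr rfl fun l _ => by rw [rho_succ_tail]
    have h1 : SS ξ m = SS ξ' m' + PowerSeries.X * (PowerSeries.C (m 0) * Y) := by
      have : PowerSeries.mk (rr ξ m) =
          PowerSeries.C (m 0) * Y + PowerSeries.mk (rr ξ' m') := by
        ext k
        rw [map_add, PowerSeries.coeff_C_mul, hY]
        simp only [PowerSeries.coeff_mk]
        exact hr k
      rw [SS, SS, this]
      ring
    have h2 : Y = PowerSeries.X * (PowerSeries.C (ξ 0) * Y) + SS ξ' m' := by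
      have h3 : Y = 1 + PowerSeries.X * (PowerSeries.C (ξ 0) * Y + PowerSeries.mk (rr ξ' m')) := by
        ext k
        cases k with
        | zero => simp [hY, rho]
        | succ k =>
          rw [map_add, PowerSeries.coeff_succ_X_mul, map_add, PowerSeries.coeff_C_mul, hY]
          simp only [PowerSeries.coeff_mk]
          rw [PowerSeries.coeff_one, if_neg (Nat.succ_ne_zero k), zero_add, rho, rr]
          congr 1
          have : univ.filter (fun l' : Fin (M + 1) => 0 < l') =
              univ.map (Fin.succEmb M) := by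
            ext j
            refine Fin.cases ?_ (fun j => ?_) j
            · simp
            · simp [Fin.succ_pos]
          rw [this, Finset.sum_map]
          exact Finset.sum_congr rfl fun l' _ => by simp [rho_succ_tail, hm', hξ']
      rw [SS]
      linear_combination h3
    have hA : ∀ η : Fin (M + 1) → ℂ, (AA η : PowerSeries ℂ) =
        (1 - PowerSeries.C (η 0) * PowerSeries.X) * (AA (fun l => η l.succ) : PowerSeries ℂ) := by
      intro η
      rw [AA, Fin.prod_univ_succ, ← AA]
      simp
    have h4 := ih ξ' m'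
    rw [hA ξ, hA (fun l => ξ l - m l), h1]
    have h5 : (1 - PowerSeries.C (ξ 0) * PowerSeries.X) * Y = SS ξ' m' := by
      linear_combination h2
    have h6 : (1 - PowerSeries.C (ξ 0) * PowerSeries.X) *
        (SS ξ' m' + PowerSeries.X * (PowerSeries.C (m 0) * Y)) =
        (1 - PowerSeries.C (ξ 0 - m 0) * PowerSeries.X) * SS ξ' m' := by
      rw [map_sub]
      linear_combination (PowerSeries.X * PowerSeries.C (m 0)) * h5
    calc (1 - PowerSeries.C (ξ 0) * PowerSeries.X) * (AA ξ' : PowerSeries ℂ) *
          (SS ξ' m' + PowerSeries.X * (PowerSeries.C (m 0) * Y))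
        = (AA ξ' : PowerSeries ℂ) * ((1 - PowerSeries.C (ξ 0) * PowerSeries.X) *
          (SS ξ' m' + PowerSeries.X * (PowerSeries.C (m 0) * Y))) := by ring
      _ = (1 - PowerSeries.C (ξ 0 - m 0) * PowerSeries.X) *
          ((AA ξ' : PowerSeries ℂ) * SS ξ' m') := by rw [h6]; ring
      _ = _ := by rw [h4]

/-- multisets from products -/
theorem multiset_eq_of_prod {s t : Multiset ℂ} (hc : Multiset.card s = Multiset.card t)
    (h : ∀ w : ℂ, (s.map (fun x => 1 - x * w)).prod = (t.map (fun x => 1 - x * w)).prod) :
    s = t := by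
  have key : ∀ (s : Multiset ℂ) (z : ℂ), z ≠ 0 →
      ((s.map (fun x => Polynomial.X - Polynomial.C x)).prod).eval z =
        z ^ (Multiset.card s) * (s.map (fun x => 1 - x * z⁻¹)).prod := by
    intro s z hz
    rw [Polynomial.eval_multiset_prod, Multiset.map_map]
    induction s using Multiset.induction_on with
    | empty => simp
    | cons x s ih =>
      simp only [Multiset.map_cons, Multiset.prod_cons, Multiset.card_cons, Function.comp_apply,
        Polynomial.eval_sub, Polynomial.eval_X, Polynomial.eval_C, pow_succ]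
      simp only [Function.comp_apply, Polynomial.eval_sub, Polynomial.eval_X,
        Polynomial.eval_C] at ih
      rw [ih]
      field_simp
  have h1 : (s.map (fun x => Polynomial.X - Polynomial.C x)).prod =
      (t.map (fun x => Polynomial.X - Polynomial.C x)).prod := by
    apply Polynomial.eq_of_infinite_eval_eq
    apply Set.Infinite.mono (s := {z : ℂ | z ≠ 0})
    · intro z hz
      simp only [Set.mem_ofPred_eq] at hz ⊢
      rw [key s z hz, key t z hz, hc, h z⁻¹]
    · have : ({z : ℂ | z ≠ 0} : Set ℂ) = {0}ᶜ := by ext; simp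
      rw [this]
      exact (Set.finite_singleton 0).infinite_compl
  have h2 := congrArg Polynomial.roots h1
  rwa [Polynomial.roots_multiset_prod_X_sub_C, Polynomial.roots_multiset_prod_X_sub_C] at h2

theorem AA_eval {M : ℕ} (ξ : Fin M → ℂ) (w : ℂ) :
    (AA ξ).eval w = (((univ : Finset (Fin M)).val.map ξ).map (fun x => 1 - x * w)).prod := by
  rw [AA, Polynomial.eval_prod, Multiset.map_map]
  simp [Finset.prod]

/-- The multiset identity. -/
theorem multiset_identity {M M' : ℕ} (ξ m : Fin M → ℂ) (ξ' m' : Fin M' → ℂ)
    (h : ∀ k, rr ξ m k = rr ξ' m' k) :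
    (univ : Finset (Fin M)).val.map (fun l => ξ l - m l) +
        (univ : Finset (Fin M')).val.map ξ' =
      (univ : Finset (Fin M)).val.map ξ +
        (univ : Finset (Fin M')).val.map (fun l => ξ' l - m' l) := by
  apply multiset_eq_of_prod
  · simp
  · intro w
    have hS : SS ξ m = SS ξ' m' := by
      rw [SS, SS, show rr ξ m = rr ξ' m' from funext h]
    have h1 := SS_eq ξ m
    have h2 := SS_eq ξ' m'
    have h3 : (AA (fun l => ξ l - m l) : PowerSeries ℂ) * (AA ξ' : PowerSeries ℂ) =
        (AA ξ : PowerSeries ℂ) * (AA (fun l => ξ' l - m' l) : PowerSeries ℂ) := by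
      rw [← h1, ← h2, hS]; ring
    rw [← Polynomial.coe_mul, ← Polynomial.coe_mul] at h3
    have h4 := Polynomial.coe_injective ℂ h3
    have h5 := congrArg (Polynomial.eval w) h4
    rw [Polynomial.eval_mul, Polynomial.eval_mul, AA_eval, AA_eval, AA_eval, AA_eval] at h5
    rw [Multiset.map_add, Multiset.map_add, Multiset.prod_add, Multiset.prod_add]
    exact h5

/-- counting version over the integers -/
theorem count_identity {M M' : ℕ} (x m : Fin M → ℤ) (x' m' : Fin M' → ℤ)
    (h : ∀ k, rr (fun l => (x l : ℂ)) (fun l => (m l : ℂ)) k =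
      rr (fun l => (x' l : ℂ)) (fun l => (m' l : ℂ)) k) (z : ℤ) :
    (univ.filter (fun l => x l - m l = z)).card + (univ.filter (fun l => x' l = z)).card =
      (univ.filter (fun l => x l = z)).card + (univ.filter (fun l => x' l - m' l = z)).card := by
  have h1 := multiset_identity _ _ _ _ h
  have h2 := congrArg (Multiset.count (z : ℂ)) h1
  rw [Multiset.count_add, Multiset.count_add] at h2
  have key : ∀ {N : ℕ} (f : Fin N → ℤ) (g : Fin N → ℂ), (∀ l, g l = f l) →
      Multiset.count (z : ℂ) ((univ : Finset (Fin N)).val.map g) =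
        (univ.filter (fun l => f l = z)).card := by
    intro N f g hg
    rw [Multiset.count_map, Finset.card_def, Finset.filter_val]
    congr 1
    apply Multiset.filter_congr
    intro l _
    rw [hg]
    constructor
    · intro h; exact_mod_cast h.symm
    · intro h; exact_mod_cast h.symm
  rw [key (fun l => x l - m l) _ (fun l => by push_cast; rfl), key x' _ (fun l => rfl),
    key x _ (fun l => rfl), key (fun l => x' l - m' l) _ (fun l => by push_cast; rfl)] at h2
  exact h2

end Pool.Agent.W_MP_13ae32_ag
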