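import Pool.Agent.W_MP_13ae32_ag.Defs

/-!
Regularity of homogeneous ideals containing all forms of large degree.
-/

open MvPolynomial Finset

set_option linter.unusedSectionVars false

namespace Pool.Agent.W_MP_13ae32_ag

variable {N : ℕ}

theorem ksign_mul_self (v : Fin N) (t : Finset (Fin N)) : ksign v t * ksign v t = 1 := by
  unfold ksign
  rw [← pow_add, ← two_mul, pow_mul]
  simp

theorem ksign_insert (v w : Fin N) (t : Finset (Fin N)) (hw : w ∉ t) :
    ksign v (insert w t) = (if w < v then -1 else 1) * ksign v t := by
  unfold ksign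
  rw [Finset.filter_insert]
  split_ifs with h
  · rw [Finset.card_insert_of_notMem (by simp [hw]), pow_succ]; ring
  · rw [one_mul]

theorem ksign_isHomogeneous (v : Fin N) (t : Finset (Fin N)) :
    (ksign v t).IsHomogeneous 0 := by
  unfold ksign
  have h : ((-1 : MvPolynomial (Fin N) ℂ)) = C (-1) := by simp
  rw [h, ← C_pow]
  exact isHomogeneous_C _ _

theorem ksign_ne_zero (v : Fin N) (t : Finset (Fin N)) : ksign v t ≠ 0 := by
  intro h
  have := ksign_mul_self v t
  rw [h, mul_zero] at this
  exact zero_ne_one this

theorem pderiv_ksign_mul (w v : Fin N) (t : Finset (Fin N)) (p : MvPolynomial (Fin N) ℂ) :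
    pderiv w (ksign v t * p) = ksign v t * pderiv w p := by
  unfold ksign
  have h : ((-1 : MvPolynomial (Fin N) ℂ)) = C (-1) := by simp
  rw [h, ← C_pow, pderiv_C_mul]

/-- anticommutation -/
theorem ksign_anti {v w : Fin N} {t : Finset (Fin N)} (hv : v ∉ t) (hw : w ∉ t) (hvw : v ≠ w) :
    ksign v t * ksign w (insert v t) = -(ksign w t * ksign v (insert w t)) := by
  rw [ksign_insert w v t hv, ksign_insert v w t hw]
  rcases lt_or_gt_of_ne hvw with h | h
  · rw [if_pos h, if_neg h.asymm]; ring
  · rw [if_neg h.asymm, if_pos h]; ring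

theorem koszulD_koszulD (m : Finset (Fin N) → MvPolynomial (Fin N) ℂ) (t : Finset (Fin N)) :
    koszulD (koszulD m) t = 0 := by
  have h1 : koszulD (koszulD m) t = ∑ v ∈ tᶜ, ∑ w ∈ tᶜ, if v = w then 0 else
      ksign v t * ksign w (insert v t) * (X v * X w) * m (insert w (insert v t)) := by
    unfold koszulD
    apply Finset.sum_congr rfl
    intro v hv
    rw [Finset.mul_sum]
    have h2 : tᶜ = insert v (insert v t)ᶜ := by
      ext w
      simp only [mem_compl, mem_insert, not_or]
      by_cases h : w = v
      · subst h; simpa using hv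
      · simp [h]
    rw [h2, Finset.sum_insert (by simp), if_pos rfl, zero_add]
    apply Finset.sum_congr rfl
    intro w hw
    rw [if_neg]
    · ring
    · rintro rfl; simp at hw
  have h2 : koszulD (koszulD m) t = -koszulD (koszulD m) t := by
    conv_lhs => rw [h1, Finset.sum_comm]
    rw [h1, ← Finset.sum_neg_distrib]
    apply Finset.sum_congr rfl
    intro v hv
    rw [← Finset.sum_neg_distrib]
    apply Finset.sum_congr rfl
    intro w hw
    by_cases h : v = w
    · subst h; simp
    · rw [if_neg h, if_neg (Ne.symm h), ksign_anti (by simpa using hw) (by simpa using hv)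
        (Ne.symm h), Finset.insert_comm]
      ring
  have h3 : (2 : MvPolynomial (Fin N) ℂ) * koszulD (koszulD m) t = 0 := by
    rw [two_mul]
    nth_rewrite 1 [h2]
    ring
  exact (mul_eq_zero.1 h3).resolve_left two_ne_zero

/-- the homotopy -/
noncomputable def hom (m : Finset (Fin N) → MvPolynomial (Fin N) ℂ) (s : Finset (Fin N)) :
    MvPolynomial (Fin N) ℂ :=
  ∑ v ∈ s, ksign v (s.erase v) * pderiv v (m (s.erase v))

set_option maxHeartbeats 2000000 in
theorem homotopy (m : Finset (Fin N) → MvPolynomial (Fin N) ℂ) (t : Finset (Fin N)) :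
    koszulD (hom m) t + hom (koszulD m) t =
      (∑ v, X v * pderiv v (m t)) + (t.card : MvPolynomial (Fin N) ℂ) * m t := by
  have h1 : koszulD (hom m) t = (∑ v ∈ tᶜ, X v * pderiv v (m t)) +
      ∑ v ∈ tᶜ, ∑ w ∈ t, ksign v t * ksign w (insert v (t.erase w)) *
        (X v * pderiv w (m (insert v (t.erase w)))) := by
    rw [← Finset.sum_add_distrib]
    unfold koszulD
    apply Finset.sum_congr rfl
    intro v hv
    have hv' : v ∉ t := by simpa using hv
    rw [hom, Finset.sum_insert hv', Finset.erase_insert hv', mul_add]
    congr 1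
    · have := ksign_mul_self v t
      linear_combination (X v * pderiv v (m t)) * this
    · rw [Finset.mul_sum]
      apply Finset.sum_congr rfl
      intro w hw
      have hvw : v ≠ w := by rintro rfl; exact hv' hw
      rw [Finset.erase_insert_of_ne hvw]
      ring
  have h2 : hom (koszulD m) t = (∑ w ∈ t, (m t + X w * pderiv w (m t))) +
      ∑ w ∈ t, ∑ v ∈ tᶜ, ksign w (t.erase w) * ksign v (t.erase w) *
        (X v * pderiv w (m (insert v (t.erase w)))) := by
    rw [← Finset.sum_add_distrib]
    unfold hom
    apply Finset.sum_congr rfl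
    intro w hw
    have h3 : (t.erase w)ᶜ = insert w tᶜ := by
      ext v
      simp only [mem_compl, mem_erase, not_and, mem_insert]
      by_cases h : v = w
      · simp [h]
      · simp [h]
    rw [koszulD, h3, Finset.sum_insert (by simpa using hw), Finset.insert_erase hw, map_add,
      map_sum, mul_add, Finset.mul_sum]
    congr 1
    · rw [mul_assoc, pderiv_ksign_mul, Derivation.leibniz, pderiv_X_self]
      have := ksign_mul_self w (t.erase w)
      simp only [smul_eq_mul, mul_one]
      generalize ksign w (t.erase w) = c at this ⊢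
      generalize pderiv w (m t) = q
      rw [← mul_assoc, this, one_mul, add_comm]
    · apply Finset.sum_congr rfl
      intro v hv
      have hvw : v ≠ w := by
        rintro rfl; simp only [mem_compl] at hv; exact hv hw
      rw [mul_assoc (ksign v _), pderiv_ksign_mul, Derivation.leibniz, pderiv_X_of_ne hvw]
      simp only [smul_eq_mul, mul_zero, add_zero]
      ring
  have h3 : ∑ v ∈ tᶜ, ∑ w ∈ t, ksign v t * ksign w (insert v (t.erase w)) *
        (X v * pderiv w (m (insert v (t.erase w)))) =
      -∑ w ∈ t, ∑ v ∈ tᶜ, ksign w (t.erase w) * ksign v (t.erase w) *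
        (X v * pderiv w (m (insert v (t.erase w)))) := by
    rw [Finset.sum_comm, ← Finset.sum_neg_distrib]
    apply Finset.sum_congr rfl
    intro w hw
    rw [← Finset.sum_neg_distrib]
    apply Finset.sum_congr rfl
    intro v hv
    have hv' : v ∉ t := by simpa using hv
    have hvw : v ≠ w := by rintro rfl; exact hv' hw
    have h4 : ksign v t = (if w < v then -1 else 1) * ksign v (t.erase w) := by
      conv_lhs => rw [← Finset.insert_erase hw]
      exact ksign_insert v w _ (by simp)
    have h5 : ksign w (insert v (t.erase w)) = (if v < w then -1 else 1) * ksign w (t.erase w) :=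
      ksign_insert w v _ (by simp [hv'])
    rw [h4, h5]
    rcases lt_or_gt_of_ne hvw with h | h
    · rw [if_neg h.asymm, if_pos h]; ring
    · rw [if_pos h, if_neg h.asymm]; ring
  rw [h1, h2, h3, Finset.sum_add_distrib, Finset.sum_const, nsmul_eq_mul,
    ← Finset.sum_add_sum_compl t (fun v => X v * pderiv v (m t))]
  ring

theorem pderiv_isHomogeneous {k : ℕ} {p : MvPolynomial (Fin N) ℂ} (hp : p.IsHomogeneous (k + 1))
    (v : Fin N) : (pderiv v p).IsHomogeneous k := by
  have := hp.pderiv (i := v)
  simpa using this

/-- The regularity of an ideal containing all forms of degree `> n` but not all those of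
degree `n`. -/
theorem isRegularity_of (hN : 1 ≤ N) (J : Ideal (MvPolynomial (Fin N) ℂ)) (n : ℕ)
    (h1 : ∀ k, n < k → ∀ p : MvPolynomial (Fin N) ℂ, p.IsHomogeneous k → p ∈ J)
    (h2 : ∃ q : MvPolynomial (Fin N) ℂ, q.IsHomogeneous n ∧ q ∉ J) :
    IsRegularity J ((n : ℤ) + 1) := by
  constructor
  · -- attained
    obtain ⟨q, hq, hqJ⟩ := h2
    set m0 : Finset (Fin N) → MvPolynomial (Fin N) ℂ := fun s => if s = univ then q else 0
      with hm0
    have hval : ∀ t, koszulD m0 t = if t.card + 1 = N then
        ∑ v ∈ tᶜ, ksign v t * X v * q else 0 := by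
      intro t
      unfold koszulD
      split_ifs with ht
      · apply Finset.sum_congr rfl
        intro v hv
        have : insert v t = univ := by
          rw [← Finset.card_eq_iff_eq_univ, Finset.card_insert_of_notMem (by simpa using hv), ht,
            Fintype.card_fin]
        rw [hm0]
        simp only [this, if_true]
      · apply Finset.sum_eq_zero
        intro v hv
        have : insert v t ≠ univ := by
          rw [Ne, ← Finset.card_eq_iff_eq_univ, Finset.card_insert_of_notMem (by simpa using hv),
            Fintype.card_fin]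
          exact ht
        rw [hm0]
        simp only [this, if_false, mul_zero]
    have hhom : ∀ t, (koszulD m0 t).IsHomogeneous (n + 1) := by
      intro t
      rw [hval]
      split_ifs with ht
      · apply IsHomogeneous.sum
        intro v _
        have := ((ksign_isHomogeneous v t).mul (isHomogeneous_X ℂ v)).mul hq
        convert this using 1
        ring
      · exact isHomogeneous_zero _ _ _
    refine ⟨N - 1, n + 1 + (N - 1), ⟨n + 1, rfl, koszulD m0, ?_, hhom, ?_, ?_⟩, by push_cast; ring⟩
    · intro s
      refine ⟨h1 (n + 1) (Nat.lt_succ_self n) _ (hhom s), fun hs => ?_⟩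
      rw [hval, if_neg (by omega)]
    · intro t; exact koszulD_koszulD m0 t
    · rintro ⟨n', hn', hn2⟩
      obtain ⟨N', rfl⟩ : ∃ N', N = N' + 1 := ⟨N - 1, by omega⟩
      have h3 := hn2 (univ.erase 0)
      have hc : (univ.erase (0 : Fin (N' + 1)))ᶜ = {0} := by
        ext x; simp
      have hcard : (univ.erase (0 : Fin (N' + 1))).card + 1 = N' + 1 := by
        rw [Finset.card_erase_of_mem (mem_univ _)]; simp
      rw [hval, if_pos hcard, hc, Finset.sum_singleton, koszulD, hc, Finset.sum_singleton,
        Finset.insert_erase (mem_univ _)] at h3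
      have h4 : ksign 0 (univ.erase (0 : Fin (N' + 1))) * X 0 ≠ 0 :=
        mul_ne_zero (ksign_ne_zero _ _) (X_ne_zero _)
      have h5 := mul_left_cancel₀ h4 h3
      apply hqJ
      rw [← h5]
      exact (hn' univ).1
  · -- bound
    rintro t ⟨i, e, ⟨k, hke, m, hm1, hm2, hm3, hm4⟩, rfl⟩
    by_contra hcon
    push Not at hcon
    have hk : n + 1 < k := by
      have : (e : ℤ) = k + i := by exact_mod_cast hke.symm
      omega
    apply hm4
    obtain ⟨k', rfl⟩ : ∃ k', k = k' + 1 := ⟨k - 1, by omega⟩
    set c : ℂ := (((k' + 1 + i : ℕ) : ℂ))⁻¹ with hc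
    have hc0 : ((k' + 1 + i : ℕ) : ℂ) ≠ 0 := by exact_mod_cast (by omega : k' + 1 + i ≠ 0)
    have hhom : ∀ s, (hom m s).IsHomogeneous k' := by
      intro s
      apply IsHomogeneous.sum
      intro v _
      have := (ksign_isHomogeneous v (s.erase v)).mul (pderiv_isHomogeneous (hm2 (s.erase v)) v)
      convert this using 1
      ring
    refine ⟨fun s => C c * hom m s, ?_, ?_⟩
    · intro s
      refine ⟨Ideal.mul_mem_left _ _ (h1 k' (by omega) _ (hhom s)), fun hs => ?_⟩
      have : hom m s = 0 := by
        apply Finset.sum_eq_zero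
        intro v hv
        rw [(hm1 (s.erase v)).2, map_zero, mul_zero]
        rw [Finset.card_erase_of_mem hv]
        have := Finset.card_pos.2 ⟨v, hv⟩
        omega
      beta_reduce
      rw [this, mul_zero]
    · intro t
      have h3 : koszulD (fun s => C c * hom m s) t = C c * koszulD (hom m) t := by
        unfold koszulD
        rw [Finset.mul_sum]
        apply Finset.sum_congr rfl
        intro v _
        ring
      have h4 := homotopy m t
      have h5 : hom (koszulD m) t = 0 := by
        unfold hom
        apply Finset.sum_eq_zero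
        intro v _
        rw [hm3, map_zero, mul_zero]
      rw [h5, add_zero, (hm2 t).sum_X_mul_pderiv, nsmul_eq_mul, ← add_mul] at h4
      rw [h3, h4]
      by_cases ht : t.card = i
      · rw [ht, ← mul_assoc]
        have : C c * (((k' + 1 : ℕ) : MvPolynomial (Fin N) ℂ) + (i : MvPolynomial (Fin N) ℂ)) =
            1 := by
          rw [← Nat.cast_add]
          have h6 : ((k' + 1 + i : ℕ) : MvPolynomial (Fin N) ℂ) = C ((k' + 1 + i : ℕ) : ℂ) := by
            simp
          rw [h6, ← C_mul, hc, inv_mul_cancel₀ hc0, C_1]
        rw [this, one_mul]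
      · rw [(hm1 t).2 ht, mul_zero, mul_zero]

end Pool.Agent.W_MP_13ae32_ag
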