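import Pool.Agent.W_MP_13ae32_ag.Basic

/-!
Restriction of equivariant families along a map of variables.
-/

open MvPolynomial Finset

set_option linter.unusedSectionVars false

namespace Pool.Agent.W_MP_13ae32_ag

section

variable {ι ν : Type*} [DecidableEq ι] [Fintype ι] [DecidableEq ν] [Fintype ν]

/-- size of a fibre -/
def fib (φ : ι → ν) (y : ν) : ℕ := (univ.filter (fun k => φ k = y)).card

theorem pderiv_rename_fib (φ : ι → ν) (y : ν) (p : MvPolynomial ι ℂ) :
    pderiv y (rename φ p) = ∑ k ∈ univ.filter (fun k => φ k = y), rename φ (pderiv k p) := by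
  induction p using MvPolynomial.induction_on with
  | C a => simp
  | add p q hp hq => simp [hp, hq, Finset.sum_add_distrib]
  | mul_X p j hp =>
    simp only [map_mul, rename_X, Derivation.leibniz, smul_eq_mul, map_add, hp,
      Finset.sum_add_distrib, Finset.mul_sum]
    congr 1
    by_cases hj : φ j = y
    · rw [Finset.sum_eq_single j]
      · rw [hj]; simp
      · intro b _ hb
        rw [pderiv_X_of_ne hb.symm]; simp
      · intro h; exact absurd (by simp [hj]) h
    · rw [pderiv_X_of_ne hj, mul_zero, Finset.sum_eq_zero]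
      intro b hb
      have hbj : j ≠ b := by
        rintro rfl; simp at hb; exact hj hb
      rw [pderiv_X_of_ne hbj]; simp

theorem comp_swap_of_eq {φ : ι → ν} {i k : ι} (h : φ i = φ k) :
    φ ∘ (Equiv.swap i k) = φ := by
  funext j
  simp only [Function.comp_apply]
  by_cases h1 : j = i
  · subst h1; simp [h]
  · by_cases h2 : j = k
    · subst h2; simp [h]
    · rw [Equiv.swap_apply_of_ne_of_ne h1 h2]

theorem Equivar.rename_eq {f : ι → MvPolynomial ι ℂ} (hf : Equivar f) {φ : ι → ν} {i k : ι}
    (h : φ i = φ k) : rename φ (f i) = rename φ (f k) := by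
  rw [← hf.swap i k, rename_rename, comp_swap_of_eq h]

theorem rename_dd_same {φ : ι → ν} {i k : ι} (hik : i ≠ k) (h : φ i = φ k)
    (p : MvPolynomial ι ℂ) :
    rename φ (dd i k p) = rename φ (pderiv i p) - rename φ (pderiv k p) := by
  have h1 := congrArg (fun q => rename φ (pderiv i q)) (dd_spec i k p)
  simp only [Derivation.leibniz, smul_eq_mul, map_sub, map_add, map_mul, rename_X, h,
    sub_self, zero_mul, zero_add, pderiv_X_self] at h1
  rw [pderiv_X_of_ne hik.symm] at h1
  have h2 : pderiv i (rename (Equiv.swap i k) p) = rename (Equiv.swap i k) (pderiv k p) := by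
    have := pderiv_rename_equiv (Equiv.swap i k) k p
    simpa using this
  rw [h2, rename_rename, comp_swap_of_eq h] at h1
  simpa using h1

theorem rename_dd_diff {φ : ι → ν} (i k : ι) (f : ι → MvPolynomial ι ℂ) (hf : Equivar f) :
    (X (φ i) - X (φ k)) * rename φ (dd i k (f i)) = rename φ (f i) - rename φ (f k) := by
  have := congrArg (rename φ) (hf.dd i k)
  simpa using this

theorem res_Dun {a : ℕ} (ha : 1 ≤ a) (φ : ι → ν) {f : ι → MvPolynomial ι ℂ}
    (hf : Equivar f) (i : ι) (hs : fib φ (φ i) = 1 ∨ fib φ (φ i) = a) :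
    rename φ (Dun (a : ℂ) 1 f i) =
      C ((a : ℂ) / (fib φ (φ i) : ℂ)) * pderiv (φ i) (rename φ (f i)) -
        ∑ k ∈ univ.filter (fun k => φ k ≠ φ i), rename φ (dd i k (f i)) := by
  have ha0 : (a : ℂ) ≠ 0 := by exact_mod_cast (by omega : a ≠ 0)
  have hsplit : ∑ k ∈ univ.erase i, rename φ (dd i k (f i)) =
      ∑ k ∈ (univ.filter (fun k => φ k = φ i)).erase i, rename φ (dd i k (f i)) +
      ∑ k ∈ univ.filter (fun k => φ k ≠ φ i), rename φ (dd i k (f i)) := by
    rw [← Finset.sum_union]
    · apply Finset.sum_congr _ fun _ _ => rfl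
      ext k
      simp only [mem_erase, mem_univ, and_true, mem_union, mem_filter, true_and]
      constructor
      · intro h; by_cases h' : φ k = φ i
        · exact Or.inl ⟨h, h'⟩
        · exact Or.inr h'
      · rintro (h | h)
        · exact h.1
        · rintro rfl; exact h rfl
    · rw [Finset.disjoint_left]
      intro k hk hk'
      simp at hk hk'
      exact hk' hk.2
  have hsame : ∑ k ∈ (univ.filter (fun k => φ k = φ i)).erase i, rename φ (dd i k (f i)) =
      ((fib φ (φ i) : ℂ)) • rename φ (pderiv i (f i)) - pderiv (φ i) (rename φ (f i)) := by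
    have h1 : ∀ k ∈ (univ.filter (fun k => φ k = φ i)).erase i,
        rename φ (dd i k (f i)) = rename φ (pderiv i (f i)) - rename φ (pderiv k (f i)) := by
      intro k hk
      simp only [mem_erase, mem_filter, mem_univ, true_and] at hk
      exact rename_dd_same (Ne.symm hk.1) hk.2.symm _
    rw [Finset.sum_congr rfl h1, Finset.sum_sub_distrib, pderiv_rename_fib]
    have hi : i ∈ univ.filter (fun k => φ k = φ i) := by simp
    rw [← Finset.add_sum_erase _ (fun k => rename φ (pderiv k (f i))) hi]
    have : ∑ _x ∈ (univ.filter (fun k => φ k = φ i)).erase i, rename φ (pderiv i (f i)) =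
        ((fib φ (φ i) : ℂ)) • rename φ (pderiv i (f i)) - rename φ (pderiv i (f i)) := by
      rw [Finset.sum_const, Finset.card_erase_of_mem hi]
      have h0 : 1 ≤ (univ.filter (fun k => φ k = φ i)).card := Finset.card_pos.2 ⟨i, hi⟩
      unfold fib
      obtain ⟨c, hc⟩ := Nat.exists_eq_add_of_le h0
      rw [hc]
      simp only [Nat.add_sub_cancel_left, Nat.cast_add, Nat.cast_one, add_smul, one_smul,
        add_sub_cancel_left]
      exact (Nat.cast_smul_eq_nsmul ℂ _ _).symm
    rw [this]
    ring
  simp only [Dun, map_sub, map_mul, map_sum, rename_C, C_1, map_one, one_mul]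
  rw [hsplit, hsame]
  rcases hs with hs | hs
  · -- fibre of size one
    have hd : pderiv (φ i) (rename φ (f i)) = rename φ (pderiv i (f i)) := by
      rw [pderiv_rename_fib]
      have : univ.filter (fun k => φ k = φ i) = {i} := by
        obtain ⟨j, hj⟩ := Finset.card_eq_one.1 hs
        have : i ∈ univ.filter (fun k => φ k = φ i) := by simp
        rw [hj] at this ⊢
        rw [Finset.mem_singleton.1 this]
      rw [this, Finset.sum_singleton]
    rw [hs, hd]
    simp
  · rw [hs, div_self ha0]
    simp only [C_1, one_mul, smul_eq_C_mul]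
    ring

/-- the restricted system. -/
theorem isD_restrict {a : ℕ} (ha : 1 ≤ a) (φ : ι → ν) (s : ν → ι) (hs : ∀ l, φ (s l) = l)
    (hfib : ∀ l, fib φ l = 1 ∨ fib φ l = a) {f : ι → MvPolynomial ι ℂ} (hf : Equivar f) :
    IsD (fun l => (a : ℂ) / (fib φ l : ℂ)) (fun l => (fib φ l : ℂ))
      (fun l => rename φ (f (s l))) (fun l => rename φ (Dun (a : ℂ) 1 f (s l))) := by
  refine ⟨fun l l' => rename φ (dd (s l) (s l') (f (s l))), ?_, ?_⟩
  · intro l l'
    have := rename_dd_diff (φ := φ) (s l) (s l') f hf
    rwa [hs, hs] at this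
  · intro l
    beta_reduce
    rw [res_Dun ha φ hf (s l) (by rw [hs]; exact hfib l), hs]
    congr 1
    have hmaps : ∀ k ∈ univ.filter (fun k => φ k ≠ l), φ k ∈ univ.erase l := by
      intro k hk; simpa using hk
    rw [← Finset.sum_fiberwise_of_maps_to hmaps]
    apply Finset.sum_congr rfl
    intro l' hl'
    have hne : l ≠ l' := (Finset.ne_of_mem_erase hl').symm
    have : ∀ k ∈ (univ.filter (fun k => φ k ≠ l)).filter (fun k => φ k = l'),
        rename φ (dd (s l) k (f (s l))) = rename φ (dd (s l) (s l') (f (s l))) := by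
      intro k hk
      simp only [mem_filter, mem_univ, true_and] at hk
      apply cancel hne
      have h1 := rename_dd_diff (φ := φ) (s l) k f hf
      have h2 := rename_dd_diff (φ := φ) (s l) (s l') f hf
      rw [hs, hk.2] at h1
      rw [hs, hs] at h2
      rw [h1, h2, hf.rename_eq (hk.2.trans (hs l').symm)]
    rw [Finset.sum_congr rfl this, Finset.sum_const]
    have hc : ((univ.filter (fun k => φ k ≠ l)).filter (fun k => φ k = l')).card = fib φ l' := by
      unfold fib
      congr 1
      ext k
      simp only [mem_filter, mem_univ, true_and]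
      constructor
      · exact fun h => h.2
      · intro h; exact ⟨by rw [h]; exact hne.symm, h⟩
    rw [hc, nsmul_eq_mul]
    simp

end

end Pool.Agent.W_MP_13ae32_ag
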