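import Pool.Agent.W_MP_13ae32_ag.Restrict

/-!
Degree bounds, homogeneity and vanishing conditions, and their stability under the operators.
-/

open MvPolynomial Finset

set_option linter.unusedSectionVars false

namespace Pool.Agent.W_MP_13ae32_ag

section

variable {ι ν : Type*} [DecidableEq ι] [Fintype ι] [DecidableEq ν] [Fintype ν]

/-! ### homogeneity with shift -/

/-- every monomial of `p` has degree `N - r` (none if `r > N`). -/
def HS (N r : ℕ) (p : MvPolynomial ι ℂ) : Prop :=
  ∀ e, e + r ≠ N → homogeneousComponent e p = 0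

theorem HS.zero (N r : ℕ) : HS N r (0 : MvPolynomial ι ℂ) := fun e _ => by simp

theorem HS.add {N r : ℕ} {p q : MvPolynomial ι ℂ} (hp : HS N r p) (hq : HS N r q) :
    HS N r (p + q) := fun e he => by rw [map_add, hp e he, hq e he, add_zero]

theorem HS.sub {N r : ℕ} {p q : MvPolynomial ι ℂ} (hp : HS N r p) (hq : HS N r q) :
    HS N r (p - q) := fun e he => by rw [map_sub, hp e he, hq e he, sub_zero]

theorem HS.C_mul {N r : ℕ} {p : MvPolynomial ι ℂ} (c : ℂ) (hp : HS N r p) :
    HS N r (C c * p) := fun e he => by rw [homogeneousComponent_C_mul, hp e he, mul_zero]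

theorem HS.sum {N r : ℕ} {α : Type*} (s : Finset α) (f : α → MvPolynomial ι ℂ)
    (h : ∀ x ∈ s, HS N r (f x)) : HS N r (∑ x ∈ s, f x) := fun e he => by
  rw [map_sum]; exact Finset.sum_eq_zero fun x hx => h x hx e he

theorem HS.of_coeff {N r : ℕ} {p : MvPolynomial ι ℂ}
    (h : ∀ d, coeff d p ≠ 0 → d.degree + r = N) : HS N r p := by
  intro e he
  ext d
  rw [coeff_homogeneousComponent, coeff_zero]
  split_ifs with hd
  · by_contra hc
    exact he (hd ▸ h d hc)
  · rfl

theorem HS.coeff {N r : ℕ} {p : MvPolynomial ι ℂ} (h : HS N r p) (d : ι →₀ ℕ)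
    (hd : coeff d p ≠ 0) : d.degree + r = N := by
  by_contra hc
  have := congrArg (MvPolynomial.coeff d) (h d.degree hc)
  rw [coeff_homogeneousComponent, if_pos rfl, coeff_zero] at this
  exact hd this

theorem HS.of_isHomogeneous {N : ℕ} {p : MvPolynomial ι ℂ} (h : p.IsHomogeneous N) :
    HS N 0 p := HS.of_coeff fun d hd => by
  by_contra hc
  exact hd (h.coeff_eq_zero (by simpa using hc))

theorem HS.isHomogeneous {N r : ℕ} {p : MvPolynomial ι ℂ} (h : HS N r p) (hr : r ≤ N) :
    p.IsHomogeneous (N - r) := by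
  intro d hd
  have := h.coeff d hd
  rw [Pi.one_def, ← Finsupp.degree_eq_weight_one]
  omega

theorem HS.eq_zero {N r : ℕ} {p : MvPolynomial ι ℂ} (h : HS N r p) (hr : N < r) : p = 0 := by
  ext d
  by_contra hc
  have := h.coeff d hc
  omega

theorem HS.rename {N r : ℕ} {p : MvPolynomial ι ℂ} (h : HS N r p) (φ : ι → ν) :
    HS N r (rename φ p) := fun e he => by
  rw [← rename_homogeneousComponent, h e he, map_zero]

theorem homogeneousComponent_X_mul (i : ι) (e : ℕ) (q : MvPolynomial ι ℂ) :
    homogeneousComponent (e + 1) (X i * q) = X i * homogeneousComponent e q := by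
  ext d
  rw [coeff_homogeneousComponent, coeff_X_mul', coeff_X_mul']
  split_ifs with h1 h2 h2
  · rw [coeff_homogeneousComponent, if_pos]
    have : d = (d - Finsupp.single i 1) + Finsupp.single i 1 := by
      ext j
      simp only [Finsupp.coe_add, Finsupp.coe_tsub, Pi.add_apply, Pi.sub_apply]
      by_cases hj : i = j
      · subst hj
        have : d i ≠ 0 := Finsupp.mem_support_iff.1 h2
        simp; omega
      · simp [hj]
    have h3 := congrArg Finsupp.degree this
    rw [map_add, Finsupp.degree_single] at h3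
    omega
  · rfl
  · rw [coeff_homogeneousComponent, if_neg]
    intro h3
    apply h1
    have : d = (d - Finsupp.single i 1) + Finsupp.single i 1 := by
      ext j
      simp only [Finsupp.coe_add, Finsupp.coe_tsub, Pi.add_apply, Pi.sub_apply]
      by_cases hj : i = j
      · subst hj
        have : d i ≠ 0 := Finsupp.mem_support_iff.1 h2
        simp; omega
      · simp [hj]
    have h4 := congrArg Finsupp.degree this
    rw [map_add, Finsupp.degree_single] at h4
    omega
  · rfl

theorem HS.of_X_sub_X_mul {N r : ℕ} {i k : ι} (hik : i ≠ k) {q : MvPolynomial ι ℂ}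
    (h : HS N r ((X i - X k) * q)) : HS N (r + 1) q := by
  intro e he
  have h1 := h (e + 1) (by omega)
  rw [sub_mul, map_sub, homogeneousComponent_X_mul, homogeneousComponent_X_mul, ← sub_mul] at h1
  exact (mul_eq_zero.1 h1).resolve_left (X_sub_X_ne_zero hik)

theorem HS.pderiv {N r : ℕ} {p : MvPolynomial ι ℂ} (h : HS N r p) (i : ι) :
    HS N (r + 1) (pderiv i p) := by
  apply HS.of_coeff
  intro d hd
  rw [coeff_pderiv] at hd
  have h1 := h.coeff _ (left_ne_zero_of_mul hd)
  rw [map_add, Finsupp.degree_single] at h1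
  omega

theorem HS.X_mul {N r : ℕ} {p : MvPolynomial ι ℂ} (h : HS N (r + 1) p) (i : ι) :
    HS N r (X i * p) := by
  apply HS.of_coeff
  intro d hd
  rw [coeff_X_mul'] at hd
  split_ifs at hd with h1
  · have h2 := h.coeff _ hd
    have : d = (d - Finsupp.single i 1) + Finsupp.single i 1 := by
      ext j
      simp only [Finsupp.coe_add, Finsupp.coe_tsub, Pi.add_apply, Pi.sub_apply]
      by_cases hj : i = j
      · subst hj
        have : d i ≠ 0 := Finsupp.mem_support_iff.1 h1
        simp; omega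
      · simp [hj]
    have h3 := congrArg Finsupp.degree this
    rw [map_add, Finsupp.degree_single] at h3
    omega
  · exact absurd rfl hd

theorem IsD.hs {κ m : ι → ℂ} {h h' : ι → MvPolynomial ι ℂ} (H : IsD κ m h h') {N r : ℕ}
    (hh : ∀ l, HS N r (h l)) (l : ι) : HS N (r + 1) (h' l) := by
  obtain ⟨Q, hQ, hQ'⟩ := H
  rw [hQ' l]
  apply HS.sub
  · exact ((hh l).pderiv l).C_mul _
  · apply HS.sum
    intro l' hl'
    apply HS.C_mul
    apply HS.of_X_sub_X_mul (Finset.ne_of_mem_erase hl').symm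
    rw [hQ]
    exact (hh l).sub (hh l')

/-! ### Degree bounds -/

/-- all individual degrees of `p` are at most `b`. -/
def DegB (b : ℕ) (p : MvPolynomial ι ℂ) : Prop := ∀ i, degreeOf i p ≤ b

theorem DegB.zero (b : ℕ) : DegB b (0 : MvPolynomial ι ℂ) := fun i => by simp

theorem DegB.add {b : ℕ} {p q : MvPolynomial ι ℂ} (hp : DegB b p) (hq : DegB b q) :
    DegB b (p + q) := fun i => (degreeOf_add_le i p q).trans (max_le (hp i) (hq i))

theorem DegB.C_mul {b : ℕ} {p : MvPolynomial ι ℂ} (c : ℂ) (hp : DegB b p) :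
    DegB b (C c * p) := fun i => (degreeOf_C_mul_le p i c).trans (hp i)

theorem DegB.sub {b : ℕ} {p q : MvPolynomial ι ℂ} (hp : DegB b p) (hq : DegB b q) :
    DegB b (p - q) := by
  have := hp.add (hq.C_mul (-1))
  convert this using 1
  simp [sub_eq_add_neg]

theorem DegB.sum {b : ℕ} {α : Type*} (s : Finset α) (f : α → MvPolynomial ι ℂ)
    (h : ∀ x ∈ s, DegB b (f x)) : DegB b (∑ x ∈ s, f x) := by
  classical
  induction s using Finset.induction_on with
  | empty => simpa using DegB.zero b
  | insert x s hx ih =>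
    rw [Finset.sum_insert hx]
    exact (h x (mem_insert_self _ _)).add (ih fun y hy => h y (mem_insert_of_mem hy))

theorem DegB.of_coeff {b : ℕ} {p : MvPolynomial ι ℂ}
    (h : ∀ d, MvPolynomial.coeff d p ≠ 0 → ∀ i, d i ≤ b) : DegB b p := fun i => by
  rw [degreeOf_le_iff]
  intro d hd
  exact h d (mem_support_iff.1 hd) i

theorem DegB.coeff {b : ℕ} {p : MvPolynomial ι ℂ} (h : DegB b p) (d : ι →₀ ℕ)
    (hd : MvPolynomial.coeff d p ≠ 0) (i : ι) : d i ≤ b :=
  (degreeOf_le_iff.1 (h i)) d (mem_support_iff.2 hd)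

theorem DegB.rename_equiv {b : ℕ} {p : MvPolynomial ι ℂ} (h : DegB b p) (σ : Equiv.Perm ι) :
    DegB b (rename σ p) := fun i => by
  have := degreeOf_rename_of_injective (p := p) σ.injective (σ.symm i)
  rw [Equiv.apply_symm_apply] at this
  rw [this]; exact h _

theorem DegB.X_mul_pderiv {b : ℕ} {p : MvPolynomial ι ℂ} (h : DegB b p) (i : ι) :
    DegB b (X i * pderiv i p) := by
  apply DegB.of_coeff
  intro d hd j
  rw [coeff_X_mul'] at hd
  split_ifs at hd with h1
  · rw [coeff_pderiv] at hd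
    have h2 := h.coeff _ (left_ne_zero_of_mul hd) j
    have : d = (d - Finsupp.single i 1) + Finsupp.single i 1 := by
      ext j
      simp only [Finsupp.coe_add, Finsupp.coe_tsub, Pi.add_apply, Pi.sub_apply]
      by_cases hj : i = j
      · subst hj
        have : d i ≠ 0 := Finsupp.mem_support_iff.1 h1
        simp; omega
      · simp [hj]
    rwa [← this] at h2
  · exact absurd rfl hd

theorem DegB.pderiv {b : ℕ} {p : MvPolynomial ι ℂ} (h : DegB b p) (i : ι) :
    DegB b (pderiv i p) := by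
  apply DegB.of_coeff
  intro d hd j
  rw [coeff_pderiv] at hd
  have h2 := h.coeff _ (left_ne_zero_of_mul hd) j
  simp only [Finsupp.coe_add, Pi.add_apply] at h2
  omega

theorem DegB.dd {b : ℕ} {p : MvPolynomial ι ℂ} (h : DegB b p) {i k : ι} (hik : i ≠ k) :
    DegB b (X i * W_MP_13ae32_ag.dd i k p) ∧ DegB b (W_MP_13ae32_ag.dd i k p) := by
  by_cases h0 : W_MP_13ae32_ag.dd i k p = 0
  · rw [h0, mul_zero]; exact ⟨DegB.zero b, DegB.zero b⟩
  have hP : DegB b ((X i - X k) * W_MP_13ae32_ag.dd i k p) := by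
    rw [dd_spec]; exact h.sub (h.rename_equiv _)
  have hL := X_sub_X_ne_zero hik
  have hdi : 1 ≤ degreeOf i (X i - X k : MvPolynomial ι ℂ) := by
    have : MvPolynomial.coeff (Finsupp.single i 1) (X i - X k : MvPolynomial ι ℂ) ≠ 0 := by
      have hne : Finsupp.single k 1 ≠ (Finsupp.single i 1 : ι →₀ ℕ) := by
        intro h
        have := (Finsupp.single_left_inj one_ne_zero).1 h
        exact hik this.symm
      rw [coeff_sub, coeff_X, coeff_X, if_neg hne]
      simp
    have := (degreeOf_le_iff.1 (le_refl (degreeOf i (X i - X k : MvPolynomial ι ℂ)))) _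
      (mem_support_iff.2 this)
    simpa using this
  have key : ∀ j, degreeOf j (X i - X k : MvPolynomial ι ℂ) +
      degreeOf j (W_MP_13ae32_ag.dd i k p) ≤ b := by
    intro j
    rw [← degreeOf_mul_eq hL h0]
    exact hP j
  refine ⟨fun j => ?_, fun j => ?_⟩
  · rw [degreeOf_mul_eq (X_ne_zero i) h0]
    by_cases hj : j = i
    · subst hj
      have := key j
      rw [degreeOf_X, if_pos rfl]
      omega
    · rw [degreeOf_X, if_neg hj]
      have := key j
      omega
  · have := key j
    omega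

theorem DegB.Dun {b : ℕ} {κ m : ℂ} {f : ι → MvPolynomial ι ℂ} (h : ∀ i, DegB b (f i)) (i : ι) :
    DegB b (Dun κ m f i) := by
  unfold W_MP_13ae32_ag.Dun
  apply DegB.sub (((h i).pderiv i).C_mul _)
  apply DegB.sum
  intro k hk
  exact ((h i).dd (Finset.ne_of_mem_erase hk).symm).2.C_mul _

theorem DegB.X_mul_Dun {b : ℕ} {κ m : ℂ} {f : ι → MvPolynomial ι ℂ} (h : ∀ i, DegB b (f i))
    (i : ι) : DegB b (X i * W_MP_13ae32_ag.Dun κ m f i) := by
  unfold W_MP_13ae32_ag.Dun
  rw [mul_sub, mul_left_comm, Finset.mul_sum]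
  apply DegB.sub (((h i).X_mul_pderiv i).C_mul _)
  apply DegB.sum
  intro k hk
  rw [mul_left_comm]
  exact ((h i).dd (Finset.ne_of_mem_erase hk).symm).1.C_mul _

/-! ### Vanishing -/

/-- the map `φ` has exactly `q` selected fibres, which have size `a`, and all others have size
at most one. -/
def ClusType (a q : ℕ) (φ : ι → ν) : Prop :=
  ∃ C : Finset ν, C.card = q ∧ (∀ y ∈ C, fib φ y = a) ∧ ∀ y ∉ C, fib φ y ≤ 1

/-- `p` vanishes whenever `q` disjoint groups of `a` variables are made equal. -/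
def Van (a q : ℕ) (p : MvPolynomial ι ℂ) : Prop :=
  ∀ (M : ℕ) (φ : ι → Fin M), ClusType a q φ → rename φ p = 0

theorem fib_comp_equiv_left {ν' : Type*} [DecidableEq ν'] [Fintype ν'] (φ : ι → ν) (e : ν ≃ ν')
    (y : ν') : fib (e ∘ φ) y = fib φ (e.symm y) := by
  unfold fib
  congr 1
  ext k
  simp only [Function.comp_apply, mem_filter, mem_univ, true_and]
  constructor
  · rintro rfl; simp
  · intro h; rw [h]; simp

theorem fib_comp_perm (φ : ι → ν) (σ : Equiv.Perm ι) (y : ν) : fib (φ ∘ σ) y = fib φ y := by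
  unfold fib
  refine Finset.card_bij (fun a _ => σ a) ?_ ?_ ?_
  · intro a ha; simpa using ha
  · intro a _ b _ h; exact σ.injective h
  · intro b hb; exact ⟨σ.symm b, by simpa using hb, by simp⟩

theorem ClusType.comp_perm {a q : ℕ} {φ : ι → ν} (h : ClusType a q φ) (σ : Equiv.Perm ι) :
    ClusType a q (φ ∘ σ) := by
  obtain ⟨C, h1, h2, h3⟩ := h
  exact ⟨C, h1, fun y hy => by rw [fib_comp_perm]; exact h2 y hy,
    fun y hy => by rw [fib_comp_perm]; exact h3 y hy⟩

theorem Van.rename_eq_zero {a q : ℕ} {p : MvPolynomial ι ℂ} (h : Van a q p) {φ : ι → ν}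
    (hφ : ClusType a q φ) : rename φ p = 0 := by
  let e := Fintype.equivFin ν
  have : ClusType a q (e ∘ φ) := by
    obtain ⟨C, h1, h2, h3⟩ := hφ
    refine ⟨C.map e.toEmbedding, by simpa using h1, ?_, ?_⟩
    · intro y hy
      rw [fib_comp_equiv_left]
      apply h2
      rw [Finset.mem_map] at hy
      obtain ⟨x, hx, rfl⟩ := hy
      simpa using hx
    · intro y hy
      rw [fib_comp_equiv_left]
      apply h3
      intro hx
      apply hy
      rw [Finset.mem_map]
      exact ⟨_, hx, by simp⟩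
  have h1 := h _ _ this
  rw [← rename_rename] at h1
  exact rename_injective _ e.injective (by simpa using h1)

theorem Van.rename_perm {a q : ℕ} {p : MvPolynomial ι ℂ} (h : Van a q p) (σ : Equiv.Perm ι) :
    Van a q (rename σ p) := by
  intro M φ hφ
  rw [rename_rename]
  exact h.rename_eq_zero (hφ.comp_perm σ)

theorem Van.add {a k : ℕ} {p q : MvPolynomial ι ℂ} (hp : Van a k p) (hq : Van a k q) :
    Van a k (p + q) := fun M φ hφ => by rw [map_add, hp M φ hφ, hq M φ hφ, add_zero]

theorem Van.sub {a k : ℕ} {p q : MvPolynomial ι ℂ} (hp : Van a k p) (hq : Van a k q) :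
    Van a k (p - q) := fun M φ hφ => by rw [map_sub, hp M φ hφ, hq M φ hφ, sub_zero]

theorem Van.mul_left {a k : ℕ} {q : MvPolynomial ι ℂ} (p : MvPolynomial ι ℂ)
    (hq : Van a k q) : Van a k (p * q) := fun M φ hφ => by
  rw [map_mul, hq M φ hφ, mul_zero]

theorem Van.zero (a k : ℕ) : Van a k (0 : MvPolynomial ι ℂ) := fun M φ _ => by simp

theorem Van.sum {a k : ℕ} {α : Type*} (s : Finset α) (f : α → MvPolynomial ι ℂ)
    (h : ∀ x ∈ s, Van a k (f x)) : Van a k (∑ x ∈ s, f x) := fun M φ hφ => by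
  rw [map_sum]; exact Finset.sum_eq_zero fun x hx => h x hx M φ hφ

theorem Van.Dun {a q : ℕ} (ha : 1 ≤ a) {f : ι → MvPolynomial ι ℂ} (hf : Equivar f)
    (h : ∀ i, Van a q (f i)) (i : ι) : Van a q (W_MP_13ae32_ag.Dun (a : ℂ) 1 f i) := by
  intro M φ hφ
  have hfib : fib φ (φ i) = 1 ∨ fib φ (φ i) = a := by
    obtain ⟨C, h1, h2, h3⟩ := hφ
    by_cases hC : φ i ∈ C
    · exact Or.inr (h2 _ hC)
    · left
      have : 1 ≤ fib φ (φ i) := Finset.card_pos.2 ⟨i, by simp⟩
      have := h3 _ hC
      omega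
  rw [res_Dun ha φ hf i hfib, h i M φ hφ, map_zero, mul_zero, zero_sub, neg_eq_zero]
  apply Finset.sum_eq_zero
  intro k hk
  have h1 := rename_dd_diff (φ := φ) i k f hf
  rw [h i M φ hφ, h k M φ hφ, sub_self] at h1
  have hne : φ i ≠ φ k := fun h => by simp [h] at hk
  exact (mul_eq_zero.1 h1).resolve_left (X_sub_X_ne_zero hne)

theorem Van.eq_zero {a : ℕ} {p : MvPolynomial ι ℂ} (h : Van a 0 p) : p = 0 := by
  have : ClusType a 0 (id : ι → ι) := by
    refine ⟨∅, rfl, by simp, fun y _ => ?_⟩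
    unfold fib
    simp only [id]
    rw [Finset.filter_eq' univ y]
    simp
  simpa using h.rename_eq_zero this

end

end Pool.Agent.W_MP_13ae32_ag
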