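import Pool.Agent.W_MP_13ae32_ag.LexDeg

/-!
Standard cluster maps, coefficients of renamed polynomials and the block lemma.
-/

open MvPolynomial Finset

set_option linter.unusedSectionVars false

namespace Pool.Agent.W_MP_13ae32_ag

section

variable {ι ν : Type*} [DecidableEq ι] [Fintype ι] [DecidableEq ν] [Fintype ν]

theorem mapDomain_apply_sum (φ : ι → ν) (d : ι →₀ ℕ) (y : ν) :
    Finsupp.mapDomain φ d y = ∑ k ∈ univ.filter (fun k => φ k = y), d k := by
  rw [Finsupp.mapDomain, Finsupp.sum_fintype _ _ (by simp), Finsupp.finsetSum_apply,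
    Finset.sum_filter]
  apply Finset.sum_congr rfl
  intro k _
  rw [Finsupp.single_apply]

theorem coeff_rename_sum (φ : ι → ν) (p : MvPolynomial ι ℂ) (y : ν →₀ ℕ) :
    coeff y (rename φ p) =
      ∑ d ∈ p.support.filter (fun d => Finsupp.mapDomain φ d = y), coeff d p := by
  conv_lhs => rw [p.as_sum]
  rw [map_sum, coeff_sum, Finset.sum_filter]
  apply Finset.sum_congr rfl
  intro d _
  rw [rename_monomial, coeff_monomial]

theorem exists_perm_of_fib {φ ψ : ι → ν} (h : ∀ y, fib φ y = fib ψ y) :
    ∃ e : Equiv.Perm ι, ∀ x, ψ (e x) = φ x := by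
  have h1 : ∀ y, Nonempty ({x // φ x = y} ≃ {x // ψ x = y}) := by
    intro y
    rw [← Fintype.card_eq, Fintype.card_subtype, Fintype.card_subtype]
    exact h y
  exact ⟨Equiv.ofFiberEquiv fun y => (h1 y).some, fun x => Equiv.ofFiberEquiv_map _ x⟩

theorem rename_eq_of_fib {φ ψ : ι → ν} (h : ∀ y, fib φ y = fib ψ y) {g : MvPolynomial ι ℂ}
    (hg : ∀ σ : Equiv.Perm ι, rename σ g = g) : rename φ g = rename ψ g := by
  obtain ⟨e, he⟩ := exists_perm_of_fib h
  have : φ = ψ ∘ e := funext fun x => (he x).symm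
  rw [this, ← rename_rename, hg]

/-- symmetry of the restricted polynomial -/
theorem rename_sym_of_fib {φ : ι → ν} {g : MvPolynomial ι ℂ}
    (hg : ∀ σ : Equiv.Perm ι, rename σ g = g) {σ : Equiv.Perm ν}
    (hσ : ∀ y, fib φ (σ y) = fib φ y) : rename σ (rename φ g) = rename φ g := by
  rw [rename_rename]
  apply rename_eq_of_fib _ hg
  intro y
  rw [fib_comp_equiv_left]
  have := hσ (σ.symm y)
  rw [Equiv.apply_symm_apply] at this
  exact this.symm

end

theorem exists_std {n a q : ℕ} {g : MvPolynomial (Fin n) ℂ} (h : ¬ Van a q g) :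
    ∃ m, m + q * a = n ∧ ∃ φ : Fin n → Fin (m + q),
      (∀ l : Fin (m + q), (l : ℕ) < m → fib φ l = 1) ∧
      (∀ l : Fin (m + q), m ≤ (l : ℕ) → fib φ l = a) ∧ rename φ g ≠ 0 := by
  unfold Van at h
  push Not at h
  obtain ⟨M', ψ, ⟨C, hC, h1, h2⟩, hne⟩ := h
  set S1 : Finset (Fin M') := univ.filter (fun y => y ∉ C ∧ fib ψ y = 1) with hS1
  have hn : n = ∑ y, fib ψ y := by
    have := Finset.card_eq_sum_card_fiberwise (f := ψ) (s := (univ : Finset (Fin n)))
      (t := univ) (fun x _ => by simp)
    simpa [fib] using this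
  have hsum : ∑ y, fib ψ y = S1.card + q * a := by
    have h3 : ∀ y, fib ψ y = (if y ∈ C then a else 0) + (if y ∈ S1 then 1 else 0) := by
      intro y
      by_cases hy : y ∈ C
      · have : y ∉ S1 := by rw [hS1]; simp [hy]
        simp [hy, this, h1 y hy]
      · have := h2 y hy
        by_cases h4 : fib ψ y = 1
        · have : y ∈ S1 := by rw [hS1]; simp [hy, h4]
          simp [hy, this, h4]
        · have h5 : y ∉ S1 := by rw [hS1]; simp [h4]
          simp only [hy, h5, if_false]; omega
    rw [Finset.sum_congr rfl fun y _ => h3 y, Finset.sum_add_distrib]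
    simp only [Finset.sum_ite_mem, Finset.univ_inter, Finset.sum_const, smul_eq_mul, mul_one, hC]
    ring
  set m := S1.card with hm
  refine ⟨m, by omega, ?_⟩
  set τ : Fin (m + q) → Fin M' :=
    Fin.addCases (fun i => S1.orderEmbOfFin rfl i) (fun c => C.orderEmbOfFin hC c) with hτ
  have hτl : ∀ i : Fin m, τ (Fin.castAdd q i) = S1.orderEmbOfFin rfl i := fun i => by
    simp [hτ]
  have hτr : ∀ c : Fin q, τ (Fin.natAdd m c) = C.orderEmbOfFin hC c := fun c => by
    simp [hτ]
  have hS1mem : ∀ i : Fin m, S1.orderEmbOfFin rfl i ∈ S1 := fun i => Finset.orderEmbOfFin_mem _ _ _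
  have hCmem : ∀ i : Fin q, C.orderEmbOfFin hC i ∈ C := fun i => Finset.orderEmbOfFin_mem _ _ _
  have hS1fib : ∀ y, y ∈ S1 → fib ψ y = 1 := fun y hy => by
    rw [hS1] at hy; simp at hy; exact hy.2
  have hdis : ∀ y, y ∈ S1 → y ∈ C → False := fun y hy hy' => by
    rw [hS1] at hy; simp at hy; exact hy.1 hy'
  have hτinj : Function.Injective τ := by
    intro x y hxy
    revert hxy
    refine Fin.addCases (fun i => ?_) (fun c => ?_) x <;>
      refine Fin.addCases (fun i' => ?_) (fun c' => ?_) y
    · rw [hτl, hτl]; intro h; rw [(S1.orderEmbOfFin rfl).injective h]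
    · rw [hτl, hτr]; intro h; exact (hdis _ (hS1mem i) (h ▸ hCmem c')).elim
    · rw [hτl, hτr]; intro h; exact (hdis _ (hS1mem i') (h ▸ hCmem c)).elim
    · rw [hτr, hτr]; intro h; rw [(C.orderEmbOfFin hC).injective h]
  have hex : ∀ k, ∃ l, τ l = ψ k := by
    intro k
    by_cases hk : ψ k ∈ C
    · have : ψ k ∈ Set.range (C.orderEmbOfFin hC) := by
        rw [Finset.range_orderEmbOfFin]; exact hk
      obtain ⟨c, hc⟩ := this
      exact ⟨Fin.natAdd m c, by rw [hτr, hc]⟩
    · have h3 : 1 ≤ fib ψ (ψ k) := Finset.card_pos.2 ⟨k, by simp⟩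
      have h4 := h2 _ hk
      have h5 : ψ k ∈ S1 := by rw [hS1]; simp [hk]; omega
      have : ψ k ∈ Set.range (S1.orderEmbOfFin rfl) := by
        rw [Finset.range_orderEmbOfFin]; exact h5
      obtain ⟨c, hc⟩ := this
      exact ⟨Fin.castAdd q c, by rw [hτl, hc]⟩
  choose φ hφ using hex
  have hfib : ∀ l, fib φ l = fib ψ (τ l) := by
    intro l
    unfold fib
    congr 1
    ext k
    simp only [mem_filter, mem_univ, true_and]
    rw [← hφ k]
    exact ⟨fun h => by rw [h], fun h => hτinj h⟩
  refine ⟨φ, ?_, ?_, ?_⟩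
  · intro l hl
    rw [hfib]
    have : l = Fin.castAdd q ⟨l, hl⟩ := by ext; simp
    rw [this, hτl]
    exact hS1fib _ (hS1mem ⟨l, hl⟩)
  · intro l hl
    rw [hfib]
    have hlt : (l : ℕ) - m < q := by have := l.2; omega
    have : l = Fin.natAdd m ⟨(l : ℕ) - m, hlt⟩ := by ext; simp; omega
    rw [this, hτr]
    exact h1 _ (hCmem _)
  · intro h0
    apply hne
    have : ψ = τ ∘ φ := funext fun k => (hφ k).symm
    rw [this, ← rename_rename, h0, map_zero]

/-- collapsing a block of variables -/
def blk {M : ℕ} (l0 a : ℕ) (h : l0 < M) (l : Fin M) : Fin M :=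
  if l0 ≤ (l : ℕ) ∧ (l : ℕ) < l0 + a then ⟨l0, h⟩ else l

theorem block {M m a l0 : ℕ} (ha : 1 ≤ a) (hm : m ≤ M) (hl0 : l0 + a ≤ m)
    {G : MvPolynomial (Fin M) ℂ} (hG : G ≠ 0)
    (hsym : ∀ σ : Equiv.Perm (Fin M), (∀ l : Fin M, m ≤ (l : ℕ) → σ l = l) → rename σ G = G)
    (hvan : rename (blk l0 a (by omega : l0 < M)) G = 0) :
    ld G ⟨l0 + (a - 1), by omega⟩ + 2 ≤ ld G ⟨l0, by omega⟩ := by
  by_contra hlt
  push Not at hlt
  set e := ld G with he
  set ψ : Fin M → Fin M := blk l0 a (by omega : l0 < M) with hψ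
  -- the block embedding
  set i : Fin a → Fin M := fun t => ⟨l0 + t, by have := t.2; omega⟩ with hi
  have hiinj : Function.Injective i := fun s t h => by
    simp only [hi, Fin.mk.injEq] at h; ext; omega
  have hanti : ∀ s t : Fin a, s ≤ t → e (i t) ≤ e (i s) := by
    intro s t hst
    rcases hst.eq_or_lt with rfl | hlt
    · exact le_rfl
    · apply ld_antitone hG
      · simp only [hi, Fin.mk_lt_mk]
        have : (s : ℕ) < t := hlt
        omega
      · apply hsym
        intro l hl
        apply Equiv.swap_apply_of_ne_of_ne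
        · rintro rfl; simp only [hi] at hl; have := s.2; omega
        · rintro rfl; simp only [hi] at hl; have := t.2; omega
  set v := e ⟨l0 + (a - 1), by omega⟩ with hv
  have hub : ∀ t, e (i t) ≤ v + 1 := by
    intro t
    have h0 : i ⟨0, by omega⟩ = ⟨l0, by omega⟩ := by simp [hi]
    have := hanti ⟨0, by omega⟩ t (Nat.zero_le _)
    rw [h0] at this
    omega
  have hlb : ∀ t, v ≤ e (i t) := by
    intro t
    have h0 : i ⟨a - 1, by omega⟩ = ⟨l0 + (a - 1), by omega⟩ := by simp [hi]
    have := hanti t ⟨a - 1, by omega⟩ (by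
      show (t : ℕ) ≤ a - 1
      have := t.2
      omega)
    rwa [h0] at this
  -- values of mapDomain
  have hmd1 : ∀ d : Fin M →₀ ℕ, Finsupp.mapDomain ψ d ⟨l0, by omega⟩ = ∑ t, d (i t) := by
    intro d
    rw [mapDomain_apply_sum]
    have : univ.filter (fun k => ψ k = ⟨l0, by omega⟩) = univ.map ⟨i, hiinj⟩ := by
      ext k
      simp only [mem_filter, mem_univ, true_and, mem_map, Function.Embedding.coeFn_mk, hψ, blk]
      constructor
      · intro h
        split_ifs at h with h1
        · exact ⟨⟨(k : ℕ) - l0, by omega⟩, by ext; simp [hi]; omega⟩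
        · exact ⟨⟨0, by omega⟩, by rw [h]; simp [hi]⟩
      · rintro ⟨t, rfl⟩
        rw [if_pos]
        simp only [hi]
        have := t.2
        omega
    rw [this, Finset.sum_map]
    rfl
  have hmd2 : ∀ (d : Fin M →₀ ℕ) (l : Fin M), l ∉ Set.range i →
      Finsupp.mapDomain ψ d l = d l := by
    intro d l hl
    rw [mapDomain_apply_sum]
    have hlb : ¬ (l0 ≤ (l : ℕ) ∧ (l : ℕ) < l0 + a) := by
      intro h
      exact hl ⟨⟨(l : ℕ) - l0, by omega⟩, by ext; simp [hi]; omega⟩
    have : univ.filter (fun k => ψ k = l) = {l} := by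
      ext k
      simp only [mem_filter, mem_univ, true_and, mem_singleton, hψ, blk]
      constructor
      · intro h
        split_ifs at h with h1
        · exfalso; apply hlb; rw [← h]; simp; omega
        · exact h
      · rintro rfl
        rw [if_neg hlb]
    rw [this, Finset.sum_singleton]
  have h0 := congrArg (coeff (Finsupp.mapDomain ψ e)) hvan
  rw [coeff_zero, coeff_rename_sum] at h0
  have hall : ∀ d ∈ G.support.filter (fun d => Finsupp.mapDomain ψ d = Finsupp.mapDomain ψ e),
      coeff d G = coeff e G := by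
    intro d hd
    rw [mem_filter, mem_support_iff] at hd
    obtain ⟨hd0, hd1⟩ := hd
    -- sort the block
    set f : Fin a → ℕᵒᵈ := fun t => OrderDual.toDual (d (i t)) with hf
    have hmono := Tuple.monotone_sort f
    set τ := Tuple.sort f with hτ
    have hanti' : ∀ s t : Fin a, s ≤ t → d (i (τ t)) ≤ d (i (τ s)) := fun s t hst => hmono hst
    set σ : Equiv.Perm (Fin M) := τ.viaFintypeEmbedding ⟨i, hiinj⟩ with hσ
    have hσi : ∀ t, σ (i t) = i (τ t) := fun t =>
      Equiv.Perm.viaFintypeEmbedding_apply_image _ ⟨i, hiinj⟩ t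
    have hσn : ∀ l, l ∉ Set.range i → σ l = l := fun l hl =>
      Equiv.Perm.viaFintypeEmbedding_apply_notMem_range _ ⟨i, hiinj⟩ hl
    have hσm : ∀ l : Fin M, m ≤ (l : ℕ) → σ l = l := by
      intro l hl
      apply hσn
      rintro ⟨t, rfl⟩
      simp only [hi] at hl
      have := t.2
      omega
    set d' := Finsupp.mapDomain σ.symm d with hd'
    have hd'l : ∀ l, d' l = d (σ l) := by
      intro l
      have := Finsupp.mapDomain_apply (Equiv.injective σ.symm) d (σ l)
      rwa [Equiv.symm_apply_apply] at this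
    have hsymm : rename (σ.symm) G = G := by
      apply hsym
      intro l hl
      rw [Equiv.symm_apply_eq, hσm l hl]
    have hc : coeff d' G = coeff d G := coeff_of_sym hsymm d
    have hd'0 : coeff d' G ≠ 0 := by rw [hc]; exact hd0
    have hnl := not_lexLt_of_coeff hd'0
    have hout : ∀ l, l ∉ Set.range i → d' l = e l := by
      intro l hl
      rw [hd'l, hσn l hl]
      have := congrFun (congrArg DFunLike.coe hd1) l
      rwa [hmd2 _ _ hl, hmd2 _ _ hl] at this
    have hsum : ∑ t, d' (i t) = ∑ t, e (i t) := by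
      have h1 := congrFun (congrArg DFunLike.coe hd1) ⟨l0, by omega⟩
      rw [hmd1, hmd1] at h1
      rw [← h1]
      simp only [hd'l, hσi]
      exact Equiv.sum_comp τ (fun t => d (i t))
    rcases lexLt_or_eq hnl with h1 | ⟨j, hj1, hj2⟩
    · rw [← hc, h1]
    · exfalso
      replace hj2 : d' j < e j := hj2
      have hj : j ∈ Set.range i := by
        by_contra hj
        rw [hout j hj] at hj2
        exact lt_irrefl _ hj2
      obtain ⟨t0, rfl⟩ := hj
      have hle : ∀ t, d' (i t) ≤ e (i t) := by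
        intro t
        rcases lt_trichotomy t t0 with h | h | h
        · exact (hj1 (i t) (by
            simp only [hi, Fin.mk_lt_mk]
            have : (t : ℕ) < t0 := h
            omega)).le
        · rw [h]; exact hj2.le
        · have h2 : d' (i t) ≤ d' (i t0) := by
            rw [hd'l, hd'l, hσi, hσi]
            exact hanti' _ _ h.le
          have h3 := hub t0
          have h4 := hlb t
          omega
      have := Finset.sum_lt_sum (fun t _ => hle t) ⟨t0, mem_univ _, hj2⟩
      omega
  rw [Finset.sum_congr rfl hall, Finset.sum_const, nsmul_eq_mul] at h0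
  have hcard : (G.support.filter
      (fun d => Finsupp.mapDomain ψ d = Finsupp.mapDomain ψ e)).card ≠ 0 := by
    apply Finset.card_ne_zero_of_mem (a := e)
    rw [mem_filter, mem_support_iff]
    exact ⟨coeff_ld_ne_zero hG, rfl⟩
  exact (mul_ne_zero (by exact_mod_cast hcard) (coeff_ld_ne_zero hG)) h0

end Pool.Agent.W_MP_13ae32_ag
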