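import Pool.Agent.W_MP_13ae32_ag.Space

/-!
Coefficient extraction with respect to the first variable, and lowest systems.
-/

open MvPolynomial Finset

set_option linter.unusedSectionVars false

namespace Pool.Agent.W_MP_13ae32_ag

variable {M : ℕ}

/-- coefficient of `X 0 ^ k`. -/
noncomputable def T (k : ℕ) (p : MvPolynomial (Fin (M + 1)) ℂ) : MvPolynomial (Fin M) ℂ :=
  (finSuccEquiv ℂ M p).coeff k

theorem coeff_T (k : ℕ) (p : MvPolynomial (Fin (M + 1)) ℂ) (d : Fin M →₀ ℕ) :
    coeff d (T k p) = coeff (Finsupp.cons k d) p := finSuccEquiv_coeff_coeff d p k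

@[simp] theorem T_zero (k : ℕ) : T k (0 : MvPolynomial (Fin (M + 1)) ℂ) = 0 := by simp [T]

theorem T_add (k : ℕ) (p q : MvPolynomial (Fin (M + 1)) ℂ) : T k (p + q) = T k p + T k q := by
  simp [T]

theorem T_sub (k : ℕ) (p q : MvPolynomial (Fin (M + 1)) ℂ) : T k (p - q) = T k p - T k q := by
  simp [T]

theorem T_C_mul (k : ℕ) (c : ℂ) (p : MvPolynomial (Fin (M + 1)) ℂ) :
    T k (C c * p) = C c * T k p := by
  ext d; simp [coeff_T, coeff_C_mul]

theorem T_sum (k : ℕ) {α : Type*} (s : Finset α) (f : α → MvPolynomial (Fin (M + 1)) ℂ) :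
    T k (∑ x ∈ s, f x) = ∑ x ∈ s, T k (f x) := by
  simp [T, Polynomial.finsetSum_coeff]

theorem T_X_succ_mul (k : ℕ) (l : Fin M) (p : MvPolynomial (Fin (M + 1)) ℂ) :
    T k (X l.succ * p) = X l * T k p := by
  simp [T, finSuccEquiv_X_succ, Polynomial.coeff_C_mul]

theorem T_succ_X_zero_mul (k : ℕ) (p : MvPolynomial (Fin (M + 1)) ℂ) :
    T (k + 1) (X 0 * p) = T k p := by
  simp [T, finSuccEquiv_X_zero, Polynomial.coeff_X_mul]

theorem T_zero_X_zero_mul (p : MvPolynomial (Fin (M + 1)) ℂ) :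
    T 0 (X 0 * p) = 0 := by
  simp [T, finSuccEquiv_X_zero]

theorem T_pderiv_succ (k : ℕ) (l : Fin M) (p : MvPolynomial (Fin (M + 1)) ℂ) :
    T k (pderiv l.succ p) = pderiv l (T k p) := by
  ext d
  rw [coeff_T, coeff_pderiv, coeff_pderiv, coeff_T]
  have : Finsupp.cons k d + Finsupp.single l.succ 1 = Finsupp.cons k (d + Finsupp.single l 1) := by
    ext j
    refine Fin.cases ?_ (fun j => ?_) j
    · simp
    · simp [Finsupp.single_apply, Fin.succ_inj]
  rw [this]
  simp

theorem T_pderiv_zero (k : ℕ) (p : MvPolynomial (Fin (M + 1)) ℂ) :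
    T k (pderiv 0 p) = C ((k : ℂ) + 1) * T (k + 1) p := by
  ext d
  rw [coeff_T, coeff_pderiv, coeff_C_mul, coeff_T]
  have : Finsupp.cons k d + Finsupp.single 0 1 = Finsupp.cons (k + 1) d := by
    ext j
    refine Fin.cases ?_ (fun j => ?_) j
    · simp
    · simp
  rw [this]
  simp [mul_comm]

theorem eq_zero_of_T {p : MvPolynomial (Fin (M + 1)) ℂ} (h : ∀ k, T k p = 0) : p = 0 := by
  have : finSuccEquiv ℂ M p = 0 := Polynomial.ext fun k => by simpa [T] using h k
  simpa using this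

theorem exists_T_eq_zero (p : MvPolynomial (Fin (M + 1)) ℂ) : ∃ N, ∀ k, N ≤ k → T k p = 0 :=
  ⟨(finSuccEquiv ℂ M p).natDegree + 1, fun _ hk =>
    Polynomial.coeff_eq_zero_of_natDegree_lt (by omega)⟩

theorem coeff_zero_X_mul {ι : Type*} (l : ι) (p : MvPolynomial ι ℂ) : coeff 0 (X l * p) = 0 := by
  classical
  simp [coeff_X_mul']

/-- `R l` are the quotients with the variable `X 0`. -/
theorem IsD.split {κ m : Fin (M + 1) → ℂ} {h h' : Fin (M + 1) → MvPolynomial (Fin (M + 1)) ℂ}
    (H : IsD κ m h h') : ∃ R : Fin M → MvPolynomial (Fin (M + 1)) ℂ,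
      (∀ l, (X l.succ - X 0) * R l = h l.succ - h 0) ∧
      (h' 0 = C (κ 0) * pderiv 0 (h 0) - ∑ l : Fin M, C (m l.succ) * R l) ∧
      (∀ k, IsD (fun l : Fin M => κ l.succ) (fun l : Fin M => m l.succ)
        (fun l => T k (h l.succ)) (fun l => T k (h' l.succ) + C (m 0) * T k (R l))) := by
  obtain ⟨Q, hQ, hh⟩ := H
  refine ⟨fun l => Q l.succ 0, fun l => hQ _ _, ?_, fun k => ?_⟩
  · rw [hh 0]
    congr 1
    have : (univ.erase (0 : Fin (M + 1))) = univ.map (Fin.succEmb M) := by
      ext j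
      refine Fin.cases ?_ (fun j => ?_) j
      · simp
      · simp [Fin.succ_ne_zero]
    rw [this, Finset.sum_map]
    apply Finset.sum_congr rfl
    intro l _
    congr 1
    have h1 := hQ l.succ 0
    have h2 := hQ 0 l.succ
    apply cancel (Fin.succ_ne_zero l).symm
    simp only [Fin.coe_succEmb]
    rw [h2]
    linear_combination h1
  · refine ⟨fun l l' => T k (Q l.succ l'.succ), ?_, ?_⟩
    · intro l l'
      have := congrArg (T k) (hQ l.succ l'.succ)
      rw [sub_mul, T_sub, T_sub, T_X_succ_mul, T_X_succ_mul, ← sub_mul] at this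
      exact this
    · intro l
      beta_reduce
      rw [hh l.succ, T_sub, T_C_mul, T_pderiv_succ, T_sum]
      have : (univ.erase l.succ) = insert (0 : Fin (M + 1)) ((univ.erase l).map (Fin.succEmb M)) := by
        ext j
        refine Fin.cases ?_ (fun j => ?_) j
        · simp [(Fin.succ_ne_zero l).symm]
        · simp [Fin.succ_ne_zero, Fin.succ_inj]
      rw [this, Finset.sum_insert, Finset.sum_map]
      · simp only [Fin.coe_succEmb, T_C_mul]
        ring
      · simp [Fin.succ_ne_zero]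

theorem T_quot {R p : MvPolynomial (Fin (M + 1)) ℂ} {l : Fin M}
    (h : (X l.succ - X 0) * R = p) (k : ℕ) :
    X l * T (k + 1) R - T k R = T (k + 1) p := by
  rw [← h, sub_mul, T_sub, T_X_succ_mul, T_succ_X_zero_mul]

theorem T_quot_zero {R p : MvPolynomial (Fin (M + 1)) ℂ} {l : Fin M}
    (h : (X l.succ - X 0) * R = p) :
    X l * T 0 R = T 0 p := by
  rw [← h, sub_mul, T_sub, T_X_succ_mul, T_zero_X_zero_mul, sub_zero]

theorem T_quot_eq_zero {R p : MvPolynomial (Fin (M + 1)) ℂ} {l : Fin M}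
    (h : (X l.succ - X 0) * R = p) {e : ℕ} (hp : ∀ k, e < k → T k p = 0) (k : ℕ) (hk : e ≤ k) :
    T k R = 0 := by
  obtain ⟨N, hN⟩ := exists_T_eq_zero R
  have key : ∀ j, ∀ k, e ≤ k → N ≤ k + j → T k R = 0 := by
    intro j
    induction j with
    | zero => intro k _ h2; exact hN k (by omega)
    | succ j ih =>
      intro k h1 h2
      have h3 := T_quot h k
      rw [hp (k + 1) (by omega), ih (k + 1) (by omega) (by omega), mul_zero, zero_sub,
        neg_eq_zero] at h3
      exact h3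
  exact key N k hk (by omega)

/-- top coefficients -/
theorem IsD.top {κ m : Fin (M + 1) → ℂ} {h h' : Fin (M + 1) → MvPolynomial (Fin (M + 1)) ℂ}
    (H : IsD κ m h h') {e : ℕ} (he : ∀ l k, e < k → T k (h l) = 0) :
    (∀ l k, e < k → T k (h' l) = 0) ∧ T e (h' 0) = 0 ∧
      IsD (fun l : Fin M => κ l.succ) (fun l : Fin M => m l.succ)
        (fun l => T e (h l.succ)) (fun l => T e (h' l.succ)) := by
  obtain ⟨R, hR, h0, hs⟩ := H.split
  have hRz : ∀ l k, e ≤ k → T k (R l) = 0 := fun l k hk =>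
    T_quot_eq_zero (hR l) (e := e) (fun k hk => by rw [T_sub, he _ k hk, he _ k hk, sub_zero]) k hk
  have h0' : ∀ k, e ≤ k → T k (h' 0) = 0 := by
    intro k hk
    rw [h0, T_sub, T_C_mul, T_pderiv_zero, he 0 (k + 1) (by omega), T_sum]
    simp [T_C_mul, hRz _ k hk]
  refine ⟨?_, h0' e le_rfl, ?_⟩
  · intro l k hk
    refine Fin.cases ?_ (fun l => ?_) l
    · exact h0' k hk.le
    · have h1 := hs k
      have h2 : (fun l : Fin M => T k (h l.succ)) = 0 := funext fun l => he _ k hk
      rw [h2] at h1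
      have h3 := congrFun (h1.unique (IsD.zero _ _)) l
      simpa [hRz l k hk.le] using h3
  · have h1 := hs e
    simpa [hRz _ e le_rfl] using h1

/-- lowest systems -/
def Low (κ m : Fin M → ℂ) (G : MvPolynomial (Fin M) ℂ) : Prop :=
  ∃ H : ℕ → Fin M → MvPolynomial (Fin M) ℂ, (∀ l, H 0 l = G) ∧
    (∀ r, IsD κ m (H r) (H (r + 1))) ∧
    (∀ r, ∑ l, C (m l) * H (r + 1) l = 0) ∧ ∑ l, C (m l) * (X l * H 2 l) = 0

theorem Low.top {κ m : Fin (M + 1) → ℂ} {G : MvPolynomial (Fin (M + 1)) ℂ}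
    (L : Low κ m G) {e : ℕ} (he : ∀ k, e < k → T k G = 0) :
    Low (fun l : Fin M => κ l.succ) (fun l : Fin M => m l.succ) (T e G) := by
  obtain ⟨H, h0, hD, ht, hx⟩ := L
  have hz : ∀ r l k, e < k → T k (H r l) = 0 := by
    intro r
    induction r with
    | zero => intro l k hk; rw [h0]; exact he k hk
    | succ r ih => exact ((hD r).top ih).1
  have htop : ∀ r, T e (H (r + 1) 0) = 0 := fun r => ((hD r).top (hz r)).2.1
  have htr : ∀ r, ∑ l : Fin M, C (m l.succ) * T e (H (r + 1) l.succ) = 0 := by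
    intro r
    have := congrArg (T e) (ht r)
    rw [T_sum, Fin.sum_univ_succ, T_zero] at this
    simpa [T_C_mul, htop r] using this
  refine ⟨fun r l => T e (H r l.succ), fun l => by simp [h0], fun r => ((hD r).top (hz r)).2.2,
    htr, ?_⟩
  have hX : T e (X 0 * H 2 0) = 0 := by
    cases e with
    | zero => exact T_zero_X_zero_mul _
    | succ e =>
      rw [T_succ_X_zero_mul]
      obtain ⟨R, hR, hR0, -⟩ := (hD 1).split
      rw [hR0, T_sub, T_C_mul, T_pderiv_zero, htop 0, mul_zero, mul_zero, zero_sub, neg_eq_zero,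
        T_sum]
      have : ∀ l, T e (R l) = - T (e + 1) (H 1 l.succ) := by
        intro l
        have h1 := T_quot (hR l) e
        rw [T_quot_eq_zero (hR l) (e := e + 1) (fun k hk => by
          rw [T_sub, hz _ _ k hk, hz _ _ k hk, sub_zero]) (e + 1) le_rfl, T_sub, htop 0] at h1
        linear_combination -h1
      have h2 := htr 0
      simp only [zero_add] at h2
      simp only [T_C_mul, this, mul_neg, Finset.sum_neg_distrib, h2, neg_zero]
  have := congrArg (T e) hx
  rw [T_sum, Fin.sum_univ_succ, T_zero, T_C_mul, hX, mul_zero, zero_add] at this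
  simpa [T_C_mul, T_X_succ_mul] using this

/-- The exponent equation. -/
theorem Low.exponent {κ m : Fin (M + 1) → ℂ} {G : MvPolynomial (Fin (M + 1)) ℂ}
    (L : Low κ m G) {e : ℕ} (he : ∀ k, e < k → T k G = 0) {c : ℂ} (hc : c ≠ 0)
    (hG : T e G = C c) (he0 : e ≠ 0) (hκ : κ 0 ≠ 0) (hm0 : m 0 ≠ 0)
    (hm : m 0 + ∑ l : Fin M, m l.succ ≠ 0) :
    κ 0 * ((e : ℂ) - 1) = ∑ l : Fin M, m l.succ + m 0 := by
  obtain ⟨H, h0, hD, ht, hx⟩ := L
  obtain ⟨e, rfl⟩ := Nat.exists_eq_succ_of_ne_zero he0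
  rw [Nat.succ_eq_add_one] at *
  have hH0 : H 0 = fun _ => G := funext h0
  have hH1 : H 1 = fun l => C (κ l) * pderiv l G := by
    have := hD 0
    rw [hH0] at this
    exact this.unique (IsD.const κ m G)
  set α : ℂ := κ 0 * ((e : ℂ) + 1) * c with hα
  have hα0 : α ≠ 0 := by
    rw [hα]
    refine mul_ne_zero (mul_ne_zero hκ ?_) hc
    exact_mod_cast Nat.succ_ne_zero e
  have h10 : coeff 0 (T e (H 1 0)) = α := by
    rw [hH1]; beta_reduce
    rw [T_C_mul, T_pderiv_zero, hG, ← C_mul, ← C_mul, coeff_C, if_pos rfl, hα]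
    ring
  set β : Fin M → ℂ := fun l => coeff 0 (T e (H 1 l.succ)) with hβ
  have htr : m 0 * α + ∑ l : Fin M, m l.succ * β l = 0 := by
    have := congrArg (fun p => coeff 0 (T e p)) (ht 0)
    simp only [zero_add, T_sum, Fin.sum_univ_succ, T_zero, T_add, coeff_zero, coeff_add, T_C_mul,
      coeff_C_mul, coeff_sum, h10] at this
    exact this
  obtain ⟨R, hR, hR0, -⟩ := (hD 1).split
  cases e with
  | zero =>
    exfalso
    have : ∀ l, β l = α := by
      intro l
      have h1 := congrArg (coeff 0) (T_quot_zero (hR l))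
      rw [T_sub, coeff_sub, h10, coeff_zero_X_mul] at h1
      simp only [hβ]
      linear_combination -h1
    simp only [this, ← Finset.sum_mul, ← add_mul] at htr
    exact (mul_ne_zero hm hα0) htr
  | succ e =>
    have hRc : ∀ l, coeff 0 (T e (R l)) = α - β l := by
      intro l
      have h1 := congrArg (coeff 0) (T_quot (hR l) e)
      rw [T_sub, coeff_sub, coeff_sub, h10, coeff_zero_X_mul] at h1
      simp only [hβ]
      linear_combination -h1
    have h20 : coeff 0 (T e (H 2 0)) =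
        κ 0 * ((e : ℂ) + 1) * α - ∑ l : Fin M, m l.succ * (α - β l) := by
      rw [hR0, T_sub, T_C_mul, T_pderiv_zero, T_sum, coeff_sub, coeff_C_mul, coeff_C_mul, h10,
        coeff_sum]
      simp only [T_C_mul, coeff_C_mul, hRc]
      ring
    have h21 : m 0 * coeff 0 (T e (H 2 0)) = 0 := by
      have := congrArg (fun p => coeff 0 (T (e + 1) p)) hx
      simp only [T_sum, Fin.sum_univ_succ, T_zero, T_add, coeff_zero, coeff_add, T_C_mul,
        coeff_C_mul, coeff_sum, T_succ_X_zero_mul, T_X_succ_mul, coeff_zero_X_mul, mul_zero,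
        Finset.sum_const_zero, add_zero] at this
      exact this
    have h22 := (mul_eq_zero.1 h21).resolve_left hm0
    rw [h20] at h22
    have h3 : ∑ l : Fin M, m l.succ * (α - β l) =
        (∑ l : Fin M, m l.succ) * α - ∑ l : Fin M, m l.succ * β l := by
      rw [Finset.sum_mul, ← Finset.sum_sub_distrib]
      exact Finset.sum_congr rfl fun _ _ => by ring
    rw [h3] at h22
    have h4 : (κ 0 * ((e : ℂ) + 1) - ∑ l : Fin M, m l.succ - m 0) * α = 0 := by
      linear_combination h22 - htr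
    have h5 := (mul_eq_zero.1 h4).resolve_right hα0
    push_cast
    linear_combination h5

end Pool.Agent.W_MP_13ae32_ag
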