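import Pool.Agent.W_MP_13ae32_ag.Std

/-!
The upper bound: symmetric polynomials with many variables, small degrees and vanishing on
clusters are zero.
-/

open MvPolynomial Finset

set_option linter.unusedSectionVars false

namespace Pool.Agent.W_MP_13ae32_ag

section

variable {ι ν : Type*} [DecidableEq ι] [Fintype ι] [DecidableEq ν] [Fintype ν]

theorem trace_restrict {φ : ι → ν} {s : ν → ι} (hs : ∀ l, φ (s l) = l)
    {f : ι → MvPolynomial ι ℂ} (hf : Equivar f) :
    rename φ (∑ i, f i) = ∑ l, C (fib φ l : ℂ) * rename φ (f (s l)) := by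
  rw [map_sum, ← Finset.sum_fiberwise_of_maps_to (fun i (_ : i ∈ univ) => mem_univ (φ i))]
  apply Finset.sum_congr rfl
  intro l _
  have : ∀ i ∈ univ.filter (fun i => φ i = l), rename φ (f i) = rename φ (f (s l)) := by
    intro i hi
    simp only [mem_filter, mem_univ, true_and] at hi
    exact hf.rename_eq (hi.trans (hs l).symm)
  rw [Finset.sum_congr rfl this, Finset.sum_const, nsmul_eq_mul]
  simp [fib]

theorem trace_sym {f : ι → MvPolynomial ι ℂ} (hf : Equivar f) (σ : Equiv.Perm ι) :
    rename σ (∑ i, f i) = ∑ i, f i := by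
  rw [map_sum]
  simp only [hf σ]
  exact Equiv.sum_comp σ f

/-- iterates of the Dunkl operator on a constant family -/
noncomputable def iter (a : ℕ) (g : MvPolynomial ι ℂ) : ℕ → ι → MvPolynomial ι ℂ
  | 0 => fun _ => g
  | r + 1 => Dun (a : ℂ) 1 (iter a g r)

theorem iter_equivar (a : ℕ) {g : MvPolynomial ι ℂ}
    (hg : ∀ σ : Equiv.Perm ι, rename σ g = g) : ∀ r, Equivar (iter a g r)
  | 0 => fun σ _ => hg σ
  | r + 1 => (iter_equivar a hg r).Dun _ _

theorem iter_hs (a : ℕ) {g : MvPolynomial ι ℂ} {N : ℕ}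
    (hg : ∀ σ : Equiv.Perm ι, rename σ g = g) (h : HS N 0 g) : ∀ r l, HS N r (iter a g r l)
  | 0 => fun _ => h
  | r + 1 => fun l => ((iter_equivar a hg r).isD_Dun _ _).hs (iter_hs a hg h r) l

theorem iter_degB (a : ℕ) {g : MvPolynomial ι ℂ} {b : ℕ} (h : DegB b g) :
    ∀ r l, DegB b (iter a g r l)
  | 0 => fun _ => h
  | r + 1 => fun l => DegB.Dun (iter_degB a h r) l

theorem iter_van {a q : ℕ} (ha : 1 ≤ a) {g : MvPolynomial ι ℂ}
    (hg : ∀ σ : Equiv.Perm ι, rename σ g = g) (h : Van a q g) : ∀ r l, Van a q (iter a g r l)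
  | 0 => fun _ => h
  | r + 1 => fun l => Van.Dun ha (iter_equivar a hg r) (iter_van ha hg h r) l

end

theorem card_ge (m q : ℕ) : (univ.filter (fun l : Fin (m + q) => m ≤ (l : ℕ))).card = q := by
  have : univ.filter (fun l : Fin (m + q) => m ≤ (l : ℕ)) = univ.map (Fin.natAddEmb m) := by
    ext l
    simp only [mem_filter, mem_univ, true_and, mem_map, Fin.natAddEmb_apply]
    constructor
    · intro h
      exact ⟨⟨(l : ℕ) - m, by have := l.2; omega⟩, by ext; simp; omega⟩
    · rintro ⟨c, rfl⟩; simp
  rw [this, Finset.card_map, Finset.card_univ, Fintype.card_fin]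

theorem blk_mem {M : ℕ} {l0 a : ℕ} (h : l0 < M) {l : Fin M}
    (hl : l0 ≤ (l : ℕ) ∧ (l : ℕ) < l0 + a) : blk l0 a h l = ⟨l0, h⟩ := if_pos hl

theorem blk_not_mem {M : ℕ} {l0 a : ℕ} (h : l0 < M) {l : Fin M}
    (hl : ¬ (l0 ≤ (l : ℕ) ∧ (l : ℕ) < l0 + a)) : blk l0 a h l = l := if_neg hl

/-- embedding of a block -/
def blkEmb (M l0 a : ℕ) (h : l0 + a ≤ M) : Fin a ↪ Fin M where
  toFun t := ⟨l0 + t, by have := t.2; omega⟩
  inj' s t hst := by
    have := congrArg Fin.val hst
    ext
    simpa using this

theorem blkEmb_val {M l0 a : ℕ} (h : l0 + a ≤ M) (t : Fin a) :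
    (blkEmb M l0 a h t : ℕ) = l0 + t := rfl

theorem blk_filter {M l0 a : ℕ} (ha : 1 ≤ a) (h : l0 + a ≤ M) :
    univ.filter (fun l : Fin M => blk l0 a (by omega : l0 < M) l = ⟨l0, by omega⟩) =
      univ.map (blkEmb M l0 a h) := by
  ext k
  simp only [mem_filter, mem_univ, true_and, mem_map]
  constructor
  · intro h'
    by_cases h1 : l0 ≤ (k : ℕ) ∧ (k : ℕ) < l0 + a
    · exact ⟨⟨(k : ℕ) - l0, by omega⟩, by ext; rw [blkEmb_val]; simp; omega⟩
    · rw [blk_not_mem _ h1] at h'
      exact ⟨⟨0, by omega⟩, by ext; rw [blkEmb_val, h']; simp⟩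
  · rintro ⟨t, rfl⟩
    apply blk_mem
    rw [blkEmb_val]
    have := t.2
    omega

theorem upper_step_hom {n a b q : ℕ} (ha : 1 ≤ a)
    (hn : q * a + (a - 1) * ((b - q) / 2 + 1) < n) :
    ∀ (N : ℕ) (g : MvPolynomial (Fin n) ℂ), HS N 0 g →
      (∀ σ : Equiv.Perm (Fin n), rename σ g = g) → DegB b g → Van a (q + 1) g → Van a q g := by
  intro N
  induction N using Nat.strong_induction_on with
  | _ N ih =>
  intro g hHS hsym hdeg hvan
  by_contra hcon
  obtain ⟨m, hmn, φ, hφ1, hφ2, hne⟩ := exists_std hcon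
  have hsurj : ∀ l, ∃ i, φ i = l := by
    intro l
    have : 0 < fib φ l := by
      rcases Nat.lt_or_ge (l : ℕ) m with h | h
      · rw [hφ1 l h]; exact one_pos
      · rw [hφ2 l h]; omega
    obtain ⟨i, hi⟩ := Finset.card_pos.1 this
    exact ⟨i, by simpa using hi⟩
  choose s hs using hsurj
  set G := rename φ g with hG
  set f := iter a g with hf
  have hfe := iter_equivar a hsym
  have hfHS := iter_hs a hsym hHS
  have hfdeg := iter_degB a hdeg
  have hfvan := iter_van ha hsym hvan
  have hfib : ∀ l, fib φ l = 1 ∨ fib φ l = a := by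
    intro l
    rcases Nat.lt_or_ge (l : ℕ) m with h | h
    · exact Or.inl (hφ1 l h)
    · exact Or.inr (hφ2 l h)
  -- vanishing of restricted lower-degree symmetric elements
  have hlow : ∀ (p : MvPolynomial (Fin n) ℂ) (r : ℕ), HS N (r + 1) p →
      (∀ σ : Equiv.Perm (Fin n), rename σ p = p) → DegB b p → Van a (q + 1) p →
      rename φ p = 0 := by
    intro p r hp1 hp2 hp3 hp4
    rcases Nat.lt_or_ge N (r + 1) with h | h
    · rw [hp1.eq_zero h, map_zero]
    · have := ih (N - (r + 1)) (by omega) p (hp1.shift h) hp2 hp3 hp4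
      apply this.rename_eq_zero
      refine ⟨univ.filter (fun l : Fin (m + q) => m ≤ (l : ℕ)), card_ge m q, ?_, ?_⟩
      · intro y hy
        exact hφ2 y (by simpa using hy)
      · intro y hy
        exact (hφ1 y (by simpa using hy)).le
  have hLow : Low (fun l => (a : ℂ) / (fib φ l : ℂ)) (fun l => (fib φ l : ℂ)) G := by
    refine ⟨fun r l => rename φ (f r (s l)), fun l => rfl,
      fun r => isD_restrict ha φ s hs hfib (hfe r), ?_, ?_⟩
    · intro r
      rw [← trace_restrict hs (hfe (r + 1))]
      apply hlow _ r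
      · exact HS.sum _ _ fun i _ => hfHS (r + 1) i
      · exact trace_sym (hfe (r + 1))
      · exact DegB.sum _ _ fun i _ => hfdeg (r + 1) i
      · exact Van.sum _ _ fun i _ => hfvan (r + 1) i
    · have h1 := trace_restrict hs (hfe 2).mulX
      have h2 : ∀ l, rename φ (X (s l) * iter a g 2 (s l)) =
          X l * rename φ (iter a g 2 (s l)) := by
        intro l; rw [map_mul, rename_X, hs]
      simp only [h2] at h1
      rw [hf, ← h1]
      apply hlow _ 0
      · exact HS.sum _ _ fun i _ => (hfHS 2 i).X_mul i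
      · exact trace_sym (hfe 2).mulX
      · exact DegB.sum _ _ fun i _ => DegB.X_mul_Dun (hfdeg 1) i
      · exact Van.sum _ _ fun i _ => (hfvan 2 i).mul_left _
  have hane : (a : ℂ) ≠ 0 := by exact_mod_cast (by omega : a ≠ 0)
  have hGsym : ∀ σ : Equiv.Perm (Fin (m + q)), (∀ l, fib φ (σ l) = fib φ l) →
      rename σ G = G := fun σ hσ => rename_sym_of_fib hsym hσ
  have hfixm : ∀ σ : Equiv.Perm (Fin (m + q)), (∀ l : Fin (m + q), m ≤ (l : ℕ) → σ l = l) →
      rename σ G = G := by
    intro σ hσ
    apply hGsym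
    intro l
    rcases Nat.lt_or_ge (l : ℕ) m with h | h
    · have h2 : (σ l : ℕ) < m := by
        by_contra hge
        push Not at hge
        have h3 := hσ (σ l) hge
        have h4 := σ.injective h3
        rw [h4] at hge
        omega
      rw [hφ1 l h, hφ1 _ h2]
    · rw [hσ l h]
  have hfixt : ∀ σ : Equiv.Perm (Fin (m + q)), (∀ l : Fin (m + q), (l : ℕ) < m → σ l = l) →
      rename σ G = G := by
    intro σ hσ
    apply hGsym
    intro l
    rcases Nat.lt_or_ge (l : ℕ) m with h | h
    · rw [hσ l h]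
    · have h2 : m ≤ (σ l : ℕ) := by
        by_contra hge
        push Not at hge
        have h3 := hσ (σ l) hge
        have h4 := σ.injective h3
        rw [h4] at hge
        omega
      rw [hφ2 l h, hφ2 _ h2]
  have hexp := lead_exp ha q m (m + q) rfl _ _ G N
    (fun l hl => by
      rw [hφ1 l hl]; simp)
    (fun l hl => by
      rw [hφ2 l hl]; exact ⟨div_self hane, rfl⟩) hne (hHS.rename φ) hfixt hLow
  obtain ⟨hexp1, hexp2⟩ := hexp
  set e := ld G with he
  -- monotonicity on the first block
  have hanti : ∀ l l' : Fin (m + q), l < l' → (l' : ℕ) < m → e l' ≤ e l := by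
    intro l l' hl hl'
    apply ld_antitone hne hl
    apply hfixm
    intro k hk
    apply Equiv.swap_apply_of_ne_of_ne
    · rintro rfl
      have : (k : ℕ) < l' := hl
      omega
    · rintro rfl; omega
  -- block inequality
  have hblock : ∀ l0, ∀ h : l0 + a ≤ m,
      e ⟨l0 + (a - 1), by omega⟩ + 2 ≤ e ⟨l0, by omega⟩ := by
    intro l0 hl0
    apply block ha (Nat.le_add_right m q) hl0 hne hfixm
    rw [hG, rename_rename]
    apply hvan.rename_eq_zero
    refine ⟨insert ⟨l0, by omega⟩ (univ.filter (fun l : Fin (m + q) => m ≤ (l : ℕ))), ?_, ?_, ?_⟩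
    · rw [Finset.card_insert_of_notMem (by simp; omega)]
      rw [card_ge]
    all_goals
      have hcomp : ∀ y : Fin (m + q), fib (blk l0 a (by omega : l0 < m + q) ∘ φ) y =
          ∑ l ∈ univ.filter (fun l => blk l0 a (by omega : l0 < m + q) l = y), fib φ l := by
        intro y
        unfold fib
        rw [← Finset.card_biUnion]
        · congr 1
          ext k
          simp
        · intro l _ l' _ hll
          rw [Function.onFun, Finset.disjoint_left]
          intro k hk hk'
          simp only [mem_filter, mem_univ, true_and] at hk hk'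
          exact hll (hk.symm.trans hk')
    · intro y hy
      rw [mem_insert] at hy
      rw [hcomp]
      rcases hy with rfl | hy
      · rw [blk_filter (by omega) (by omega), Finset.sum_map]
        have h2 : ∀ t ∈ (univ : Finset (Fin a)),
            fib φ (blkEmb (m + q) l0 a (by omega) t) = 1 := by
          intro t _
          apply hφ1
          rw [blkEmb_val]
          have := t.2
          omega
        rw [Finset.sum_congr rfl h2]
        simp
      · simp only [mem_filter, mem_univ, true_and] at hy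
        have h1 : univ.filter (fun l : Fin (m + q) =>
            blk l0 a (by omega : l0 < m + q) l = y) = {y} := by
          ext k
          simp only [mem_filter, mem_univ, true_and, mem_singleton]
          constructor
          · intro h
            by_cases h1 : l0 ≤ (k : ℕ) ∧ (k : ℕ) < l0 + a
            · rw [blk_mem _ h1] at h
              exfalso
              rw [← h] at hy
              simp only at hy
              omega
            · rwa [blk_not_mem _ h1] at h
          · rintro rfl
            exact blk_not_mem _ (by omega)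
        rw [h1, Finset.sum_singleton, hφ2 y hy]
    · intro y hy
      rw [mem_insert, not_or] at hy
      rw [hcomp]
      have hy2 : (y : ℕ) < m := by simpa using hy.2
      have h1 : univ.filter (fun l : Fin (m + q) =>
          blk l0 a (by omega : l0 < m + q) l = y) ⊆ {y} := by
        intro k
        simp only [mem_filter, mem_univ, true_and, mem_singleton]
        intro h
        by_cases h1 : l0 ≤ (k : ℕ) ∧ (k : ℕ) < l0 + a
        · rw [blk_mem _ h1] at h
          exact absurd h.symm hy.1
        · rwa [blk_not_mem _ h1] at h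
      calc _ ≤ ∑ l ∈ {y}, fib φ l := Finset.sum_le_sum_of_subset h1
        _ = 1 := by rw [Finset.sum_singleton, hφ1 y hy2]
        _ ≤ 1 := le_rfl
  -- chain
  set P := (b - q) / 2 with hP
  have hm : (a - 1) * (P + 1) < m := by
    rw [← hmn] at hn
    omega
  have hchain : ∀ k, ∀ h : (a - 1) * k < m, e ⟨(a - 1) * k, by omega⟩ + 2 * k ≤ e ⟨0, by omega⟩ := by
    intro k
    induction k with
    | zero => intro h; simp
    | succ k ihk =>
      intro h
      have h1 : (a - 1) * (k + 1) = (a - 1) * k + (a - 1) := by ring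
      have h2 := ihk (by omega)
      have h3 := hblock ((a - 1) * k) (by omega)
      have h4 : e ⟨(a - 1) * (k + 1), by omega⟩ = e ⟨(a - 1) * k + (a - 1), by omega⟩ := by
        congr 1
      rw [h4]
      omega
  have hPm : (a - 1) * P < m := lt_of_le_of_lt (Nat.mul_le_mul_left _ (Nat.le_succ P)) hm
  have hpos : 2 ≤ e ⟨(a - 1) * P, by omega⟩ := by
    have h1 : (a - 1) * (P + 1) = (a - 1) * P + (a - 1) := by ring
    have h3 := hblock ((a - 1) * P) (by omega)
    omega
  -- the last nonzero exponent
  have hbig : q + 2 ≤ e ⟨(a - 1) * P, by omega⟩ := by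
    obtain ⟨t, ⟨ht1, ht2⟩, ht3⟩ := exists_max
      (P := fun t => (a - 1) * P ≤ t ∧ ∃ h : t < m, e ⟨t, by omega⟩ ≠ 0) m
      ⟨(a - 1) * P, le_rfl, hPm, by omega⟩ (by rintro k hk ⟨-, h, -⟩; omega)
    obtain ⟨ht2, ht4⟩ := ht2
    have h5 := hexp2 ⟨t, by omega⟩ ht2 ht4 (by
      intro l' hl'
      rcases Nat.lt_or_ge (l' : ℕ) m with h | h
      · by_contra hne'
        have hlt : t < (l' : ℕ) := hl'
        exact ht3 l' hlt ⟨by omega, h, hne'⟩
      · exact hexp1 l' h)
    rcases Nat.eq_or_lt_of_le ht1 with h | h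
    · have : (⟨(a - 1) * P, by omega⟩ : Fin (m + q)) = ⟨t, by omega⟩ := by
        simp only [Fin.mk.injEq]; exact h
      rw [this]; exact h5
    · have h6 := hanti ⟨(a - 1) * P, by omega⟩ ⟨t, by omega⟩ (by
        rw [Fin.mk_lt_mk]; exact h) ht2
      omega
  have h0 := hchain P hPm
  -- degree bound
  have hdb : e ⟨0, by omega⟩ ≤ b := by
    have h1 := coeff_ld_ne_zero hne
    rw [hG] at h1
    obtain ⟨d, hd, hd0⟩ := coeff_rename_ne_zero _ _ _ h1
    have h2 : e ⟨0, by omega⟩ = Finsupp.mapDomain φ d ⟨0, by omega⟩ := by rw [hd]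
    rw [h2, mapDomain_apply_sum]
    have h3 := hφ1 ⟨0, by omega⟩ (by simp only; omega)
    obtain ⟨i, hi⟩ := Finset.card_eq_one.1 h3
    rw [hi, Finset.sum_singleton]
    exact hdeg.coeff d hd0 i
  omega

theorem HS_homogeneousComponent {ι : Type*} [DecidableEq ι] [Fintype ι] (N : ℕ)
    (p : MvPolynomial ι ℂ) : HS N 0 (homogeneousComponent N p) :=
  HS.of_isHomogeneous (homogeneousComponent_isHomogeneous N p)

theorem upper_step {n a b q : ℕ} (ha : 1 ≤ a)
    (hn : q * a + (a - 1) * ((b - q) / 2 + 1) < n)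
    (g : MvPolynomial (Fin n) ℂ)
    (hsym : ∀ σ : Equiv.Perm (Fin n), rename σ g = g) (hdeg : DegB b g)
    (hvan : Van a (q + 1) g) : Van a q g := by
  have h1 : ∀ N, Van a q (homogeneousComponent N g) := by
    intro N
    apply upper_step_hom ha hn N _ (HS_homogeneousComponent N g)
    · intro σ
      rw [rename_homogeneousComponent, hsym]
    · apply DegB.of_coeff
      intro d hd i
      rw [coeff_homogeneousComponent] at hd
      split_ifs at hd
      · exact hdeg.coeff d hd i
      · exact absurd rfl hd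
    · intro M φ hφ
      rw [rename_homogeneousComponent, hvan M φ hφ, map_zero]
  rw [← sum_homogeneousComponent g]
  exact Van.sum _ _ fun i _ => h1 i

/-- The upper bound. -/
theorem upper {n a b j : ℕ} (ha : 1 ≤ a) (hj : 1 ≤ j)
    (hn : (j - 1) * a + (a - 1) * ((b - (j - 1)) / 2 + 1) < n)
    (g : MvPolynomial (Fin n) ℂ)
    (hsym : ∀ σ : Equiv.Perm (Fin n), rename σ g = g) (hdeg : DegB b g)
    (hvan : Van a j g) : g = 0 := by
  have key : ∀ q, q ≤ j - 1 → q * a + (a - 1) * ((b - q) / 2 + 1) < n := by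
    intro q hq
    have mono : ∀ t, t + 1 ≤ j - 1 → t * a + (a - 1) * ((b - t) / 2 + 1) ≤
        (t + 1) * a + (a - 1) * ((b - (t + 1)) / 2 + 1) := by
      intro t ht
      have h1 : (b - t) / 2 + 1 ≤ ((b - (t + 1)) / 2 + 1) + 1 := by omega
      have h2 : (a - 1) * ((b - t) / 2 + 1) ≤ (a - 1) * (((b - (t + 1)) / 2 + 1) + 1) :=
        Nat.mul_le_mul_left _ h1
      have h3 : (a - 1) * (((b - (t + 1)) / 2 + 1) + 1) =
        (a - 1) * ((b - (t + 1)) / 2 + 1) + (a - 1) := by ring
      have h4 : (t + 1) * a = t * a + a := by ring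
      omega
    have hall : ∀ t, q + t ≤ j - 1 → q * a + (a - 1) * ((b - q) / 2 + 1) ≤
        (q + t) * a + (a - 1) * ((b - (q + t)) / 2 + 1) := by
      intro t
      induction t with
      | zero => intro _; exact le_rfl
      | succ t ih =>
        intro h
        have := mono (q + t) (by omega)
        exact (ih (by omega)).trans this
    have := hall (j - 1 - q) (by omega)
    rw [show q + (j - 1 - q) = j - 1 by omega] at this
    omega
  have hdesc : ∀ t, t ≤ j → Van a (j - t) g := by
    intro t
    induction t with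
    | zero => intro _; exact hvan
    | succ t ih =>
      intro ht
      have h1 := ih (by omega)
      have h2 : j - t = (j - (t + 1)) + 1 := by omega
      rw [h2] at h1
      exact upper_step ha (key _ (by omega)) g hsym hdeg h1
  have := hdesc j le_rfl
  rw [Nat.sub_self] at this
  exact this.eq_zero

end Pool.Agent.W_MP_13ae32_ag
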